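import Mathlib

/-!
A maximal ideal on `ω` which is the union of a strictly increasing `ω₁`-chain of ideals
(paper proof by helper595).
-/

open Set Filter

namespace R605.ChainIdeal

section indep

/-- index set of the independent family -/
abbrev D := Σ n : ℕ, Finset (Fin n → Bool)

def trunc (x : ℕ → Bool) (n : ℕ) : Fin n → Bool := fun i => x i

lemma exists_sep (s : Finset (ℕ → Bool)) : ∃ n, ∀ x ∈ s, ∀ y ∈ s, trunc x n = trunc y n → x = y := by
  classical
  have h : ∀ p : (ℕ → Bool) × (ℕ → Bool), ∃ n, ∀ m, n ≤ m → trunc p.1 m = trunc p.2 m → p.1 = p.2 := by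
    intro p
    by_cases hp : p.1 = p.2
    · exact ⟨0, fun _ _ _ => hp⟩
    · obtain ⟨k, hk⟩ := Function.ne_iff.mp hp
      refine ⟨k + 1, fun m hm h => ?_⟩
      exact absurd (congrFun h ⟨k, by omega⟩) hk
  choose N hN using h
  refine ⟨(s ×ˢ s).sup N, fun x hx y hy h => ?_⟩
  exact hN (x, y) _ (Finset.le_sup (Finset.mem_product.mpr ⟨hx, hy⟩)) h

end indep

section main

variable {ι : Type*}

/-- dictionary: a condition is a finite set of pairs -/
def Cons (g : Finset (ι × Bool)) : Prop := ∀ b, (b, true) ∈ g → (b, false) ∉ g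

def DomIn (S : Set ι) (g : Finset (ι × Bool)) : Prop := ∀ p ∈ g, p.1 ∈ S

variable (A : ι → Set ℕ)

def X (g : Finset (ι × Bool)) : Set ℕ := {n | ∀ p ∈ g, (n ∈ A p.1 ↔ p.2 = true)}

lemma X_anti {g h : Finset (ι × Bool)} (hgh : g ⊆ h) : X A h ⊆ X A g :=
  fun _ hn p hp => hn p (hgh hp)

/-- Filters for which all the sets `X g` are positive. -/
def Good (F : Filter ℕ) : Prop := ∀ g, Cons g → (X A g)ᶜ ∉ F

lemma chain_bound (c : Set (Filter ℕ)) (hc : c ⊆ {F | Good A F})
    (hchain : IsChain (fun F G : Filter ℕ => G ≤ F) c) (y : Filter ℕ) (hy : y ∈ c) :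
    ∃ ub : Filter ℕ, Good A ub ∧ ∀ z ∈ c, ub ≤ z := by
  refine ⟨⨅ F ∈ c, F, ?_, ?_⟩
  · intro g hg hmem
    have : ((X A g)ᶜ ∈ ⨅ F ∈ c, F) ↔ ∃ F ∈ c, (X A g)ᶜ ∈ F := by
      refine Filter.mem_biInf_of_directed ?_ ⟨y, hy⟩
      intro F hF G hG
      rcases hchain.total hF hG with h | h
      · exact ⟨G, hG, h, le_refl (G : Filter ℕ)⟩
      · exact ⟨F, hF, le_refl (F : Filter ℕ), h⟩
    obtain ⟨F, hF, hFm⟩ := this.mp hmem
    exact hc hF g hg hFm
  · intro z hz
    exact iInf₂_le z hz

lemma exists_good_min (h0 : ∀ g, Cons g → (X A g).Nonempty) :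
    ∃ F : Filter ℕ, Good A F ∧ ∀ G : Filter ℕ, Good A G → G ≤ F → F ≤ G := by
  have key := @zorn_le_nonempty₀ (Filter ℕ)ᵒᵈ _ {F | Good A F} ?_ (⊤ : Filter ℕ) ?_
  · obtain ⟨m, -, hm⟩ := key
    exact ⟨m, hm.prop, fun G hG hGm => hm.le_of_ge hG hGm⟩
  · intro c hc hchain y hy
    exact chain_bound A c hc hchain y hy
  · intro g hg hmem
    rw [Filter.mem_top] at hmem
    obtain ⟨n, hn⟩ := h0 g hg
    have : n ∈ (X A g)ᶜ := hmem ▸ mem_univ n
    exact this hn

variable {A} {F : Filter ℕ}

/-- `g` forces `B` -/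
def Force (A : ι → Set ℕ) (F : Filter ℕ) (g : Finset (ι × Bool)) (B : Set ℕ) : Prop :=
  ∀ᶠ n in F, n ∈ X A g → n ∈ B

lemma Force.mono_left {g h : Finset (ι × Bool)} {B : Set ℕ} (hg : Force A F g B) (hgh : g ⊆ h) :
    Force A F h B :=
  hg.mono fun _ hn hx => hn (X_anti A hgh hx)

lemma not_force_both (hF : Good A F) {g : Finset (ι × Bool)} (hg : Cons g) {B : Set ℕ}
    (h1 : Force A F g B) (h2 : Force A F g Bᶜ) : False :=
  hF g hg ((h1.and h2).mono fun _ hn hx => hn.2 hx (hn.1 hx))

lemma mem_of_dense (hF : Good A F) (hmin : ∀ G : Filter ℕ, Good A G → G ≤ F → F ≤ G)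
    {C : Set ℕ} (hC : ∀ g, Cons g → ∃ h, g ⊆ h ∧ Cons h ∧ Force A F h C) : C ∈ F := by
  have hG : Good A (F ⊓ 𝓟 C) := by
    intro g hg hmem
    rw [Filter.mem_inf_principal] at hmem
    obtain ⟨h, hgh, hh, hf⟩ := hC g hg
    refine hF h hh ?_
    filter_upwards [hmem, hf] with n h1 h2 hx
    exact h1 (h2 hx) (X_anti A hgh hx)
  exact hmin _ hG inf_le_left (mem_inf_of_right (mem_principal_self C))

lemma exists_decide [DecidableEq (ι × Bool)] (hF : Good A F)
    (hmin : ∀ G : Filter ℕ, Good A G → G ≤ F → F ≤ G)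
    (B : Set ℕ) (g : Finset (ι × Bool)) (hg : Cons g) :
    ∃ h, g ⊆ h ∧ Cons h ∧ (Force A F h B ∨ Force A F h Bᶜ) := by
  by_contra hcon
  push Not at hcon
  have hG : Good A (F ⊓ 𝓟 (B ∪ (X A g)ᶜ)) := by
    intro k hk hmem
    rw [Filter.mem_inf_principal] at hmem
    by_cases hkg : Cons (k ∪ g)
    · refine (hcon _ Finset.subset_union_right hkg).2 ?_
      filter_upwards [hmem] with n hn hx hB
      exact hn (Or.inl hB) (X_anti A Finset.subset_union_left hx)
    · refine hF k hk ?_
      filter_upwards [hmem] with n hn hx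
      refine hn (Or.inr fun hxg => hkg ?_) hx
      intro b h1 h2
      have e1 : n ∈ A b ↔ (true = true) := by
        rcases Finset.mem_union.mp h1 with h | h
        · exact hx _ h
        · exact hxg _ h
      have e2 : n ∈ A b ↔ (false = true) := by
        rcases Finset.mem_union.mp h2 with h | h
        · exact hx _ h
        · exact hxg _ h
      have := e1.mpr rfl
      exact absurd (e2.mp this) (by decide)
  have h1 : B ∪ (X A g)ᶜ ∈ F := hmin _ hG inf_le_left (mem_inf_of_right (mem_principal_self _))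
  refine (hcon g (Finset.Subset.refl _) hg).1 ?_
  filter_upwards [h1] with n hn hx
  rcases hn with h | h
  · exact h
  · exact absurd hx h

/-- `B` has support in `S`. -/
def Supp (A : ι → Set ℕ) (F : Filter ℕ) (S : Set ι) (B : Set ℕ) : Prop :=
  ∀ g, Cons g → DomIn S g → ∃ h, g ⊆ h ∧ Cons h ∧ DomIn S h ∧ (Force A F h B ∨ Force A F h Bᶜ)

lemma Supp.compl {S : Set ι} {B : Set ℕ} (h : Supp A F S B) : Supp A F S Bᶜ := by
  intro g hg hd
  obtain ⟨k, h1, h2, h3, h4⟩ := h g hg hd
  exact ⟨k, h1, h2, h3, by rw [compl_compl]; exact h4.symm⟩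

lemma Supp.inter {S : Set ι} {B C : Set ℕ} (h : Supp A F S B) (h' : Supp A F S C) :
    Supp A F S (B ∩ C) := by
  intro g hg hd
  obtain ⟨k, h1, h2, h3, h4⟩ := h g hg hd
  obtain ⟨l, l1, l2, l3, l4⟩ := h' k h2 h3
  refine ⟨l, h1.trans l1, l2, l3, ?_⟩
  rcases h4 with h4 | h4
  · rcases l4 with l4 | l4
    · left
      exact ((h4.mono_left l1).and l4).mono fun n hn hx => ⟨hn.1 hx, hn.2 hx⟩
    · right
      exact l4.mono fun n hn hx hc => hn hx hc.2
  · right
    exact (h4.mono_left l1).mono fun n hn hx hc => hn hx hc.1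

lemma Supp.univ {S : Set ι} : Supp A F S Set.univ :=
  fun g hg hd => ⟨g, Finset.Subset.refl _, hg, hd, Or.inl (Eventually.of_forall fun _ _ => mem_univ _)⟩

lemma cons_glue [DecidableEq (ι × Bool)] {S : Set ι} [DecidablePred (· ∈ S)]
    {g h : Finset (ι × Bool)} (hg : Cons g) (hh : Cons h)
    (hd : DomIn S h) (hsub : g.filter (fun p => p.1 ∈ S) ⊆ h) : Cons (h ∪ g) := by
  intro b h1 h2
  by_cases hb : b ∈ S
  · have f1 : (b, true) ∈ h := by
      rcases Finset.mem_union.mp h1 with h | h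
      · exact h
      · exact hsub (Finset.mem_filter.mpr ⟨h, hb⟩)
    have f2 : (b, false) ∈ h := by
      rcases Finset.mem_union.mp h2 with h | h
      · exact h
      · exact hsub (Finset.mem_filter.mpr ⟨h, hb⟩)
    exact hh b f1 f2
  · have f1 : (b, true) ∈ g := by
      rcases Finset.mem_union.mp h1 with h | h
      · exact absurd (hd _ h) hb
      · exact h
    have f2 : (b, false) ∈ g := by
      rcases Finset.mem_union.mp h2 with h | h
      · exact absurd (hd _ h) hb
      · exact h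
    exact hg b f1 f2

lemma cons_mono {g h : Finset (ι × Bool)} (hgh : g ⊆ h) (hh : Cons h) : Cons g :=
  fun b h1 h2 => hh b (hgh h1) (hgh h2)

lemma Supp.mono {S T : Set ι} (hST : S ⊆ T) {B : Set ℕ} (h : Supp A F S B) : Supp A F T B := by
  classical
  intro g hg hd
  obtain ⟨k, h1, h2, h3, h4⟩ := h (g.filter (fun p => p.1 ∈ S)) (cons_mono (Finset.filter_subset _ _) hg)
    (fun p hp => (Finset.mem_filter.mp hp).2)
  refine ⟨k ∪ g, Finset.subset_union_right, cons_glue hg h2 h3 h1, ?_, ?_⟩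
  · intro p hp
    rcases Finset.mem_union.mp hp with hp | hp
    · exact hST (h3 p hp)
    · exact hd p hp
  · rcases h4 with h4 | h4
    · exact Or.inl (h4.mono_left Finset.subset_union_left)
    · exact Or.inr (h4.mono_left Finset.subset_union_left)

lemma supp_gen [DecidableEq (ι × Bool)] {S : Set ι} {b : ι} (hb : b ∈ S) : Supp A F S (A b) := by
  intro g hg hd
  by_cases h1 : (b, false) ∈ g
  · refine ⟨g, Finset.Subset.refl _, hg, hd, Or.inr (Eventually.of_forall fun n hn hA => ?_)⟩
    exact Bool.false_ne_true ((hn _ h1).mp hA)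
  · refine ⟨insert (b, true) g, Finset.subset_insert _ _, ?_, ?_, Or.inl (Eventually.of_forall fun n hn => ?_)⟩
    · intro c hc hc'
      rcases Finset.mem_insert.mp hc' with h | h
      · exact absurd (congrArg Prod.snd h) Bool.false_ne_true
      · rcases Finset.mem_insert.mp hc with h' | h'
        · have : c = b := congrArg Prod.fst h'
          subst this
          exact h1 h
        · exact hg c h' h
    · intro p hp
      rcases Finset.mem_insert.mp hp with h | h
      · rw [h]; exact hb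
      · exact hd p h
    · exact (hn _ (Finset.mem_insert_self _ _)).mpr rfl

/-- Every set has a countable support. -/
lemma exists_countable_supp [DecidableEq (ι × Bool)] (hF : Good A F)
    (hmin : ∀ G : Filter ℕ, Good A G → G ≤ F → F ≤ G) (B : Set ℕ) :
    ∃ S : Set ι, S.Countable ∧ Supp A F S B := by
  classical
  have H : ∀ g : Finset (ι × Bool), ∃ h, Cons g → (g ⊆ h ∧ Cons h ∧ (Force A F h B ∨ Force A F h Bᶜ)) := by
    intro g
    by_cases hg : Cons g
    · obtain ⟨h, hh⟩ := exists_decide hF hmin B g hg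
      exact ⟨h, fun _ => hh⟩
    · exact ⟨g, fun h => absurd h hg⟩
  choose E hE using H
  let step : Set ι → Set ι := fun S => S ∪ ⋃ (g : {g : Finset (ι × Bool) // DomIn S g}), (fun p : ι × Bool => p.1) '' (E g.1 : Set (ι × Bool))
  let SS : ℕ → Set ι := fun n => step^[n] ∅
  have hstep : ∀ S : Set ι, S.Countable → (step S).Countable := by
    intro S hS
    have hc : Countable {g : Finset (ι × Bool) // DomIn S g} := by
      have : Countable (S × Bool) := by
        have := hS.to_subtype
        infer_instance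
      have hinj : Function.Injective (fun g : {g : Finset (ι × Bool) // DomIn S g} =>
          (g.1.attach.image (fun p => ((⟨p.1.1, g.2 p.1 p.2⟩ : S), p.1.2)) : Finset (S × Bool))) := by
        intro g h hgh
        apply Subtype.ext
        have key : ∀ g : {g : Finset (ι × Bool) // DomIn S g},
            g.1 = (g.1.attach.image (fun p => ((⟨p.1.1, g.2 p.1 p.2⟩ : S), p.1.2))).image
              (fun q : S × Bool => ((q.1 : ι), q.2)) := by
          intro g
          ext p
          simp only [Finset.mem_image, Finset.mem_attach, true_and, Subtype.exists]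
          constructor
          · intro hp
            exact ⟨_, ⟨p, hp, rfl⟩, rfl⟩
          · rintro ⟨q, ⟨r, hr, rfl⟩, rfl⟩
            exact hr
        rw [key g, key h]
        exact congrArg _ hgh
      exact hinj.countable
    exact hS.union (countable_iUnion fun g => (Finset.countable_toSet _).image _)
  have hSS : ∀ n, (SS n).Countable := by
    intro n
    induction n with
    | zero => exact countable_empty
    | succ n ih =>
      have : SS (n+1) = step (SS n) := Function.iterate_succ_apply' _ _ _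
      rw [this]; exact hstep _ ih
  have hmono : Monotone SS := by
    apply monotone_nat_of_le_succ
    intro n
    have : SS (n+1) = step (SS n) := Function.iterate_succ_apply' _ _ _
    rw [this]
    exact subset_union_left
  refine ⟨⋃ n, SS n, countable_iUnion hSS, ?_⟩
  intro g hg hd
  have : ∃ n, DomIn (SS n) g := by
    have h1 : ∀ p : ι × Bool, ∃ n, p ∈ g → p.1 ∈ SS n := by
      intro p
      by_cases hp : p ∈ g
      · obtain ⟨n, hn⟩ := mem_iUnion.mp (hd p hp)
        exact ⟨n, fun _ => hn⟩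
      · exact ⟨0, fun h => absurd h hp⟩
    choose N hN using h1
    exact ⟨g.sup N, fun p hp => hmono (Finset.le_sup hp) (hN p hp)⟩
  obtain ⟨n, hn⟩ := this
  obtain ⟨e1, e2, e3⟩ := hE g hg
  refine ⟨E g, e1, e2, ?_, e3⟩
  intro p hp
  refine mem_iUnion.mpr ⟨n + 1, ?_⟩
  have : SS (n+1) = step (SS n) := Function.iterate_succ_apply' _ _ _
  rw [this]
  exact Or.inr (mem_iUnion.mpr ⟨⟨g, hn⟩, ⟨p, hp, rfl⟩⟩)

/-- The chain of filters. -/
def Fil (A : ι → Set ℕ) (F : Filter ℕ) (U : Ultrafilter ℕ) (S : Set ι) : Set (Set ℕ) :=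
  {B | ∃ C ∈ U, Supp A F S C ∧ ∀ᶠ n in F, n ∈ C → n ∈ B}

variable {U : Ultrafilter ℕ}

lemma Fil_sub (hU : (U : Filter ℕ) ≤ F) {S : Set ι} {B : Set ℕ} (h : B ∈ Fil A F U S) : B ∈ U := by
  obtain ⟨C, hC, -, hB⟩ := h
  filter_upwards [hC, hU hB] with n h1 h2
  exact h2 h1

lemma Fil_strict [DecidableEq (ι × Bool)] (hF : Good A F)
    (hmin : ∀ G : Filter ℕ, Good A G → G ≤ F → F ≤ G)
    (hU : (U : Filter ℕ) ≤ F) {S T : Set ι} (hST : S ⊆ T) {b : ι} (hbT : b ∈ T) (hbS : b ∉ S) :
    Fil A F U S ⊂ Fil A F U T := by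
  classical
  refine ⟨?_, ?_⟩
  · rintro B ⟨C, hC, h1, h2⟩
    exact ⟨C, hC, h1.mono hST, h2⟩
  · intro hsub
    -- the set `A b` or its complement
    have hE : ∃ (e : Bool), {n | n ∈ A b ↔ e = true} ∈ U := by
      rcases U.mem_or_compl_mem (A b) with h | h
      · refine ⟨true, ?_⟩
        filter_upwards [h] with n hn
        exact ⟨fun _ => rfl, fun _ => hn⟩
      · refine ⟨false, ?_⟩
        filter_upwards [h] with n hn
        exact ⟨fun h => absurd h hn, fun h => absurd h (by decide)⟩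
    obtain ⟨e, he⟩ := hE
    have hsupp : Supp A F T {n | n ∈ A b ↔ e = true} := by
      cases e
      · have : {n | n ∈ A b ↔ false = true} = (A b)ᶜ := by
          ext n; simp
        rw [this]
        exact (supp_gen hbT).compl
      · have : {n | n ∈ A b ↔ true = true} = (A b) := by
          ext n; simp
        rw [this]
        exact supp_gen hbT
    have hmemT : {n | n ∈ A b ↔ e = true} ∈ Fil A F U T :=
      ⟨_, he, hsupp, Eventually.of_forall fun _ h => h⟩
    obtain ⟨C, hC, hCS, hCE⟩ := hsub hmemT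
    have hclaim : ∃ h, Cons h ∧ DomIn S h ∧ Force A F h C := by
      by_contra hno
      push Not at hno
      have hCc : Cᶜ ∈ F := by
        refine mem_of_dense hF hmin ?_
        intro g hg
        obtain ⟨k, h1, h2, h3, h4⟩ := hCS (g.filter (fun p => p.1 ∈ S))
          (cons_mono (Finset.filter_subset _ _) hg) (fun p hp => (Finset.mem_filter.mp hp).2)
        refine ⟨k ∪ g, Finset.subset_union_right, cons_glue hg h2 h3 h1, ?_⟩
        rcases h4 with h4 | h4
        · exact absurd h4 (hno k h2 h3)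
        · exact h4.mono_left Finset.subset_union_left
      exact (Ultrafilter.compl_notMem_iff.mpr hC) (hU hCc)
    obtain ⟨h, hh, hd, hfo⟩ := hclaim
    have hcons : Cons (insert (b, !e) h) := by
      intro c h1 h2
      by_cases hc : c ∈ S
      · have hcb : c ≠ b := fun h => hbS (h ▸ hc)
        have f1 : (c, true) ∈ h := by
          rcases Finset.mem_insert.mp h1 with h | h
          · exact absurd (congrArg Prod.fst h) hcb
          · exact h
        have f2 : (c, false) ∈ h := by
          rcases Finset.mem_insert.mp h2 with h | h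
          · exact absurd (congrArg Prod.fst h) hcb
          · exact h
        exact hh c f1 f2
      · have f1 : true = !e := by
          rcases Finset.mem_insert.mp h1 with h | h
          · exact congrArg Prod.snd h
          · exact absurd (hd _ h) hc
        have f2 : false = !e := by
          rcases Finset.mem_insert.mp h2 with h | h
          · exact congrArg Prod.snd h
          · exact absurd (hd _ h) hc
        exact absurd (f1.trans f2.symm) (by decide)
    refine hF _ hcons ?_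
    filter_upwards [hfo, hCE] with n h1 h2 hx
    have e1 : n ∈ A b ↔ e = true := h2 (h1 (X_anti A (Finset.subset_insert _ _) hx))
    have e2 : n ∈ A b ↔ (!e) = true := hx _ (Finset.mem_insert_self _ _)
    have := e1.symm.trans e2
    cases e <;> simp at this

end main

section final

/-- The independent family. -/
lemma exists_indep {ι : Type*} (x : ι → (ℕ → Bool)) (hx : Function.Injective x) :
    ∃ A : ι → Set ℕ, ∀ g : Finset (ι × Bool), Cons g → (X A g).Nonempty := by
  classical
  obtain ⟨d, hd⟩ := exists_surjective_nat D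
  refine ⟨fun i => {k | trunc (x i) (d k).1 ∈ (d k).2}, ?_⟩
  intro g hg
  obtain ⟨n, hn⟩ := exists_sep (g.image fun p => x p.1)
  obtain ⟨k, hk⟩ := hd ⟨n, (g.filter (fun p => p.2 = true)).image (fun p => trunc (x p.1) n)⟩
  refine ⟨k, ?_⟩
  intro p hp
  change trunc (x p.1) (d k).1 ∈ (d k).2 ↔ p.2 = true
  rw [hk]
  constructor
  · intro hmem
    obtain ⟨q, hq, hqe⟩ := Finset.mem_image.mp hmem
    obtain ⟨hq1, hq2⟩ := Finset.mem_filter.mp hq
    have h1 : x q.1 = x p.1 := hn _ (Finset.mem_image_of_mem _ hq1) _ (Finset.mem_image_of_mem _ hp) hqe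
    have h2 : q.1 = p.1 := hx h1
    by_contra hne
    have hpf : p.2 = false := by simpa using hne
    refine hg p.1 ?_ ?_
    · have : (p.1, true) = q := Prod.ext h2.symm hq2.symm
      rw [this]; exact hq1
    · have : (p.1, false) = p := Prod.ext rfl hpf.symm
      rw [this]; exact hp
  · intro hp2
    exact Finset.mem_image_of_mem _ (Finset.mem_filter.mpr ⟨hp, hp2⟩)

/-- Ideals on `ω` as in the problem. -/
structure IsIdeal (J : Set (Set ℕ)) : Prop where
  univ_notMem : Set.univ ∉ J
  empty_mem : ∅ ∈ J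
  union_mem : ∀ B ∈ J, ∀ C ∈ J, B ∪ C ∈ J
  subset_mem : ∀ B ∈ J, ∀ C ⊆ B, C ∈ J

theorem exists_chain (ι : Type*) [LinearOrder ι] (x : ι → (ℕ → Bool)) (hx : Function.Injective x)
    (hb : ∀ S : Set ι, S.Countable → ∃ a, ∀ s ∈ S, s < a) :
    ∃ J : ι → Set (Set ℕ), (∀ a, IsIdeal (J a)) ∧ (∀ a b, a < b → J a ⊂ J b) ∧
      ∀ B : Set ℕ, (B ∈ ⋃ a, J a) ↔ Bᶜ ∉ ⋃ a, J a := by
  classical
  obtain ⟨A, hA⟩ := exists_indep x hx
  obtain ⟨F, hF, hmin⟩ := exists_good_min A hA
  have hne : F.NeBot := by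
    constructor
    intro hbot
    refine hF ∅ (fun b h => absurd h (Finset.notMem_empty _)) ?_
    rw [hbot]; trivial
  obtain ⟨U, hU⟩ := Ultrafilter.exists_le F
  have hunion : ∀ B : Set ℕ, B ∈ U ↔ ∃ a, B ∈ Fil A F U {b | b < a} := by
    intro B
    constructor
    · intro hB
      obtain ⟨S, hS, hsupp⟩ := exists_countable_supp hF hmin B
      obtain ⟨a, ha⟩ := hb S hS
      exact ⟨a, B, hB, hsupp.mono (fun s hs => ha s hs), Eventually.of_forall fun _ h => h⟩
    · rintro ⟨a, ha⟩
      exact Fil_sub hU ha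
  refine ⟨fun a => {B | Bᶜ ∈ Fil A F U {b | b < a}}, ?_, ?_, ?_⟩
  · intro a
    refine ⟨?_, ?_, ?_, ?_⟩
    · intro h
      have h1 : (Set.univ : Set ℕ)ᶜ ∈ U := Fil_sub hU h
      rw [compl_univ] at h1
      exact U.empty_notMem h1
    · change (∅ : Set ℕ)ᶜ ∈ Fil A F U {b | b < a}
      rw [compl_empty]
      exact ⟨Set.univ, univ_mem, Supp.univ, Eventually.of_forall fun _ h => h⟩
    · rintro B ⟨C, hC, hC1, hC2⟩ B' ⟨C', hC', hC1', hC2'⟩
      refine ⟨C ∩ C', inter_mem hC hC', hC1.inter hC1', ?_⟩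
      filter_upwards [hC2, hC2'] with n h1 h2 h3
      rw [compl_union]
      exact ⟨h1 h3.1, h2 h3.2⟩
    · rintro B ⟨C, hC, hC1, hC2⟩ B' hB'
      refine ⟨C, hC, hC1, ?_⟩
      filter_upwards [hC2] with n h1 h3 h4
      exact h1 h3 (hB' h4)
  · intro a b hab
    have h := Fil_strict hF hmin hU (S := {c | c < a}) (T := {c | c < b})
      (fun c hc => lt_trans hc hab) (b := a) hab (lt_irrefl a)
    refine ⟨fun B hB => h.1 hB, fun hsub => h.2 fun B hB => ?_⟩
    have : Bᶜ ∈ {B | Bᶜ ∈ Fil A F U {c | c < a}} := hsub (by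
      change Bᶜᶜ ∈ Fil A F U {c | c < b}
      rw [compl_compl]; exact hB)
    have h2 : Bᶜᶜ ∈ Fil A F U {c | c < a} := this
    rwa [compl_compl] at h2
  · intro B
    have e1 : (B ∈ ⋃ a, {B | Bᶜ ∈ Fil A F U {b | b < a}}) ↔ Bᶜ ∈ U := by
      rw [hunion, mem_iUnion]; rfl
    have e2 : (Bᶜ ∈ ⋃ a, {B | Bᶜ ∈ Fil A F U {b | b < a}}) ↔ B ∈ U := by
      rw [hunion, mem_iUnion]
      refine exists_congr fun a => ?_
      change Bᶜᶜ ∈ Fil A F U {b | b < a} ↔ _
      rw [compl_compl]
    rw [e1, e2]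
    exact Ultrafilter.compl_mem_iff_notMem

end final

end R605.ChainIdeal
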