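import Mathlib
import Pool.Agent.H579R3.Epi2

set_option autoImplicit false

open Set
open Pool.Agent.H579R3.Epi (K IsAuto)

namespace Pool.Agent.R605.EE

/-! ## The coding structures -/

/-- the universe: nodes of the tree and label points `(p, κ, t)`, `t` finite or infinity -/
inductive D : Type
  | nd (p : List ℤ) : D
  | lab (p : List ℤ) (κ : K) (t : Option ℕ) : D

export D (nd lab)

/-- a code for the elements of `D` -/
def D.code : D → List ℤ × Option (K × Option ℕ)
  | .nd p => (p, none)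
  | .lab p κ t => (p, some (κ, t))

lemma D.code_injective : Function.Injective D.code := by
  intro a b h
  cases a <;> cases b <;> simp_all [D.code]

instance : Countable D := D.code_injective.countable

/-- the relation symbols -/
inductive Sym : Type
  | root : Sym
  | child : Sym
  | E (κ : K) : Sym
  | U (m : ℕ) : Sym

/-- a code for the symbols -/
def Sym.code : Sym → Option (Option (K ⊕ ℕ))
  | .root => none
  | .child => some none
  | .E κ => some (some (Sum.inl κ))
  | .U m => some (some (Sum.inr m))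

lemma Sym.code_injective : Function.Injective Sym.code := by
  intro a b h
  cases a <;> cases b <;> simp_all [Sym.code]

instance : Countable Sym := Sym.code_injective.countable
instance : Nonempty Sym := ⟨Sym.root⟩

/-- the level of a symbol -/
def lev : Sym → ℕ
  | .root => 0
  | .child => 0
  | .E _ => 0
  | .U m => m

/-- the relations of the coding structure -/
def rel : Sym → D → D → Prop
  | .root, a, _ => a = nd []
  | .child, a, b => ∃ p k, a = nd p ∧ b = nd (k :: p)
  | .E κ, a, b => ∃ p t, a = nd p ∧ b = lab p κ t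
  | .U m, a, _ => ∃ p κ t, a = lab p κ t ∧ ∀ n : ℕ, t = some n → m ≤ n

/-- the universe of the structure of the labelled tree `Λ` -/
def S (Λ : List ℤ → Set K) : D → Prop
  | .nd _ => True
  | .lab _ _ (some _) => True
  | .lab p κ none => κ ∈ Λ p

/-- `π` is a bijection of `ℕ` with the universe of the structure of `Λ` -/
def Fib (Λ : List ℤ → Set K) (π : ℕ → D) : Prop :=
  Function.Injective π ∧ ∀ d, S Λ d ↔ ∃ n, π n = d

/-- the map of `D` induced by a map of the tree -/
def mapD (g : List ℤ → List ℤ) : D → D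
  | .nd p => nd (g p)
  | .lab p κ t => lab (g p) κ t

/-- tree maps, not necessarily surjective -/
def TLe' (Λ Λ' : List ℤ → Set K) : Prop :=
  ∃ g : List ℤ → List ℤ, g [] = [] ∧ (∀ k p, ∃ k', g (k :: p) = k' :: g p) ∧ ∀ p, Λ p ⊆ Λ' (g p)

lemma Fib.nd {Λ : List ℤ → Set K} {π : ℕ → D} (h : Fib Λ π) (p : List ℤ) :
    ∃ n, π n = nd p := (h.2 _).1 trivial

lemma Fib.lab_some {Λ : List ℤ → Set K} {π : ℕ → D} (h : Fib Λ π) (p : List ℤ) (κ : K) (m : ℕ) :
    ∃ n, π n = lab p κ (some m) := (h.2 _).1 trivial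

/-- a map preserving the relations is induced by a tree map -/
theorem lemmaA {π ρ : ℕ → D} (hπ : ∀ p, ∃ n, π n = nd p)
    (h : ∀ s a b, rel s (ρ a) (ρ b) ↔ rel s (π a) (π b)) :
    ∃ g : List ℤ → List ℤ, g [] = [] ∧ (∀ k p, ∃ k', g (k :: p) = k' :: g p) ∧
      ∀ n, ρ n = mapD g (π n) := by
  choose a ha using hπ
  have h1 : ∀ p, ∃ q, ρ (a p) = nd q := by
    intro p
    have h2 : rel .child (π (a p)) (π (a (0 :: p))) := ⟨p, 0, ha _, ha _⟩
    rw [← h] at h2
    obtain ⟨q, k, h3, _⟩ := h2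
    exact ⟨q, h3⟩
  choose g hg using h1
  have hcons : ∀ k p, ∃ k', g (k :: p) = k' :: g p := by
    intro k p
    have h2 : rel .child (π (a p)) (π (a (k :: p))) := ⟨p, k, ha _, ha _⟩
    rw [← h] at h2
    obtain ⟨q, k', h3, h4⟩ := h2
    rw [hg] at h3 h4
    refine ⟨k', ?_⟩
    rw [D.nd.inj h4, D.nd.inj h3]
  -- all nodes
  have hnd : ∀ n p, π n = nd p → ρ n = nd (g p) := by
    intro n p hn
    have h2 : rel .child (π (a p)) (π (a (0 :: p))) := ⟨p, 0, ha _, ha _⟩
    have h3 : rel .child (π n) (π (a (0 :: p))) := ⟨p, 0, hn, ha _⟩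
    rw [← h] at h2 h3
    obtain ⟨q, k', h4, h5⟩ := h2
    obtain ⟨q', k'', h6, h7⟩ := h3
    rw [hg] at h4
    cases h4
    rw [h5] at h7
    cases h7
    exact h6
  refine ⟨g, ?_, hcons, ?_⟩
  · have h2 : rel .root (π (a [])) (π (a [])) := ha _
    rw [← h] at h2
    have h3 : ρ (a []) = nd [] := h2
    rw [hg] at h3
    exact D.nd.inj h3
  · intro n
    rcases hn : π n with p | ⟨p, κ, t⟩
    · exact hnd n p hn
    · have h2 : rel (.E κ) (π (a p)) (π n) := ⟨p, t, ha _, hn⟩
      rw [← h] at h2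
      obtain ⟨q, t', h3, h4⟩ := h2
      rw [hg] at h3
      cases h3
      have h5 : ∀ m, (∀ k : ℕ, t' = some k → m ≤ k) ↔ (∀ k : ℕ, t = some k → m ≤ k) := by
        intro m
        have h6 := h (.U m) n n
        rw [hn, h4] at h6
        constructor
        · intro h7
          obtain ⟨p1, κ1, t1, h8, h9⟩ := h6.1 ⟨_, _, _, rfl, h7⟩
          cases h8
          exact h9
        · intro h7
          obtain ⟨p1, κ1, t1, h8, h9⟩ := h6.2 ⟨_, _, _, rfl, h7⟩
          cases h8
          exact h9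
      have h6 : t' = t := by
        rcases t' with _ | u' <;> rcases t with _ | u
        · rfl
        · have := (h5 (u + 1)).1 (fun k hk => by cases hk) u rfl
          omega
        · have := (h5 (u' + 1)).2 (fun k hk => by cases hk) u' rfl
          omega
        · have e1 := (h5 u').1 (fun k hk => by cases hk; exact le_rfl) u rfl
          have e2 := (h5 u).2 (fun k hk => by cases hk; exact le_rfl) u' rfl
          rw [le_antisymm e2 e1]
      rw [h4, h6]
      rfl

theorem lemmaA_TLe' {Λ Λ' : List ℤ → Set K} {π ρ : ℕ → D} (hπ : Fib Λ π)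
    (hρ : ∀ n, S Λ' (ρ n)) (h : ∀ s a b, rel s (ρ a) (ρ b) ↔ rel s (π a) (π b)) :
    TLe' Λ Λ' := by
  obtain ⟨g, h1, h2, h3⟩ := lemmaA hπ.nd h
  refine ⟨g, h1, h2, fun p κ hκ => ?_⟩
  obtain ⟨n, hn⟩ := (hπ.2 (lab p κ none)).1 hκ
  have := hρ n
  rw [h3, hn] at this
  exact this

/-- isomorphic structures come from isomorphic trees -/
theorem lemmaE {Λ Λ' : List ℤ → Set K} {π π' : ℕ → D} (hF : Fib Λ π) (hF' : Fib Λ' π')
    (h : ∀ s a b, rel s (π' a) (π' b) ↔ rel s (π a) (π b)) :
    ∃ g, IsAuto g ∧ (∀ n, π' n = mapD g (π n)) ∧ ∀ p, Λ p = Λ' (g p) := by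
  obtain ⟨g, g1, g2, g3⟩ := lemmaA hF.nd h
  obtain ⟨f, f1, f2, f3⟩ := lemmaA hF'.nd (fun s a b => (h s a b).symm)
  have hfg : ∀ p, f (g p) = p := by
    intro p
    obtain ⟨n, hn⟩ := hF.nd p
    have h1 := f3 n
    rw [g3, hn] at h1
    exact (D.nd.inj h1).symm
  have hgf : ∀ p, g (f p) = p := by
    intro p
    obtain ⟨n, hn⟩ := hF'.nd p
    have h1 := g3 n
    rw [f3, hn] at h1
    exact (D.nd.inj h1).symm
  refine ⟨g, ⟨⟨fun p q hpq => by rw [← hfg p, hpq, hfg], fun p => ⟨f p, hgf p⟩⟩, g1, g2⟩, g3, ?_⟩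
  intro p
  ext κ
  constructor
  · intro hκ
    obtain ⟨n, hn⟩ := (hF.2 (lab p κ none)).1 hκ
    have h1 := (hF'.2 (π' n)).2 ⟨n, rfl⟩
    rw [g3, hn] at h1
    exact h1
  · intro hκ
    obtain ⟨n, hn⟩ := (hF'.2 (lab (g p) κ none)).1 hκ
    have h1 := (hF.2 (π n)).2 ⟨n, rfl⟩
    rw [f3, hn] at h1
    change κ ∈ Λ (f (g p)) at h1
    rwa [hfg] at h1

/-! ## The back and forth -/

/-- shifting a point to infinity -/
def eps (M : ℕ) : Option ℕ → Option ℕ
  | none => none
  | some n => if n < M then some n else if n = M then none else some (n - 1)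

lemma eps_inj (M : ℕ) {n m : ℕ} (h : eps M (some n) = eps M (some m)) : n = m := by
  simp only [eps] at h
  split_ifs at h <;> simp at h <;> omega

lemma eps_surj (M : ℕ) (t : Option ℕ) : ∃ n, eps M (some n) = t := by
  rcases t with _ | k
  · exact ⟨M, by simp [eps]⟩
  · by_cases hk : k < M
    · exact ⟨k, by simp [eps, hk]⟩
    · refine ⟨k + 1, ?_⟩
      have h1 : ¬ (k + 1 < M) := by omega
      have h2 : ¬ (k + 1 = M) := by omega
      simp [eps, h1, h2]

lemma eps_le (M : ℕ) {m : ℕ} (hm : m ≤ M) (n : ℕ) :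
    (∀ k : ℕ, eps M (some n) = some k → m ≤ k) ↔ m ≤ n := by
  simp only [eps]
  split_ifs with h1 h2
  · constructor
    · intro h; exact h n rfl
    · intro h k hk; cases hk; exact h
  · constructor
    · intro _; omega
    · intro _ k hk; cases hk
  · constructor
    · intro h; have := h (n - 1) rfl; omega
    · intro h k hk
      cases hk
      omega

section BF

variable {Λ Λ' : List ℤ → Set K} (g : List ℤ → List ℤ)

open Classical in
/-- the isomorphism of the reducts -/
noncomputable def EEm (Λ Λ' : List ℤ → Set K) (g : List ℤ → List ℤ) (M : ℕ) : D → D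
  | .nd p => nd (g p)
  | .lab p κ t => lab (g p) κ (if κ ∈ Λ p ∨ κ ∉ Λ' (g p) then t else eps M t)

variable {g}

lemma EE_maps (hΛ : ∀ p, Λ p ⊆ Λ' (g p)) (M : ℕ) {d : D} (hd : S Λ d) :
    S Λ' (EEm Λ Λ' g M d) := by
  classical
  rcases d with p | ⟨p, κ, t⟩
  · trivial
  · simp only [EEm]
    split_ifs with h
    · rcases t with _ | n
      · exact hΛ p hd
      · trivial
    · push Not at h
      rcases eps M t with _ | n
      · exact h.2
      · trivial

lemma EE_inj (hg : IsAuto g) (M : ℕ) {d d' : D} (hd : S Λ d) (hd' : S Λ d')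
    (h : EEm Λ Λ' g M d = EEm Λ Λ' g M d') : d = d' := by
  classical
  rcases d with p | ⟨p, κ, t⟩ <;> rcases d' with p' | ⟨p', κ', t'⟩
  · simp only [EEm, D.nd.injEq] at h
    rw [hg.bij.1 h]
  · simp [EEm] at h
  · simp [EEm] at h
  · simp only [EEm, D.lab.injEq] at h
    obtain ⟨h1, h2, h3⟩ := h
    have h1' := hg.bij.1 h1
    subst h1' h2
    by_cases hc : κ ∈ Λ p ∨ κ ∉ Λ' (g p)
    · simp only [if_pos hc] at h3
      rw [h3]
    · simp only [if_neg hc] at h3
      push Not at hc
      rcases t with _ | n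
      · exact absurd hd hc.1
      · rcases t' with _ | n'
        · exact absurd hd' hc.1
        · rw [eps_inj M h3]

lemma EE_surj (hg : IsAuto g) (M : ℕ) {d' : D} (hd' : S Λ' d') :
    ∃ d, S Λ d ∧ EEm Λ Λ' g M d = d' := by
  classical
  rcases d' with q | ⟨q, κ, t⟩
  · obtain ⟨p, rfl⟩ := hg.bij.2 q
    exact ⟨nd p, trivial, rfl⟩
  · obtain ⟨p, rfl⟩ := hg.bij.2 q
    by_cases hc : κ ∈ Λ p ∨ κ ∉ Λ' (g p)
    · refine ⟨lab p κ t, ?_, by simp [EEm, hc]⟩
      rcases t with _ | n
      · rcases hc with hc | hc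
        · exact hc
        · exact absurd hd' hc
      · trivial
    · obtain ⟨n, hn⟩ := eps_surj M t
      exact ⟨lab p κ (some n), trivial, by simp only [EEm, if_neg hc, hn]⟩

lemma EE_rel (hg : IsAuto g) (M : ℕ) (s : Sym) (hs : lev s ≤ M) {a b : D} (ha : S Λ a) :
    rel s (EEm Λ Λ' g M a) (EEm Λ Λ' g M b) ↔ rel s a b := by
  classical
  rcases s with _ | _ | κ | m
  · simp only [rel]
    rcases a with p | ⟨p, κ, t⟩
    · simp only [EEm, D.nd.injEq]
      constructor
      · intro h
        apply hg.bij.1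
        rw [h, hg.nil]
      · rintro rfl
        exact hg.nil
    · simp [EEm]
  · simp only [rel]
    constructor
    · rintro ⟨p, k, h1, h2⟩
      rcases a with a | ⟨a, κ, t⟩
      · rcases b with b | ⟨b, κ, t⟩
        · simp only [EEm, D.nd.injEq] at h1 h2
          rcases b with _ | ⟨k', b⟩
          · rw [hg.nil] at h2
            exact absurd h2 (by simp)
          · obtain ⟨k'', h3⟩ := hg.cons k' b
            rw [h3, List.cons.injEq, ← h1] at h2
            have := hg.bij.1 h2.2
            exact ⟨a, k', rfl, by rw [this]⟩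
        · simp [EEm] at h2
      · simp [EEm] at h1
    · rintro ⟨p, k, rfl, rfl⟩
      obtain ⟨k', h3⟩ := hg.cons k p
      exact ⟨g p, k', rfl, by simp only [EEm, h3]⟩
  · simp only [rel]
    constructor
    · rintro ⟨p, t, h1, h2⟩
      rcases a with a | ⟨a, κ', t'⟩
      · rcases b with b | ⟨b, κ', t'⟩
        · simp [EEm] at h2
        · simp only [EEm, D.nd.injEq, D.lab.injEq] at h1 h2
          obtain ⟨h2, h3, _⟩ := h2
          have := hg.bij.1 (h1.trans h2.symm)
          exact ⟨a, t', rfl, by rw [this, h3]⟩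
      · simp [EEm] at h1
    · rintro ⟨p, t, rfl, rfl⟩
      exact ⟨g p, _, rfl, rfl⟩
  · simp only [rel]
    rcases a with a | ⟨p, κ, t⟩
    · simp [EEm]
    · have hL : (∃ p' κ' t', lab p κ t = lab p' κ' t' ∧ ∀ n : ℕ, t' = some n → m ≤ n) ↔
          ∀ n : ℕ, t = some n → m ≤ n := by
        constructor
        · rintro ⟨p', κ', t', h1, h2⟩
          cases h1
          exact h2
        · intro h
          exact ⟨p, κ, t, rfl, h⟩
      have hR : ∀ t1 : Option ℕ, (∃ p' κ' t', lab (g p) κ t1 = lab p' κ' t' ∧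
          ∀ n : ℕ, t' = some n → m ≤ n) ↔ ∀ n : ℕ, t1 = some n → m ≤ n := by
        intro t1
        constructor
        · rintro ⟨p', κ', t', h1, h2⟩
          cases h1
          exact h2
        · intro h
          exact ⟨g p, κ, t1, rfl, h⟩
      simp only [EEm]
      rw [hL, hR]
      split_ifs with hc
      · rfl
      · push Not at hc
        rcases t with _ | n
        · exact absurd ha hc.1
        · have hs' : m ≤ M := hs
          rw [eps_le M hs' n]
          constructor
          · intro h k hk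
            cases hk
            exact h
          · intro h
            exact h n rfl

/-- the value of a label point -/
def val : D → ℕ
  | .lab _ _ (some n) => n
  | _ => 0

lemma EE_eq_mapD (M : ℕ) {d : D} (hd : S Λ d) (h : val d < M) :
    EEm Λ Λ' g M d = mapD g d := by
  classical
  rcases d with p | ⟨p, κ, t⟩
  · rfl
  · simp only [EEm, mapD]
    split_ifs with hc
    · rfl
    · push Not at hc
      rcases t with _ | n
      · exact absurd hd hc.1
      · have hn : n < M := h
        simp [eps, hn]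

end BF

theorem exists_equiv {Λ Λ' : List ℤ → Set K} {π π' : ℕ → D} (hF : Fib Λ π) (hF' : Fib Λ' π')
    {g : List ℤ → List ℤ} (hg : IsAuto g) (hΛ : ∀ p, Λ p ⊆ Λ' (g p)) :
    ∃ j : ℕ → ℕ, ∀ (M0 : ℕ) (F : Finset ℕ), ∃ e : ℕ ≃ ℕ, (∀ n ∈ F, e n = j n) ∧
      ∀ s : Sym, lev s ≤ M0 → ∀ a b, rel s (π' (e a)) (π' (e b)) ↔ rel s (π a) (π b) := by
  classical
  have hS : ∀ n, S Λ (π n) := fun n => (hF.2 _).2 ⟨n, rfl⟩
  have hS' : ∀ n, S Λ' (π' n) := fun n => (hF'.2 _).2 ⟨n, rfl⟩
  have hmap : ∀ n, S Λ' (mapD g (π n)) := by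
    intro n
    have h1 := hS n
    rcases hn : π n with p | ⟨p, κ, _ | t⟩
    · trivial
    · rw [hn] at h1
      exact hΛ p h1
    · trivial
  have hj : ∀ n, ∃ m, π' m = mapD g (π n) := fun n => (hF'.2 _).1 (hmap n)
  choose j hj using hj
  refine ⟨j, fun M0 F => ?_⟩
  let M : ℕ := max M0 (F.sup (fun n => val (π n)) + 1)
  have hM : ∀ n ∈ F, val (π n) < M := by
    intro n hn
    have : val (π n) ≤ F.sup (fun n => val (π n)) := Finset.le_sup (f := fun n => val (π n)) hn
    have h2 : F.sup (fun n => val (π n)) + 1 ≤ M := le_max_right _ _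
    omega
  have he : ∀ n, ∃ m, π' m = EEm Λ Λ' g M (π n) := fun n => (hF'.2 _).1 (EE_maps hΛ M (hS n))
  choose e he using he
  have hinj : Function.Injective e := by
    intro a b hab
    have h1 : EEm Λ Λ' g M (π a) = EEm Λ Λ' g M (π b) := by rw [← he, ← he, hab]
    exact hF.1 (EE_inj hg M (hS a) (hS b) h1)
  have hsurj : Function.Surjective e := by
    intro m
    obtain ⟨d, hd, hd'⟩ := EE_surj hg M (hS' m) (Λ := Λ)
    obtain ⟨n, rfl⟩ := (hF.2 d).1 hd
    refine ⟨n, hF'.1 ?_⟩
    rw [he, hd']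
  refine ⟨Equiv.ofBijective e ⟨hinj, hsurj⟩, ?_, ?_⟩
  · intro n hn
    apply hF'.1
    change π' (e n) = π' (j n)
    rw [he, hj, EE_eq_mapD M (hS n) (hM n hn)]
  · intro s hs a b
    change rel s (π' (e a)) (π' (e b)) ↔ _
    rw [he, he]
    exact EE_rel hg M s (hs.trans (le_max_left _ _)) (hS a)

/-! ## First-order formulas -/

open FirstOrder FirstOrder.Language

theorem realize_bound (L : FirstOrder.Language) (hL : ∀ n, IsEmpty (L.Functions n))
    (lv : ∀ n, L.Relations n → ℕ) {M N : Type} [L.Structure M] [L.Structure N] {α : Type}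
    {n : ℕ} (φ : L.BoundedFormula α n) :
    ∃ M0 : ℕ, ∀ e : M ≃ N, (∀ k (R : L.Relations k), lv k R ≤ M0 → ∀ xs : Fin k → M,
        (Structure.RelMap R (e ∘ xs) ↔ Structure.RelMap R xs)) →
      ∀ (v : α → M) (xs : Fin n → M), φ.Realize (e ∘ v) (e ∘ xs) ↔ φ.Realize v xs := by
  have hterm : ∀ (e : M ≃ N) {n : ℕ} (t : L.Term (α ⊕ Fin n)) (v : α → M) (xs : Fin n → M),
      t.realize (Sum.elim (e ∘ v) (e ∘ xs)) = e (t.realize (Sum.elim v xs)) := by
    intro e n t v xs
    rcases t with a | ⟨f, _⟩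
    · rcases a with a | a <;> rfl
    · exact (hL _).elim f
  induction φ with
  | falsum => exact ⟨0, fun e _ v xs => Iff.rfl⟩
  | equal t₁ t₂ =>
    refine ⟨0, fun e _ v xs => ?_⟩
    change Term.realize _ t₁ = Term.realize _ t₂ ↔ Term.realize _ t₁ = Term.realize _ t₂
    rw [hterm, hterm]
    exact e.injective.eq_iff
  | rel R ts =>
    refine ⟨lv _ R, fun e he v xs => ?_⟩
    change Structure.RelMap R (fun i => (ts i).realize _) ↔
      Structure.RelMap R (fun i => (ts i).realize _)
    rw [← he _ R le_rfl]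
    have : (fun i => (ts i).realize (Sum.elim (e ∘ v) (e ∘ xs))) =
        e ∘ (fun i => (ts i).realize (Sum.elim v xs)) := by
      funext i
      exact hterm e _ v xs
    rw [this]
  | imp φ ψ ihφ ihψ =>
    obtain ⟨m1, h1⟩ := ihφ
    obtain ⟨m2, h2⟩ := ihψ
    refine ⟨max m1 m2, fun e he v xs => ?_⟩
    rw [BoundedFormula.realize_imp, BoundedFormula.realize_imp,
      h1 e (fun k R hR => he k R (hR.trans (le_max_left _ _))),
      h2 e (fun k R hR => he k R (hR.trans (le_max_right _ _)))]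
  | all φ ih =>
    obtain ⟨m1, h1⟩ := ih
    refine ⟨m1, fun e he v xs => ?_⟩
    rw [BoundedFormula.realize_all, BoundedFormula.realize_all]
    constructor
    · intro h a
      have h2 := h (e a)
      rw [← Fin.comp_snoc] at h2
      rwa [h1 e he] at h2
    · intro h b
      have h2 := h (e.symm b)
      rw [← h1 e he, Fin.comp_snoc, e.apply_symm_apply] at h2
      exact h2

end Pool.Agent.R605.EE
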