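import Mathlib
import Pool.Agent.H579R3.Epi2
import Pool.Agent.R605.EE1

set_option autoImplicit false

open Set MeasureTheory
open Pool.Agent.H579R3.Epi (K IsAuto N Ent ent cd evalAt last Good Enc Valid Lam Lam_inr br br_length
  br_lam rigid tree_map measurableSet_lam)

namespace Pool.Agent.R605.EE

section

variable {α β : N → N}

theorem rel_of_tree {x y : N} (hα : Continuous α) (hβ : Continuous β)
    (htrans : ∀ u v t w w', α w = u → β w = v → α w' = v → β w' = t →
      ∃ w'', α w'' = u ∧ β w'' = t)
    (h : TLe' (Lam α β x) (Lam α β y)) : x = y ∨ ∃ w, α w = x ∧ β w = y := by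
  obtain ⟨g, hgnil, hgcons, hL⟩ := h
  let q : ℕ → List ℤ := fun n => g (br x n)
  have hex : ∀ n, ∃ k, q (n + 1) = k :: q n := fun n => hgcons _ _
  choose k hk using hex
  have hl : ∀ n, (q n).length = n := by
    intro n
    induction n with
    | zero =>
      change (g []).length = 0
      rw [hgnil]
      rfl
    | succ n ih => rw [hk, List.length_cons, ih]
  have hmem : ∀ n, Valid α β y (q (n + 1)) ∧ x n = (ent (k n)).1 := by
    intro n
    have h1 := hL _ (br_lam (α := α) (β := β) x n)
    change _ ∈ Lam α β y (q (n + 1)) at h1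
    rw [hk, Lam_inr] at h1
    rw [hk]
    exact h1
  -- the limit chain
  set m := (ent (k 0)).2.length with hm
  let L : List (N × N) := List.ofFn fun j : Fin m =>
    ((fun i => ((ent (k i)).2.getD j (0, 0)).1), (fun i => ((ent (k i)).2.getD j (0, 0)).2))
  have hlen : ∀ n, (ent (k n)).2.length = m := by
    intro n
    obtain ⟨⟨a, l, -, h2, -⟩, -⟩ := hmem n
    have h3 := Pool.Agent.H579R3.Epi.Enc.get hk hl h2 n (by omega)
    have h4 := Pool.Agent.H579R3.Epi.Enc.get hk hl h2 0 (by omega)
    rw [hm, h3, h4]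
    simp [evalAt]
  have hev : ∀ n, evalAt x L n = ent (k n) := by
    intro n
    have h1 : (L.map fun q => (q.1 n, q.2 n)) = (ent (k n)).2 := by
      apply List.ext_getElem
      · simp [L, hlen]
      · intro j h2 h3
        simp [L, List.getElem?_eq_getElem h3]
    rw [evalAt, h1, (hmem n).2]
  have hgood : ∀ n, Good α β n x L ∧ ∀ i < n, last x L i = y i := by
    intro n
    rcases n with _ | n
    · obtain ⟨⟨a, l, h1, h2, -⟩, -⟩ := hmem 0
      refine ⟨?_, fun i hi => by omega⟩
      have h3 := Pool.Agent.H579R3.Epi.Enc.get hk hl h2 0 (by omega)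
      have h4 := hev 0
      rw [h3] at h4
      have h5 : l.length = L.length := by
        have := congrArg (fun e => e.2.length) h4
        simp only [evalAt, List.length_map] at this
        exact this.symm
      exact (h1.mono (Nat.zero_le _)).congr h5 (fun i hi => by omega)
    · obtain ⟨⟨a, l, h1, h2, h2'⟩, -⟩ := hmem n
      have h3 := Pool.Agent.H579R3.Epi.Enc.get hk hl h2
      rw [hl] at h1 h2'
      have h5 : l.length = L.length := by
        have h4 := hev 0
        rw [h3 0 (by omega)] at h4
        have := congrArg (fun e => e.2.length) h4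
        simp only [evalAt, List.length_map] at this
        exact this.symm
      have h6 : ∀ i < n + 1, evalAt a l i = evalAt x L i := by
        intro i hi
        rw [hev, h3 i hi]
      refine ⟨h1.congr h5 h6, fun i hi => ?_⟩
      rw [← Pool.Agent.H579R3.Epi.last_congr (h6 i hi)]
      exact h2' i hi
  have hlast : last x L = y := by
    funext i
    exact (hgood (i + 1)).2 i (by omega)
  -- closedness
  have hclosed : ∀ (a b w : N), (∀ n, ∃ w' : N, ∀ i < n, α w' i = a i ∧ β w' i = b i ∧ w' i = w i) →
      α w = a ∧ β w = b := by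
    intro a b w h1
    choose w' hw' using h1
    have hlim : Filter.Tendsto w' Filter.atTop (nhds w) := by
      rw [tendsto_pi_nhds]
      intro i
      apply tendsto_const_nhds.congr'
      filter_upwards [Filter.eventually_gt_atTop i] with n hn
      exact ((hw' n i hn).2.2).symm
    constructor
    · funext i
      have h2 := (tendsto_pi_nhds.1 ((hα.tendsto w).comp hlim)) i
      have h3 : Filter.Tendsto (fun n => (α ∘ w') n i) Filter.atTop (nhds (a i)) := by
        apply tendsto_const_nhds.congr'
        filter_upwards [Filter.eventually_gt_atTop i] with n hn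
        exact ((hw' n i hn).1).symm
      exact tendsto_nhds_unique h2 h3
    · funext i
      have h2 := (tendsto_pi_nhds.1 ((hβ.tendsto w).comp hlim)) i
      have h3 : Filter.Tendsto (fun n => (β ∘ w') n i) Filter.atTop (nhds (b i)) := by
        apply tendsto_const_nhds.congr'
        filter_upwards [Filter.eventually_gt_atTop i] with n hn
        exact ((hw' n i hn).2.1).symm
      exact tendsto_nhds_unique h2 h3
  have hreach : ∀ l : List (N × N), (∀ n, Good α β n x l) →
      x = last x l ∨ ∃ w, α w = x ∧ β w = last x l := by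
    intro l
    induction l with
    | nil => intro _; exact Or.inl rfl
    | cons q l ih =>
      intro h1
      have h2 := ih fun n => (h1 n).2
      obtain ⟨h3, h4⟩ := hclosed (last x l) q.2 q.1 fun n => (h1 n).1
      rcases h2 with h2 | ⟨w, h5, h6⟩
      · exact Or.inr ⟨q.1, by rw [h3, ← h2], h4⟩
      · obtain ⟨w'', h7, h8⟩ := htrans _ _ _ _ _ h5 h6 h3 h4
        exact Or.inr ⟨w'', h7, h8⟩
  have := hreach L fun n => (hgood n).1
  rwa [hlast] at this

end

/-! ## Measurability -/

instance : MeasurableSpace D := ⊤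
instance : DiscreteMeasurableSpace D := ⟨fun _ => trivial⟩

/-- the space of codes -/
abbrev Str : Type := ∀ _ : ℕ, (Fin 2 → ℕ) → Bool

open Classical in
/-- the structure on `ℕ` pulled back from `D` -/
noncomputable def pull (idx : ℕ → Sym) (π : ℕ → D) : Str :=
  fun i v => decide (rel (idx i) (π (v 0)) (π (v 1)))

lemma pull_iff (idx : ℕ → Sym) (π : ℕ → D) (i : ℕ) (v : Fin 2 → ℕ) :
    pull idx π i v = true ↔ rel (idx i) (π (v 0)) (π (v 1)) := by
  classical
  simp only [pull, decide_eq_true_eq]

lemma rel_of_pull {idx : ℕ → Sym} (hidx : Function.Surjective idx) {π π' : ℕ → D}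
    (h : pull idx π = pull idx π') (s : Sym) (a b : ℕ) :
    rel s (π' a) (π' b) ↔ rel s (π a) (π b) := by
  obtain ⟨i, rfl⟩ := hidx s
  have h1 := pull_iff idx π i ![a, b]
  have h2 := pull_iff idx π' i ![a, b]
  rw [h, h2] at h1
  exact h1

lemma measurable_pull (idx : ℕ → Sym) : Measurable (pull idx) := by
  classical
  refine measurable_pi_lambda _ fun i => measurable_pi_lambda _ fun v => ?_
  have h1 : Measurable (fun π : ℕ → D => (π (v 0), π (v 1))) :=
    (measurable_pi_apply _).prodMk (measurable_pi_apply _)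
  exact (Measurable.of_discrete (f := fun r : D × D => decide (rel (idx i) r.1 r.2))).comp h1

section

variable {X : Type} [MeasurableSpace X] (Λ : X → List ℤ → Set K)

lemma measurableSet_S (hΛ : ∀ p κ, MeasurableSet {x : X | κ ∈ Λ x p}) (d : D) :
    MeasurableSet {x : X | S (Λ x) d} := by
  rcases d with p | ⟨p, κ, _ | t⟩
  · exact MeasurableSet.const _
  · exact hΛ p κ
  · exact MeasurableSet.const _

lemma measurableSet_fib (hΛ : ∀ p κ, MeasurableSet {x : X | κ ∈ Λ x p}) :
    MeasurableSet {q : (ℕ → D) × X | Fib (Λ q.2) q.1} := by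
  have hn : ∀ (n : ℕ) (d : D), MeasurableSet {q : (ℕ → D) × X | q.1 n = d} := by
    intro n d
    have h1 : Measurable (fun q : (ℕ → D) × X => q.1 n) := (measurable_pi_apply n).comp measurable_fst
    exact h1 (MeasurableSet.of_discrete (s := {d}))
  have hnm : ∀ (n m : ℕ), MeasurableSet {q : (ℕ → D) × X | q.1 n = q.1 m} := by
    intro n m
    have h1 : Measurable (fun q : (ℕ → D) × X => (q.1 n, q.1 m)) :=
      ((measurable_pi_apply n).comp measurable_fst).prodMk
        ((measurable_pi_apply m).comp measurable_fst)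
    exact h1 (MeasurableSet.of_discrete (s := {r : D × D | r.1 = r.2}))
  have hS : ∀ d, MeasurableSet {q : (ℕ → D) × X | S (Λ q.2) d} := fun d =>
    measurable_snd (measurableSet_S Λ hΛ d)
  have : {q : (ℕ → D) × X | Fib (Λ q.2) q.1} =
      (⋂ n : ℕ, ⋂ m : ℕ, ({q : (ℕ → D) × X | q.1 n = q.1 m}ᶜ ∪ {_q | n = m})) ∩
      ⋂ d : D, (({q : (ℕ → D) × X | S (Λ q.2) d} ∩ ⋃ n : ℕ, {q : (ℕ → D) × X | q.1 n = d}) ∪
        ({q : (ℕ → D) × X | S (Λ q.2) d}ᶜ ∩ (⋃ n : ℕ, {q : (ℕ → D) × X | q.1 n = d})ᶜ)) := by
    ext q
    simp only [mem_inter_iff, mem_iInter, mem_union, mem_compl_iff, mem_iUnion, mem_ofPred_eq]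
    unfold Fib
    constructor
    · rintro ⟨h1, h2⟩
      refine ⟨fun n m => ?_, fun d => ?_⟩
      · by_cases h3 : q.1 n = q.1 m
        · exact Or.inr (h1 h3)
        · exact Or.inl h3
      · by_cases h3 : S (Λ q.2) d
        · exact Or.inl ⟨h3, (h2 d).1 h3⟩
        · exact Or.inr ⟨h3, fun h4 => h3 ((h2 d).2 h4)⟩
    · rintro ⟨h1, h2⟩
      refine ⟨fun n m hnm' => ?_, fun d => ?_⟩
      · rcases h1 n m with h3 | h3
        · exact absurd hnm' h3
        · exact h3
      · rcases h2 d with ⟨h3, h4⟩ | ⟨h3, h4⟩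
        · exact ⟨fun _ => h4, fun _ => h3⟩
        · exact ⟨fun h => absurd h h3, fun h => absurd h h4⟩
  rw [this]
  refine MeasurableSet.inter ?_ ?_
  · exact MeasurableSet.iInter fun n => MeasurableSet.iInter fun m =>
      (hnm n m).compl.union (MeasurableSet.const _)
  · exact MeasurableSet.iInter fun d =>
      ((hS d).inter (MeasurableSet.iUnion fun n => hn n d)).union
        ((hS d).compl.inter (MeasurableSet.iUnion fun n => hn n d).compl)

/-- the index set of the universe -/
abbrev Ix : Type := List ℤ ⊕ (List ℤ × K × ℕ)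

/-- the shift of `ℕ` onto `ℕ` with a point at infinity -/
def sh : ℕ → Option ℕ
  | 0 => none
  | n + 1 => some n

lemma sh_inj : Function.Injective sh := by
  intro a b h
  rcases a with _ | a <;> rcases b with _ | b <;> simp_all [sh]

open Classical in
/-- the element of index `i` -/
noncomputable def elt (L : List ℤ → Set K) : Ix → D
  | Sum.inl p => nd p
  | Sum.inr (p, κ, n) => if κ ∈ L p then lab p κ (sh n) else lab p κ (some n)

lemma elt_inj (L : List ℤ → Set K) : Function.Injective (elt L) := by
  classical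
  intro i j h
  rcases i with p | ⟨p, κ, n⟩ <;> rcases j with q | ⟨q, κ', m⟩
  · simp only [elt, D.nd.injEq] at h
    rw [h]
  · simp only [elt] at h
    split_ifs at h
  · simp only [elt] at h
    split_ifs at h
  · have h1 : p = q ∧ κ = κ' := by
      simp only [elt] at h
      split_ifs at h <;> simp_all
    obtain ⟨rfl, rfl⟩ := h1
    simp only [elt] at h
    split_ifs at h with h2
    · rw [sh_inj (D.lab.inj h).2.2]
    · rw [Option.some.inj (D.lab.inj h).2.2]

lemma elt_range (L : List ℤ → Set K) (d : D) : S L d ↔ ∃ i, elt L i = d := by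
  classical
  constructor
  · intro h
    rcases d with p | ⟨p, κ, _ | n⟩
    · exact ⟨Sum.inl p, rfl⟩
    · refine ⟨Sum.inr (p, κ, 0), ?_⟩
      have h' : κ ∈ L p := h
      simp [elt, h', sh]
    · by_cases h' : κ ∈ L p
      · exact ⟨Sum.inr (p, κ, n + 1), by simp [elt, h', sh]⟩
      · exact ⟨Sum.inr (p, κ, n), by simp [elt, h']⟩
  · rintro ⟨i, rfl⟩
    rcases i with p | ⟨p, κ, n⟩
    · trivial
    · simp only [elt]
      split_ifs with h
      · rcases n with _ | n
        · exact h
        · trivial
      · trivial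

/-- a bijection of `ℕ` with the universe -/
noncomputable def rho (e : ℕ ≃ Ix) (L : List ℤ → Set K) (n : ℕ) : D := elt L (e n)

lemma fib_rho (e : ℕ ≃ Ix) (L : List ℤ → Set K) : Fib L (rho e L) := by
  refine ⟨fun a b h => e.injective (elt_inj L h), fun d => ?_⟩
  rw [elt_range]
  constructor
  · rintro ⟨i, hi⟩
    exact ⟨e.symm i, by simp [rho, hi]⟩
  · rintro ⟨n, hn⟩
    exact ⟨e n, hn⟩

lemma measurable_rho (hΛ : ∀ p κ, MeasurableSet {x : X | κ ∈ Λ x p}) (e : ℕ ≃ Ix) :
    Measurable (fun x : X => rho e (Λ x)) := by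
  classical
  refine measurable_pi_lambda _ fun n => ?_
  rcases h : e n with p | ⟨p, κ, m⟩
  · have : (fun x : X => rho e (Λ x) n) = fun _ => nd p := by
      funext x
      simp [rho, h, elt]
    rw [this]
    exact measurable_const
  · have : (fun x : X => rho e (Λ x) n) = fun x => if κ ∈ Λ x p then
        lab p κ (sh m) else lab p κ (some m) := by
      funext x
      simp only [rho, h, elt]
    rw [this]
    exact Measurable.ite (hΛ p κ) measurable_const measurable_const

end

lemma Fib.perm {L : List ℤ → Set K} {π : ℕ → D} (h : Fib L π) (σ : Equiv.Perm ℕ) :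
    Fib L (π ∘ σ) := by
  refine ⟨h.1.comp σ.injective, fun d => ?_⟩
  rw [h.2 d]
  constructor
  · rintro ⟨n, hn⟩
    exact ⟨σ.symm n, by simpa using hn⟩
  · rintro ⟨n, hn⟩
    exact ⟨σ n, hn⟩

end Pool.Agent.R605.EE
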