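import Mathlib
import Pool.Agent.R605.EE2

set_option autoImplicit false

open Set MeasureTheory
open Pool.Agent.H579R3.Epi (K IsAuto N TLe Lam rigid tree_map measurableSet_lam)

namespace Pool.Agent.R605.EE

open FirstOrder FirstOrder.Language

/-- the language -/
abbrev Lg : FirstOrder.Language :=
  FirstOrder.Language.mk (fun _ => PEmpty.{1}) (fun n => {i : ℕ // (fun _ : ℕ => 2) i = n})

/-- the structure coded by `u` -/
abbrev str (u : Str) : Lg.Structure ℕ :=
  @FirstOrder.Language.Structure.mk Lg ℕ (fun f _ => PEmpty.elim f)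
    (fun r xs => u (Subtype.val r) (xs ∘ Fin.cast (Subtype.property r)) = true)

theorem elem_to_tree {idx : ℕ → Sym} (hidx : Function.Surjective idx)
    {Λ Λ' : List ℤ → Set K} {π π' : ℕ → D} (hF : Fib Λ π) (hF' : Fib Λ' π')
    (h : Nonempty (@ElementaryEmbedding Lg ℕ ℕ (str (pull idx π)) (str (pull idx π')))) :
    TLe' Λ Λ' := by
  obtain ⟨φ⟩ := h
  let j : ℕ → ℕ := fun n => @ElementaryEmbedding.toFun Lg ℕ ℕ (str (pull idx π))
    (str (pull idx π')) φ n
  refine lemmaA_TLe' (ρ := fun n => π' (j n)) hF (fun n => (hF'.2 _).2 ⟨_, rfl⟩) ?_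
  intro s a b
  obtain ⟨i, rfl⟩ := hidx s
  have h1 := @ElementaryEmbedding.map_rel Lg ℕ ℕ (str (pull idx π)) (str (pull idx π')) φ 2
    ⟨i, rfl⟩ ![a, b]
  have h2 : (pull idx π' i ![j a, j b] = true) ↔ (pull idx π i ![a, b] = true) := by
    have e1 : (![j a, j b] : Fin 2 → ℕ) = j ∘ ![a, b] := by
      funext k
      fin_cases k <;> rfl
    rw [e1]
    exact h1
  rw [pull_iff, pull_iff] at h2
  exact h2

theorem tree_to_elem {idx : ℕ → Sym}
    {Λ Λ' : List ℤ → Set K} {π π' : ℕ → D} (hF : Fib Λ π) (hF' : Fib Λ' π')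
    (h : TLe Λ Λ') :
    Nonempty (@ElementaryEmbedding Lg ℕ ℕ (str (pull idx π)) (str (pull idx π'))) := by
  obtain ⟨g, hg, hΛ⟩ := h
  obtain ⟨j, hj⟩ := exists_equiv hF hF' hg hΛ
  refine ⟨@ElementaryEmbedding.mk Lg ℕ ℕ (str (pull idx π)) (str (pull idx π')) j ?_⟩
  intro n φ x
  obtain ⟨M0, hM0⟩ := @realize_bound Lg (fun _ => inferInstanceAs (IsEmpty PEmpty))
    (fun k R => lev (idx R.1)) ℕ ℕ (str (pull idx π)) (str (pull idx π')) (Fin n) 0 φ
  obtain ⟨e, he1, he2⟩ := hj M0 (Finset.univ.image x)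
  have hc : ∀ (k : ℕ) (R : Lg.Relations k), lev (idx R.1) ≤ M0 → ∀ xs : Fin k → ℕ,
      (@Structure.RelMap Lg ℕ (str (pull idx π')) k R (e ∘ xs) ↔
        @Structure.RelMap Lg ℕ (str (pull idx π)) k R xs) := by
    rintro k ⟨i, hi⟩ hR xs
    have hi' : 2 = k := hi
    subst hi'
    change (pull idx π' i ((e ∘ xs) ∘ Fin.cast rfl) = true) ↔
      (pull idx π i (xs ∘ Fin.cast rfl) = true)
    rw [pull_iff, pull_iff]
    exact he2 _ hR _ _
  have e1 : e ∘ x = j ∘ x := by
    funext k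
    exact he1 _ (Finset.mem_image_of_mem _ (Finset.mem_univ k))
  have gen : ∀ ys zs : Fin 0 → ℕ,
      (@BoundedFormula.Realize Lg ℕ (str (pull idx π')) (Fin n) 0 φ (j ∘ x) ys ↔
        @BoundedFormula.Realize Lg ℕ (str (pull idx π)) (Fin n) 0 φ x zs) := by
    intro ys zs
    have h1 := hM0 e hc x zs
    rw [e1, Subsingleton.elim (e ∘ zs) ys] at h1
    exact h1
  exact gen _ _

theorem main_nonempty (X : Type) [Nonempty X] [TopologicalSpace X] [PolishSpace X]
    [MeasurableSpace X] [BorelSpace X] (R : X → X → Prop) (hrefl : ∀ x, R x x)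
    (htrans : ∀ x y z, R x y → R y z → R x z)
    (hR : AnalyticSet {p : X × X | R p.1 p.2}) :
    ∃ B : Set Str, MeasurableSet B ∧
      (∀ (σ : Equiv.Perm ℕ) (u : Str), u ∈ B ↔ (fun i v => u i (σ ∘ v)) ∈ B) ∧
      (∃ f : X → Str, Measurable f ∧ (∀ x, f x ∈ B) ∧
        ∀ x y, R x y ↔ Nonempty (@ElementaryEmbedding Lg ℕ ℕ (str (f x)) (str (f y)))) ∧
      (∃ g : B → X, Measurable g ∧
        ∀ u v : B, Nonempty (@ElementaryEmbedding Lg ℕ ℕ (str u.1) (str v.1)) ↔
          R (g u) (g v)) := by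
  classical
  obtain ⟨x₀⟩ := ‹Nonempty X›
  -- a Borel embedding of `X` into Baire space
  obtain ⟨c₀, hc₀m, hc₀i⟩ :=
    MeasurableSpace.measurable_injection_nat_bool_of_countablySeparated X
  let c : X → N := fun x n => (c₀ x n).toNat
  have hcm : Measurable c := by
    refine measurable_pi_lambda _ fun n => ?_
    exact (Measurable.of_discrete (f := Bool.toNat)).comp ((measurable_pi_apply n).comp hc₀m)
  have hci : Function.Injective c := by
    intro x y hxy
    apply hc₀i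
    funext n
    have h := congrFun hxy n
    simp only [c] at h
    cases h1 : c₀ x n <;> cases h2 : c₀ y n <;> simp_all
  -- the relation as a continuous image
  rw [AnalyticSet] at hR
  obtain ⟨ψ, hψ, hψr⟩ : ∃ ψ : (ℕ → ℕ) → X × X, Continuous ψ ∧ range ψ = {p : X × X | R p.1 p.2} := by
    rcases hR with hR | hR
    · have : (x₀, x₀) ∈ {p : X × X | R p.1 p.2} := hrefl x₀
      rw [hR] at this
      exact absurd this (notMem_empty _)
    · exact hR
  have hS : AnalyticSet (range fun w : ℕ → ℕ => (c (ψ w).1, c (ψ w).2)) := by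
    have h1 : Measurable (fun w : ℕ → ℕ => (c (ψ w).1, c (ψ w).2)) :=
      (hcm.comp (measurable_fst.comp hψ.measurable)).prodMk
        (hcm.comp (measurable_snd.comp hψ.measurable))
    have h2 := (MeasurableSet.univ (α := ℕ → ℕ)).analyticSet_image h1
    rwa [image_univ] at h2
  rw [AnalyticSet] at hS
  obtain ⟨θ, hθ, hθr⟩ : ∃ θ : N → N × N, Continuous θ ∧
      range θ = range fun w : ℕ → ℕ => (c (ψ w).1, c (ψ w).2) := by
    rcases hS with hS | hS
    · have : (c (ψ 0).1, c (ψ 0).2) ∈ (∅ : Set (N × N)) := by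
        rw [← hS]
        exact ⟨0, rfl⟩
      exact absurd this (notMem_empty _)
    · exact hS
  let α : N → N := fun w => (θ w).1
  let β : N → N := fun w => (θ w).2
  have hα : Continuous α := continuous_fst.comp hθ
  have hβ : Continuous β := continuous_snd.comp hθ
  have h1 : ∀ w, ∃ x y, R x y ∧ α w = c x ∧ β w = c y := by
    intro w
    have : θ w ∈ range fun w : ℕ → ℕ => (c (ψ w).1, c (ψ w).2) := by
      rw [← hθr]
      exact ⟨w, rfl⟩
    obtain ⟨w', hw'⟩ := this
    refine ⟨(ψ w').1, (ψ w').2, ?_, ?_, ?_⟩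
    · have : ψ w' ∈ {p : X × X | R p.1 p.2} := by
        rw [← hψr]
        exact ⟨w', rfl⟩
      exact this
    · exact (congrArg Prod.fst hw').symm
    · exact (congrArg Prod.snd hw').symm
  have h2 : ∀ x y, R x y → ∃ w, α w = c x ∧ β w = c y := by
    intro x y hxy
    have hxy' : (x, y) ∈ {p : X × X | R p.1 p.2} := hxy
    rw [← hψr] at hxy'
    obtain ⟨w', hw'⟩ := hxy'
    have : (c x, c y) ∈ range θ := by
      rw [hθr]
      exact ⟨w', by simp only [hw']⟩
    obtain ⟨w, hw⟩ := this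
    exact ⟨w, congrArg Prod.fst hw, congrArg Prod.snd hw⟩
  have htr : ∀ u v t w w', α w = u → β w = v → α w' = v → β w' = t →
      ∃ w'', α w'' = u ∧ β w'' = t := by
    intro u v t w w' e1 e2 e3 e4
    obtain ⟨x, y, hxy, e5, e6⟩ := h1 w
    obtain ⟨y', z, hyz, e7, e8⟩ := h1 w'
    have : y = y' := hci (by rw [← e6, ← e7, e2, e3])
    subst this
    obtain ⟨w'', e9, e10⟩ := h2 x z (htrans x y z hxy hyz)
    exact ⟨w'', by rw [e9, ← e5, e1], by rw [e10, ← e8, e4]⟩
  let Λ : X → List ℤ → Set K := fun x => Lam α β (c x)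
  have key1 : ∀ x y, R x y → TLe (Λ x) (Λ y) := by
    intro x y h
    obtain ⟨w, e1, e2⟩ := h2 x y h
    exact tree_map e1 e2
  have key2 : ∀ x y, TLe' (Λ x) (Λ y) → R x y := by
    intro x y h
    rcases rel_of_tree hα hβ htr h with h3 | ⟨w, e1, e2⟩
    · rw [hci h3]
      exact hrefl _
    · obtain ⟨x', y', hxy, e3, e4⟩ := h1 w
      have e5 : x = x' := hci (by rw [← e1, e3])
      have e6 : y = y' := hci (by rw [← e2, e4])
      rw [e5, e6]
      exact hxy
  have hΛ : ∀ p κ, MeasurableSet {x : X | κ ∈ Λ x p} := fun p κ =>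
    hcm (measurableSet_lam (α := α) (β := β) p κ)
  obtain ⟨idx, hidx⟩ := exists_surjective_nat Sym
  have keyF : ∀ {x y : X} {π π' : ℕ → D}, Fib (Λ x) π → Fib (Λ y) π' →
      (R x y ↔ Nonempty (@ElementaryEmbedding Lg ℕ ℕ (str (pull idx π)) (str (pull idx π')))) := by
    intro x y π π' hF hF'
    constructor
    · intro h
      exact tree_to_elem hF hF' (key1 x y h)
    · intro h
      exact key2 x y (elem_to_tree hidx hF hF' h)
  -- the class of structures
  let A : Set ((ℕ → D) × X) := {q | Fib (Λ q.2) q.1}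
  have hA : MeasurableSet A := measurableSet_fib Λ hΛ
  let Φ : (ℕ → D) × X → Str := fun q => pull idx q.1
  have hΦ : Measurable Φ := (measurable_pull idx).comp measurable_fst
  have hinj : InjOn Φ A := by
    rintro ⟨π, x⟩ hq ⟨π', x'⟩ hq' h
    obtain ⟨g, hg, hgπ, hgΛ⟩ := lemmaE (show Fib (Λ x) π from hq) (show Fib (Λ x') π' from hq')
      (rel_of_pull hidx h)
    obtain ⟨hid, hxx⟩ := rigid hg hgΛ
    have : ∀ d, mapD g d = d := by
      intro d
      rcases d with p | ⟨p, κ, t⟩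
      · simp only [mapD, hid]
      · simp only [mapD, hid]
    refine Prod.ext ?_ (hci hxx)
    funext n
    change π n = π' n
    rw [hgπ, this]
  have hAs : StandardBorelSpace A := hA.standardBorel
  let Ψ : A → Str := fun q => Φ q.1
  have hΨ : MeasurableEmbedding Ψ := by
    apply Measurable.measurableEmbedding (hΦ.comp measurable_subtype_coe)
    intro q q' h
    exact Subtype.ext (hinj q.2 q'.2 h)
  obtain ⟨G, hG, hGΨ⟩ := hΨ.exists_measurable_extend
    (g := fun q : A => q.1.2) (measurable_snd.comp measurable_subtype_coe) (fun _ => ⟨x₀⟩)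
  have hGpull : ∀ π x, Fib (Λ x) π → G (pull idx π) = x := by
    intro π x h
    exact congrFun hGΨ ⟨(π, x), h⟩
  obtain ⟨e⟩ : Nonempty (ℕ ≃ Ix) := by
    haveI := Classical.choice (nonempty_denumerable Ix)
    exact ⟨(Denumerable.eqv Ix).symm⟩
  have hperm : ∀ (σ : Equiv.Perm ℕ) (u : Str), u ∈ Φ '' A → (fun i v => u i (σ ∘ v)) ∈ Φ '' A := by
    rintro σ _ ⟨⟨π, x⟩, hq, rfl⟩
    exact ⟨(π ∘ σ, x), Fib.perm (show Fib (Λ x) π from hq) σ, rfl⟩
  refine ⟨Φ '' A, hA.image_of_measurable_injOn hΦ hinj, ?_, ?_, ?_⟩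
  · intro σ u
    refine ⟨hperm σ u, fun h => ?_⟩
    have h3 := hperm σ.symm _ h
    have h4 : (fun (i : ℕ) (v : Fin 2 → ℕ) => u i (σ ∘ (σ.symm ∘ v))) = u := by
      funext i v
      congr 1
      funext k
      simp
    rwa [h4] at h3
  · refine ⟨fun x => pull idx (rho e (Λ x)), (measurable_pull idx).comp (measurable_rho Λ hΛ e),
      ?_, ?_⟩
    · intro x
      exact ⟨(rho e (Λ x), x), fib_rho e _, rfl⟩
    · intro x y
      exact keyF (fib_rho e (Λ x)) (fib_rho e (Λ y))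
  · refine ⟨fun u => G u.1, hG.comp measurable_subtype_coe, ?_⟩
    rintro ⟨_, ⟨⟨π, x⟩, hq, rfl⟩⟩ ⟨_, ⟨⟨π', y⟩, hq', rfl⟩⟩
    change Nonempty (@ElementaryEmbedding Lg ℕ ℕ (str (pull idx π)) (str (pull idx π'))) ↔
      R (G (pull idx π)) (G (pull idx π'))
    rw [hGpull π x hq, hGpull π' y hq']
    exact (keyF (show Fib (Λ x) π from hq) (show Fib (Λ y) π' from hq')).symm

end Pool.Agent.R605.EE
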