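import Mathlib

set_option linter.style.haveILetI false
set_option linter.unusedSectionVars false

open Set Topology Filter TopologicalSpace

namespace Pool.Agent.R605.GroupJump

/-- The `G`-jump of a relation `E` on `X`: the relation on `G → X` given by
`∃ g, ∀ h, E (α (g⁻¹ h)) (β h)`. -/
def Jump (G : Type*) [Group G] {X : Type*} (E : X → X → Prop) (α β : G → X) : Prop :=
  ∃ g : G, ∀ h : G, E (α (g⁻¹ * h)) (β h)

/-- Borel reducibility between relations on topological spaces. -/
def BorelReducible {X Y : Type*} [TopologicalSpace X] [TopologicalSpace Y]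
    (E : X → X → Prop) (F : Y → Y → Prop) : Prop :=
  ∃ f : X → Y, @Measurable X Y (borel X) (borel Y) f ∧ ∀ x x', E x x' ↔ F (f x) (f x')

/-- Borel bi-reducibility. -/
def BorelBireducible {X Y : Type*} [TopologicalSpace X] [TopologicalSpace Y]
    (E : X → X → Prop) (F : Y → Y → Prop) : Prop :=
  BorelReducible E F ∧ BorelReducible F E

section Cont

variable {W Z : Type*} [TopologicalSpace W] [TopologicalSpace Z]

theorem exists_continuity [SecondCountableTopology Z] (Φ : W → Z)
    (hΦ : @Measurable W Z (borel W) (borel Z) Φ) :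
    ∃ S : Set (Set W), S.Countable ∧ (∀ U ∈ S, IsOpen U ∧ Dense U) ∧
      ContinuousOn Φ (⋂₀ S) := by
  classical
  letI : MeasurableSpace W := borel W
  haveI : BorelSpace W := ⟨rfl⟩
  letI : MeasurableSpace Z := borel Z
  haveI : BorelSpace Z := ⟨rfl⟩
  have key : ∀ V ∈ countableBasis Z, ∃ u : Set W, IsOpen u ∧ (Φ ⁻¹' V) =ᶠ[residual W] u := by
    intro V hV
    have : MeasurableSet (Φ ⁻¹' V) := hΦ (isOpen_of_mem_countableBasis hV).measurableSet
    exact this.residualEq_isOpen
  choose! u huo hu using key
  have hres : {x | ∀ V ∈ countableBasis Z, (x ∈ Φ ⁻¹' V ↔ x ∈ u V)} ∈ residual W := by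
    have : ∀ᶠ x in residual W, ∀ V ∈ countableBasis Z, (x ∈ Φ ⁻¹' V ↔ x ∈ u V) := by
      rw [eventually_countable_ball (countable_countableBasis Z)]
      intro V hV
      exact (hu V hV).mem_iff
    exact this
  rw [mem_residual_iff] at hres
  obtain ⟨S, hSo, hSd, hSc, hS⟩ := hres
  refine ⟨S, hSc, fun U hU => ⟨hSo U hU, hSd U hU⟩, ?_⟩
  intro x hx
  have hx' := hS hx
  rw [ContinuousWithinAt, (isBasis_countableBasis Z).nhds_hasBasis.tendsto_right_iff]
  rintro V ⟨hV, hxV⟩
  have hxu : x ∈ u V := (hx' V hV).1 hxV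
  have : u V ∈ 𝓝 x := (huo V hV).mem_nhds hxu
  filter_upwards [mem_nhdsWithin_of_mem_nhds this, self_mem_nhdsWithin] with y hy hyS
  exact (hS hyS V hV).2 hy

end Cont

section Main

variable {G H : Type*} [Group G] [Group H]

/-- coordinatewise shift. -/
def act (g : H → G) (x : H → G → Bool) : H → G → Bool := fun h u => x h ((g h)⁻¹ * u)

omit [Group H] in
theorem act_mul (g k : H → G) (x : H → G → Bool) : act (g * k) x = act g (act k x) := by
  funext h u
  simp [act, mul_assoc]

omit [Group H] in
theorem act_one (x : H → G → Bool) : act (1 : H → G) x = x := by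
  funext h u
  simp [act]

open Classical in
/-- use `a` on `S`, and `b` off `S`. -/
noncomputable def mix (S : Finset H) (a b : H → G → Bool) : H → G → Bool :=
  fun h => if h ∈ S then a h else b h

omit [Group H] in
theorem continuous_act (g : H → G) : Continuous (act g) := by
  unfold act
  fun_prop

/-- `act` as a homeomorphism. -/
def actHomeo (g : H → G) : (H → G → Bool) ≃ₜ (H → G → Bool) where
  toFun := act g
  invFun := act g⁻¹
  left_inv x := by rw [← act_mul, inv_mul_cancel, act_one]
  right_inv x := by rw [← act_mul, mul_inv_cancel, act_one]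
  continuous_toFun := continuous_act g
  continuous_invFun := continuous_act g⁻¹

omit [Group G] [Group H] in
theorem continuous_mix (S : Finset H) :
    Continuous (fun p : (H → G → Bool) × (H → G → Bool) => mix S p.1 p.2) := by
  classical
  refine continuous_pi fun h => ?_
  by_cases hh : h ∈ S
  · simp only [mix, if_pos hh]; fun_prop
  · simp only [mix, if_neg hh]; fun_prop

omit [Group G] [Group H] in
theorem isOpenMap_mix (S : Finset H) :
    IsOpenMap (fun p : (H → G → Bool) × (H → G → Bool) => mix S p.1 p.2) := by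
  classical
  refine IsOpenMap.of_sections ?_
  rintro ⟨x, z⟩
  refine ⟨fun y => (mix S y x, mix S z y), ?_, ?_, ?_⟩
  · have h1 : Continuous fun y : H → G → Bool => mix S y x :=
      (continuous_mix S).comp (continuous_id.prodMk continuous_const)
    have h2 : Continuous fun y : H → G → Bool => mix S z y :=
      (continuous_mix S).comp (continuous_const.prodMk continuous_id)
    exact (h1.prodMk h2).continuousAt
  · ext h u <;> by_cases hh : h ∈ S <;> simp [mix, hh]
  · intro y
    ext h u; by_cases hh : h ∈ S <;> simp [mix, hh]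

/-- The generalized transitivity. -/
theorem dense_transl [Infinite G] (V : Set (G → Bool)) (hV : IsOpen V) (hne : V.Nonempty) :
    Dense {w : G → Bool | ∃ k : G, (fun u => w (k⁻¹ * u)) ∈ V} := by
  classical
  rw [dense_iff_inter_open]
  rintro O hO ⟨w, hw⟩
  obtain ⟨v, hv⟩ := hne
  rw [isOpen_pi_iff] at hO hV
  obtain ⟨I, o, ho, hoO⟩ := hO w hw
  obtain ⟨J, o', ho', hoV⟩ := hV v hv
  obtain ⟨k, hk⟩ := Infinite.exists_notMem_finset (Finset.image₂ (fun j i => j * i⁻¹) J I)
  let w' : G → Bool := fun u => if u ∈ I then w u else v (k * u)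
  refine ⟨w', hoO ?_, k, hoV ?_⟩
  · intro i hi
    have hi' : i ∈ I := hi
    simp only [w', if_pos hi']
    exact (ho i hi').2
  · intro j hj
    have hj' : j ∈ J := hj
    have : k⁻¹ * j ∉ I := by
      intro hI
      apply hk
      rw [Finset.mem_image₂]
      exact ⟨j, hj', k⁻¹ * j, hI, by simp⟩
    simp only [w', if_neg this, mul_inv_cancel_left]
    exact (ho' j hj').2

omit [Group G] in
theorem dense_ne [Infinite G] (w : G → Bool) : Dense {v : G → Bool | v ≠ w} := by
  classical
  rw [dense_iff_inter_open]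
  rintro O hO ⟨v, hv⟩
  by_cases hvw : v = w
  · rw [isOpen_pi_iff] at hO
    obtain ⟨I, o, ho, hoO⟩ := hO v hv
    obtain ⟨k, hk⟩ := Infinite.exists_notMem_finset I
    refine ⟨Function.update v k (!(v k)), hoO ?_, ?_⟩
    · intro i hi
      have : i ≠ k := by rintro rfl; exact hk hi
      rw [Function.update_of_ne this]
      exact (ho i hi).2
    · intro h
      have := congrFun h k
      rw [Function.update_self, hvw] at this
      cases hb : w k <;> simp [hb] at this
  · exact ⟨v, hv, hvw⟩

/-- A generic pair. -/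
theorem exists_generic [Countable G] [Countable H] [Infinite G]
    (T : Set (Set (H → G → Bool))) (hTc : T.Countable) (hT : ∀ U ∈ T, IsOpen U ∧ Dense U)
    (Γ : Set (H → G)) (hΓ : Γ.Countable) :
    ∃ x z : H → G → Bool,
      (∀ γ ∈ Γ, ∀ U ∈ T, act γ x ∈ U) ∧
      (∀ S : Finset H, ∀ γ ∈ Γ, ∀ U ∈ T, mix S (act γ x) z ∈ U) ∧
      (∀ h h' : H, ∀ k : G, z h ≠ fun u => x h' (k⁻¹ * u)) ∧
      (∀ h : H, ∀ V : Set (G → Bool), IsOpen V → V.Nonempty →
        ∃ k : G, (fun u => x h (k⁻¹ * u)) ∈ V) := by
  classical
  have h1 : ∀ᶠ p in residual ((H → G → Bool) × (H → G → Bool)),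
      ∀ γ ∈ Γ, ∀ U ∈ T, act γ p.1 ∈ U := by
    rw [eventually_countable_ball hΓ]
    intro γ _
    rw [eventually_countable_ball hTc]
    intro U hU
    have hopen : IsOpenMap (fun p : (H → G → Bool) × (H → G → Bool) => act γ p.1) :=
      (actHomeo γ).isOpenMap.comp isOpenMap_fst
    exact residual_of_dense_open ((hT U hU).1.preimage ((continuous_act γ).comp continuous_fst))
      ((hT U hU).2.preimage hopen)
  have h2 : ∀ᶠ p in residual ((H → G → Bool) × (H → G → Bool)),
      ∀ S : Finset H, ∀ γ ∈ Γ, ∀ U ∈ T, mix S (act γ p.1) p.2 ∈ U := by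
    rw [eventually_countable_forall]
    intro S
    rw [eventually_countable_ball hΓ]
    intro γ _
    rw [eventually_countable_ball hTc]
    intro U hU
    have hopen : IsOpenMap (fun p : (H → G → Bool) × (H → G → Bool) => mix S (act γ p.1) p.2) :=
      (isOpenMap_mix S).comp ((actHomeo γ).isOpenMap.prodMap IsOpenMap.id)
    have hcont : Continuous (fun p : (H → G → Bool) × (H → G → Bool) => mix S (act γ p.1) p.2) :=
      (continuous_mix S).comp (((continuous_act γ).comp continuous_fst).prodMk continuous_snd)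
    exact residual_of_dense_open ((hT U hU).1.preimage hcont) ((hT U hU).2.preimage hopen)
  have h3 : ∀ᶠ p in residual ((H → G → Bool) × (H → G → Bool)),
      ∀ h h' : H, ∀ k : G, p.2 h ≠ fun u => p.1 h' (k⁻¹ * u) := by
    rw [eventually_countable_forall]
    intro h
    rw [eventually_countable_forall]
    intro h'
    rw [eventually_countable_forall]
    intro k
    refine residual_of_dense_open ?_ ?_
    · refine isOpen_ne_fun ?_ ?_
      · fun_prop
      · fun_prop
    · rw [dense_iff_inter_open]
      rintro O hO ⟨⟨x, z⟩, hxz⟩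
      have hO' : IsOpen {z' : H → G → Bool | (x, z') ∈ O} :=
        hO.preimage (continuous_const.prodMk continuous_id)
      have hd : Dense {z' : H → G → Bool | z' h ≠ fun u => x h' (k⁻¹ * u)} :=
        (dense_ne (fun u => x h' (k⁻¹ * u))).preimage (isOpenMap_eval h)
      obtain ⟨z', hz'O, hz'⟩ := hd.inter_open_nonempty _ hO' ⟨z, hxz⟩
      exact ⟨(x, z'), hz'O, hz'⟩
  have h4 : ∀ᶠ p in residual ((H → G → Bool) × (H → G → Bool)),
      ∀ h : H, ∀ V ∈ countableBasis (G → Bool), ∃ k : G, (fun u => p.1 h (k⁻¹ * u)) ∈ V := by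
    rw [eventually_countable_forall]
    intro h
    rw [eventually_countable_ball (countable_countableBasis _)]
    intro V hV
    have hVo : IsOpen V := isOpen_of_mem_countableBasis hV
    refine residual_of_dense_open ?_ ?_
    · have : {p : (H → G → Bool) × (H → G → Bool) | ∃ k : G, (fun u => p.1 h (k⁻¹ * u)) ∈ V} =
          ⋃ k : G, {p : (H → G → Bool) × (H → G → Bool) | (fun u => p.1 h (k⁻¹ * u)) ∈ V} := by
        ext p; simp
      rw [this]
      refine isOpen_iUnion fun k => hVo.preimage ?_
      fun_prop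
    · have hmap : IsOpenMap (fun p : (H → G → Bool) × (H → G → Bool) => p.1 h) :=
        (isOpenMap_eval h).comp isOpenMap_fst
      exact (dense_transl V hVo (nonempty_of_mem_countableBasis hV)).preimage hmap
  have hall := ((h1.and h2).and (h3.and h4))
  obtain ⟨⟨x, z⟩, ⟨ha, hb⟩, hc, hd⟩ := (dense_of_mem_residual hall).nonempty
  refine ⟨x, z, ha, hb, hc, ?_⟩
  intro h V hV hne
  obtain ⟨v, hv⟩ := hne
  obtain ⟨B, hB, hvB, hBV⟩ :=
    (isBasis_countableBasis (G → Bool)).exists_subset_of_mem_open hv hV
  obtain ⟨k, hk⟩ := hd h B hB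
  exact ⟨k, hBV hk⟩

open Classical in
/-- cut down to finite support. -/
noncomputable def cut (S : Finset H) (g : H → G) : H → G := fun h => if h ∈ S then g h else 1

/-- The finitely supported elements. -/
def finSupp (G H : Type*) [Group G] : Set (H → G) := {γ | ∃ S : Finset H, ∀ h, h ∉ S → γ h = 1}

omit [Group H] in
theorem countable_finSupp [Countable G] [Countable H] : (finSupp G H).Countable := by
  classical
  have : finSupp G H ⊆ ⋃ S : Finset H, range (fun f : S → G => fun h : H =>
      if hh : h ∈ S then f ⟨h, hh⟩ else 1) := by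
    rintro γ ⟨S, hS⟩
    refine mem_iUnion.2 ⟨S, fun h => γ h, ?_⟩
    funext h
    by_cases hh : h ∈ S
    · simp [hh]
    · simp [hh, hS h hh]
  exact (countable_iUnion fun S => countable_range _).mono this

/-- **Main lemma.** The relation `(Δ(2)^[G])^[H]` is not Borel reducible to a relation with
countable classes. -/
theorem main_lemma [Countable G] [Countable H] [Infinite G] [Infinite H]
    {Z : Type*} [TopologicalSpace Z] [SecondCountableTopology Z] [T1Space Z]
    (F : Z → Z → Prop) (hF : ∀ z, {z' | F z z'}.Countable)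
    (Φ : (H → G → Bool) → Z) (hΦ : @Measurable _ _ (borel _) (borel Z) Φ)
    (hred : ∀ x y : H → G → Bool,
      Jump H (Jump G (fun a b : Bool => a = b)) x y ↔ F (Φ x) (Φ y)) : False := by
  classical
  obtain ⟨T, hTc, hT, hcont⟩ := exists_continuity Φ hΦ
  obtain ⟨x, z, ha, hb, hc, hd⟩ := exists_generic T hTc hT (finSupp G H) countable_finSupp
  letI : TopologicalSpace G := ⊥
  haveI : DiscreteTopology G := ⟨rfl⟩
  have hactx : Continuous (fun g : H → G => act g x) := by
    refine continuous_pi fun h => continuous_pi fun u => ?_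
    have : (fun g : H → G => act g x h u) = (fun k : G => x h (k⁻¹ * u)) ∘ (fun g : H → G => g h) :=
      rfl
    rw [this]
    exact continuous_of_discreteTopology.comp (continuous_apply h)
  -- everything in the orbit is equivalent
  have hequiv : ∀ g : H → G, F (Φ x) (Φ (act g x)) := by
    intro g
    rw [← hred]
    refine ⟨1, fun h => ⟨g h, fun u => ?_⟩⟩
    simp [act]
  -- the cover
  let C : Set Z := {c | F (Φ x) c}
  have hCc : C.Countable := hF (Φ x)
  haveI : Countable C := hCc.to_subtype
  haveI : Countable T := hTc.to_subtype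
  let cov : (C ⊕ T) → Set (H → G) := Sum.elim
    (fun c : C => closure {g : H → G | act g x ∈ ⋂₀ T ∧ Φ (act g x) = (c : Z)})
    (fun U : T => {g : H → G | act g x ∉ (U : Set (H → G → Bool))})
  have hclosed : ∀ i, IsClosed (cov i) := by
    rintro (c | U)
    · exact isClosed_closure
    · have : IsOpen {g : H → G | act g x ∈ (U : Set _)} := (hT U U.2).1.preimage hactx
      exact this.isClosed_compl
  have hcover : ⋃ i, cov i = univ := by
    rw [eq_univ_iff_forall]
    intro g
    by_cases hg : act g x ∈ ⋂₀ T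
    · refine mem_iUnion.2 ⟨Sum.inl ⟨Φ (act g x), hequiv g⟩, ?_⟩
      exact subset_closure ⟨hg, rfl⟩
    · rw [mem_sInter] at hg
      push Not at hg
      obtain ⟨U, hU, hgU⟩ := hg
      exact mem_iUnion.2 ⟨Sum.inr ⟨U, hU⟩, hgU⟩
  obtain ⟨i, hi⟩ := nonempty_interior_of_iUnion_of_closed hclosed hcover
  obtain ⟨g0, hg0⟩ := hi
  have hint : IsOpen (interior (cov i)) := isOpen_interior
  rw [isOpen_pi_iff] at hint
  obtain ⟨S, o, ho, hoS⟩ := hint g0 hg0
  have hbasic : ∀ g : H → G, (∀ h ∈ S, g h = g0 h) → g ∈ cov i := by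
    intro g hg
    apply interior_subset
    apply hoS
    intro h hh
    rw [hg h hh]
    exact (ho h hh).2
  -- case split
  rcases i with c | U
  · -- main case
    obtain ⟨c, hcC⟩ := c
    have hΓ : ∀ γ ∈ finSupp G H, (∀ h ∈ S, γ h = g0 h) → Φ (act γ x) = c := by
      intro γ hγ hγS
      have hmem : γ ∈ closure {g : H → G | act g x ∈ ⋂₀ T ∧ Φ (act g x) = c} :=
        hbasic γ hγS
      have hγT : act γ x ∈ ⋂₀ T := fun U hU => ha γ hγ U hU
      -- Φ (act γ x) ∈ closure {c}
      have hcw : ContinuousWithinAt (fun g : H → G => Φ (act g x))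
          {g : H → G | act g x ∈ ⋂₀ T ∧ Φ (act g x) = c} γ := by
        have h1 : ContinuousWithinAt Φ (⋂₀ T) (act γ x) := hcont _ hγT
        exact ContinuousWithinAt.comp (f := fun g : H → G => act g x) (g := Φ) (t := ⋂₀ T)
          h1 hactx.continuousWithinAt (fun g hg => hg.1)
      have := hcw.mem_closure hmem (t := {c}) (fun g hg => hg.2)
      simpa using this
    let γ0 : H → G := cut S g0
    have hγ0 : γ0 ∈ finSupp G H := ⟨S, fun h hh => by simp [γ0, cut, hh]⟩
    have hγ0S : ∀ h ∈ S, γ0 h = g0 h := fun h hh => by simp [γ0, cut, hh]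
    let y : H → G → Bool := mix S (act γ0 x) z
    have hyT : y ∈ ⋂₀ T := fun U hU => hb S γ0 hγ0 U hU
    let P : Set (H → G → Bool) :=
      {w | ∃ γ ∈ finSupp G H, (∀ h ∈ S, γ h = g0 h) ∧ w = act γ x}
    have hycl : y ∈ closure P := by
      rw [mem_closure_iff]
      intro O hO hyO
      rw [isOpen_pi_iff] at hO
      obtain ⟨I, o', ho', hoO⟩ := hO y hyO
      have hch : ∀ h : H, ∃ k : G, h ∈ I → h ∉ S → (fun u => x h (k⁻¹ * u)) ∈ o' h := by
        intro h
        by_cases hI : h ∈ I
        · obtain ⟨k, hk⟩ := hd h (o' h) (ho' h hI).1 ⟨_, (ho' h hI).2⟩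
          exact ⟨k, fun _ _ => hk⟩
        · exact ⟨1, fun h => absurd h hI⟩
      choose k hk using hch
      let γ : H → G := fun h => if h ∈ S then g0 h else if h ∈ I then k h else 1
      have hγ : γ ∈ finSupp G H := by
        refine ⟨S ∪ I, fun h hh => ?_⟩
        rw [Finset.mem_union, not_or] at hh
        simp [γ, hh.1, hh.2]
      have hγS : ∀ h ∈ S, γ h = g0 h := fun h hh => by simp [γ, hh]
      refine ⟨act γ x, hoO ?_, γ, hγ, hγS, rfl⟩
      intro h hI
      have hI' : h ∈ I := hI
      by_cases hS : h ∈ S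
      · have h1 := (ho' h hI').2
        have h2 : y h = act γ x h := by
          funext u
          simp [y, mix, hS, act, hγS h hS, hγ0S h hS]
        rw [← h2]; exact h1
      · have h1 := hk h hI' hS
        have h2 : act γ x h = fun u => x h ((k h)⁻¹ * u) := by
          funext u
          simp [act, γ, hS, hI']
        rw [h2]; exact h1
    have hPT : P ⊆ ⋂₀ T := by
      rintro w ⟨γ, hγ, _, rfl⟩ U hU
      exact ha γ hγ U hU
    have hΦy : Φ y = c := by
      have hcw : ContinuousWithinAt Φ P y := (hcont y hyT).mono hPT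
      have := hcw.mem_closure hycl (t := {c}) (by
        rintro w ⟨γ, hγ, hγS, rfl⟩
        exact hΓ γ hγ hγS)
      simpa using this
    have hrel : Jump H (Jump G (fun a b : Bool => a = b)) x y := by
      rw [hred, hΦy]
      exact hcC
    obtain ⟨a, ha'⟩ := hrel
    obtain ⟨h, hh⟩ := Infinite.exists_notMem_finset S
    obtain ⟨k, hk⟩ := ha' h
    apply hc h (a⁻¹ * h) k
    funext u
    have := hk u
    simp only [y, mix, if_neg hh] at this
    exact this.symm
  · -- trivial case
    have h1 : cut S g0 ∈ finSupp G H := ⟨S, fun h hh => by simp [cut, hh]⟩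
    have h2 : cut S g0 ∈ cov (Sum.inr U) := hbasic _ (fun h hh => by simp [cut, hh])
    exact h2 (ha _ h1 U U.2)

end Main

/-- A relation is smooth if it is Borel reducible to equality on the Cantor space. -/
def Smooth {X : Type*} [TopologicalSpace X] (E : X → X → Prop) : Prop :=
  BorelReducible E (fun a b : ℕ → Bool => a = b)

theorem no_reduction (G H K : Type*) [Group G] [Countable G] [Infinite G]
    [Group H] [Countable H] [Infinite H] [Group K] [Countable K]
    {X : Type*} [TopologicalSpace X] [SecondCountableTopology X]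
    (E : X → X → Prop) (hE : Smooth E) (h2 : ∃ a b, ¬ E a b) :
    ¬ BorelReducible (Jump H (Jump G E)) (Jump K E) := by
  rintro ⟨R, hR, hred⟩
  obtain ⟨f, hf, hfE⟩ := hE
  obtain ⟨a0, b0, hab⟩ := h2
  let c : Bool → X := fun b => if b then a0 else b0
  have hc : ∀ b b' : Bool, E (c b) (c b') ↔ b = b' := by
    have haa : E a0 a0 := (hfE _ _).2 rfl
    have hbb : E b0 b0 := (hfE _ _).2 rfl
    have hba : ¬ E b0 a0 := fun h => hab ((hfE _ _).2 ((hfE _ _).1 h).symm)
    intro b b'
    cases b <;> cases b' <;> simp [c, haa, hbb, hab, hba]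
  let cc : (H → G → Bool) → (H → G → X) := fun x h g => c (x h g)
  have hcc : Continuous cc := by
    refine continuous_pi fun h => continuous_pi fun g => ?_
    exact (continuous_of_discreteTopology (f := c)).comp
      ((continuous_apply g).comp (continuous_apply h))
  let ff : (K → X) → (K → ℕ → Bool) := fun y k => f (y k)
  letI : MeasurableSpace X := borel X
  haveI : BorelSpace X := ⟨rfl⟩
  have hff : @Measurable _ _ (borel (K → X)) (borel (K → ℕ → Bool)) ff := by
    have h1 : Measurable ff := by
      refine measurable_pi_lambda _ fun k => ?_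
      have h0 : @Measurable X (ℕ → Bool) (borel X) _ f := by
        have : (borel (ℕ → Bool)) = (inferInstance : MeasurableSpace (ℕ → Bool)) :=
          (BorelSpace.measurable_eq (α := ℕ → Bool)).symm
        rw [this] at hf
        exact hf
      exact h0.comp (measurable_pi_apply k)
    have e1 : (borel (K → X)) = (inferInstance : MeasurableSpace (K → X)) :=
      (BorelSpace.measurable_eq (α := K → X)).symm
    have e2 : (borel (K → ℕ → Bool)) = (inferInstance : MeasurableSpace (K → ℕ → Bool)) :=
      (BorelSpace.measurable_eq (α := K → ℕ → Bool)).symm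
    rw [e1, e2]
    exact h1
  have hccm : @Measurable _ _ (borel _) (borel _) cc := by
    letI : MeasurableSpace (H → G → Bool) := borel _
    haveI : BorelSpace (H → G → Bool) := ⟨rfl⟩
    letI : MeasurableSpace (H → G → X) := borel _
    haveI : BorelSpace (H → G → X) := ⟨rfl⟩
    exact hcc.measurable
  refine main_lemma (G := G) (H := H) (Jump K (fun a b : ℕ → Bool => a = b)) ?_
    (fun x => ff (R (cc x))) ?_ ?_
  · intro z
    refine (countable_range (fun g : K => fun h : K => z (g⁻¹ * h))).mono ?_
    rintro z' ⟨g, hg⟩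
    exact ⟨g, funext hg⟩
  · exact @Measurable.comp _ _ _ (borel _) (borel _) (borel _) _ _ hff
      (@Measurable.comp _ _ _ (borel _) (borel _) (borel _) _ _ hR hccm)
  · intro x y
    have h1 : Jump H (Jump G (fun a b : Bool => a = b)) x y ↔
        Jump H (Jump G E) (cc x) (cc y) := by
      simp only [Jump, cc, hc]
    have h3 : Jump K E (R (cc x)) (R (cc y)) ↔
        Jump K (fun a b : ℕ → Bool => a = b) (ff (R (cc x))) (ff (R (cc y))) := by
      simp only [Jump, ff, hfE]
    rw [h1, hred, h3]

end Pool.Agent.R605.GroupJump
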