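import Mathlib

/-!
Hankel determinants of the polynomials `H_d(n,x)`: unitriangular factorisation `M = L N Lᵀ`
(paper proof by helper137).
-/

open Finset

namespace R605.HankelHd

variable {R : Type*} [CommRing R]

/-- The `H`-binomial transform. -/
def S (H : ℕ → R) (f : ℕ → R) (i : ℕ) : R := ∑ a ∈ range (i + 1), (i.choose a : R) * H (i - a) * f a

lemma S_one (H : ℕ → R) (f : ℕ → R) (i : ℕ) :
    S H (fun a => (a : R) * f (a - 1)) i = (i : R) * S H f (i - 1) := by
  cases i with
  | zero => simp [S]
  | succ n =>
    unfold S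
    rw [sum_range_succ']
    simp only [Nat.cast_zero, zero_mul, mul_zero, add_zero, Nat.add_sub_cancel]
    rw [mul_sum]
    refine sum_congr rfl fun a _ => ?_
    have h : ((n + 1).choose (a + 1) : R) * ((a : R) + 1) = ((n : R) + 1) * (n.choose a : R) := by
      have := congrArg (fun t : ℕ => (t : R)) (Nat.add_one_mul_choose_eq n a)
      push_cast at this
      exact this.symm
    rw [Nat.add_sub_add_right]
    push_cast
    calc ((n + 1).choose (a + 1) : R) * H (n - a) * (((a : R) + 1) * f a)
        = (((n + 1).choose (a + 1) : R) * ((a : R) + 1)) * H (n - a) * f a := by ring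
      _ = _ := by rw [h]; ring

lemma S_desc (H : ℕ → R) (k : ℕ) : ∀ (f : ℕ → R) (i : ℕ),
    S H (fun a => (a.descFactorial k : R) * f (a - k)) i = (i.descFactorial k : R) * S H f (i - k) := by
  induction k with
  | zero => intro f i; simp
  | succ k ih =>
    intro f i
    have h1 : (fun a : ℕ => (a.descFactorial (k + 1) : R) * f (a - (k + 1)))
        = fun a : ℕ => (a : R) * (fun c : ℕ => (c.descFactorial k : R) * f (c - k)) (a - 1) := by
      funext a
      cases a with
      | zero => simp
      | succ n =>
        simp only [Nat.succ_descFactorial_succ, Nat.add_sub_add_right, Nat.add_sub_cancel]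
        push_cast
        ring
    rw [h1, S_one H (fun c : ℕ => (c.descFactorial k : R) * f (c - k)) i, ih]
    cases i with
    | zero => simp
    | succ n =>
      simp only [Nat.succ_descFactorial_succ, Nat.add_sub_add_right, Nat.add_sub_cancel]
      push_cast
      ring

lemma choose_desc (m : ℕ) : ∀ (j b : ℕ),
    j.choose b * (j - b).descFactorial m = j.descFactorial m * (j - m).choose b := by
  induction m with
  | zero => intro j b; simp
  | succ m ih =>
    intro j b
    cases j with
    | zero => simp
    | succ n =>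
      rcases Nat.lt_or_ge n b with hb | hb
      · have h1 : n + 1 - b = 0 := by omega
        have h2 : (n + 1 - (m + 1)).choose b = 0 := Nat.choose_eq_zero_of_lt (by omega)
        rw [h1, h2]
        simp
      · have h1 : n + 1 - b = (n - b) + 1 := by omega
        have h2 : n + 1 - (m + 1) = n - m := by omega
        have h3 : n.choose b * (n + 1) = (n + 1).choose b * (n + 1 - b) := Nat.choose_mul_succ_eq n b
        rw [h1] at h3
        rw [h1, h2, Nat.succ_descFactorial_succ, Nat.succ_descFactorial_succ]
        calc (n + 1).choose b * ((n - b + 1) * (n - b).descFactorial m)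
            = ((n + 1).choose b * (n - b + 1)) * (n - b).descFactorial m := by ring
          _ = (n + 1) * (n.choose b * (n - b).descFactorial m) := by rw [← h3]; ring
          _ = _ := by rw [ih]; ring

lemma S_succ (H : ℕ → R) (x : R) (m : ℕ)
    (hH : ∀ n, H (n + 1) = x * H n + (n.descFactorial m : R) * H (n - m)) (f : ℕ → R) (j : ℕ) :
    S H f (j + 1) = S H (fun b => f (b + 1)) j + x * S H f j + (j.descFactorial m : R) * S H f (j - m) := by
  unfold S
  have e1 : ∑ a ∈ range (j + 1 + 1), ((j + 1).choose a : R) * H (j + 1 - a) * f a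
      = ∑ a ∈ range (j + 1), (j.choose a : R) * H (j - a) * f (a + 1)
        + ∑ a ∈ range (j + 1), (j.choose a : R) * H (j - a + 1) * f a := by
    have e2 : ∑ a ∈ range (j + 1), (j.choose a : R) * H (j - a + 1) * f a
        = ∑ a ∈ range (j + 1 + 1), (j.choose a : R) * H (j + 1 - a) * f a := by
      rw [sum_range_succ _ (j + 1), Nat.choose_succ_self]
      simp only [Nat.cast_zero, zero_mul, add_zero]
      refine sum_congr rfl fun a ha => ?_
      have : a ≤ j := Nat.lt_succ_iff.mp (mem_range.mp ha)
      rw [Nat.sub_add_comm this]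
    rw [e2, sum_range_succ' _ (j + 1), sum_range_succ' _ (j + 1), ← add_assoc, ← sum_add_distrib]
    congr 1
    · refine sum_congr rfl fun a _ => ?_
      rw [Nat.choose_succ_succ, Nat.add_sub_add_right]
      push_cast
      ring
    · simp
  rw [e1, add_assoc]
  congr 1
  have e3 : ∀ a ∈ range (j + 1), (j.choose a : R) * H (j - a + 1) * f a
      = x * ((j.choose a : R) * H (j - a) * f a)
        + (j.descFactorial m : R) * (((j - m).choose a : R) * H (j - m - a) * f a) := by
    intro a _
    have h1 : (j.choose a : R) * ((j - a).descFactorial m : R)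
        = (j.descFactorial m : R) * ((j - m).choose a : R) := by
      have := congrArg (fun t : ℕ => (t : R)) (choose_desc m j a)
      push_cast at this
      exact this
    rw [hH, Nat.sub_right_comm j m a]
    calc (j.choose a : R) * (x * H (j - a) + ((j - a).descFactorial m : R) * H (j - a - m)) * f a
        = x * ((j.choose a : R) * H (j - a) * f a)
          + ((j.choose a : R) * ((j - a).descFactorial m : R)) * H (j - a - m) * f a := by ring
      _ = _ := by rw [h1]; ring
  rw [sum_congr rfl e3, sum_add_distrib, ← mul_sum, ← mul_sum]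
  congr 2
  symm
  refine sum_subset (range_mono (by omega)) fun a _ ha => ?_
  have : (j - m).choose a = 0 := Nat.choose_eq_zero_of_lt (by
    have := mt mem_range.mpr ha
    omega)
  rw [this]; simp

lemma S_smul (H : ℕ → R) (c : R) (f : ℕ → R) (i : ℕ) : S H (fun a => c * f a) i = c * S H f i := by
  unfold S
  rw [mul_sum]
  exact sum_congr rfl fun a _ => by ring

lemma S_add (H : ℕ → R) (f g : ℕ → R) (i : ℕ) : S H (fun a => f a + g a) i = S H f i + S H g i := by
  unfold S
  rw [← sum_add_distrib]
  exact sum_congr rfl fun a _ => by ring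

lemma S_sum (H : ℕ → R) {κ : Type*} (s : Finset κ) (f : κ → ℕ → R) (i : ℕ) :
    S H (fun a => ∑ k ∈ s, f k a) i = ∑ k ∈ s, S H (f k) i := by
  unfold S
  rw [sum_comm]
  exact sum_congr rfl fun a _ => by rw [mul_sum]

/-- The core of the factorisation. -/
def N (m : ℕ) : ℕ → ℕ → ℤ
  | a, 0 => if a = 0 then 1 else 0
  | a, b + 1 => ∑ k ∈ Finset.Icc 1 m,
      (m.choose k : ℤ) * (b.descFactorial (m - k) : ℤ) * (a.descFactorial k : ℤ) * N m (a - k) (b - (m - k))
  termination_by _ b => b

lemma N_zero (m a : ℕ) : N m a 0 = if a = 0 then 1 else 0 := by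
  rw [N]

lemma N_succ (m a b : ℕ) : N m a (b + 1) = ∑ k ∈ Finset.Icc 1 m,
      (m.choose k : ℤ) * (b.descFactorial (m - k) : ℤ) * (a.descFactorial k : ℤ) * N m (a - k) (b - (m - k)) := by
  rw [N]

lemma N_dvd (m : ℕ) (b : ℕ) : ∀ a, ((a.factorial : ℕ) : ℤ) ∣ N m a b := by
  induction b using Nat.strong_induction_on with
  | _ b ih =>
    intro a
    cases b with
    | zero =>
      rw [N_zero]
      split_ifs with h
      · subst h; simp
      · exact dvd_zero _
    | succ b =>
      rw [N_succ]
      refine Finset.dvd_sum fun k hk => ?_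
      rcases Nat.lt_or_ge a k with hak | hak
      · rw [Nat.descFactorial_eq_zero_iff_lt.mpr hak]; simp
      · obtain ⟨c, hc⟩ := ih (b - (m - k)) (by omega) (a - k)
        have h1 : (a.descFactorial k : ℤ) * ((a - k).factorial : ℤ) = (a.factorial : ℤ) := by
          have := Nat.factorial_mul_descFactorial hak
          rw [mul_comm]; exact_mod_cast this
        rw [hc]
        refine ⟨(m.choose k : ℤ) * (b.descFactorial (m - k) : ℤ) * c, ?_⟩
        rw [← h1]; ring

lemma vandermonde (i j m : ℕ) : ((i + j).descFactorial m : R) =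
    ∑ k ∈ range (m + 1), (m.choose k : R) * (i.descFactorial k : R) * (j.descFactorial (m - k) : R) := by
  have key : (i + j).descFactorial m =
      ∑ k ∈ range (m + 1), m.choose k * i.descFactorial k * j.descFactorial (m - k) := by
    rw [Nat.descFactorial_eq_factorial_mul_choose, Nat.add_choose_eq,
      Finset.Nat.sum_antidiagonal_eq_sum_range_succ_mk, mul_sum]
    refine sum_congr rfl fun k hk => ?_
    have hk : k ≤ m := Nat.lt_succ_iff.mp (mem_range.mp hk)
    rw [Nat.descFactorial_eq_factorial_mul_choose i, Nat.descFactorial_eq_factorial_mul_choose j,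
      ← Nat.choose_mul_factorial_mul_factorial hk]
    ring
  rw [key]
  push_cast
  rfl

section main

variable (H : ℕ → R) (x : R) (m : ℕ) (hH : ∀ n, H (n + 1) = x * H n + (n.descFactorial m : R) * H (n - m))

def G (a j : ℕ) : R := S H (fun b => (N m a b : R)) j

def T (i j : ℕ) : R := S H (fun a => G H m a j) i

include hH

lemma G_succ (a j : ℕ) : G H m a (j + 1) = x * G H m a j + ∑ k ∈ range (m + 1),
    (m.choose k : R) * (a.descFactorial k : R) * (j.descFactorial (m - k) : R) * G H m (a - k) (j - (m - k)) := by
  unfold G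
  rw [S_succ H x m hH]
  have h1 : (fun b => (N m a (b + 1) : R)) = fun b => ∑ k ∈ Finset.Icc 1 m,
      ((m.choose k : R) * (a.descFactorial k : R)) *
        (fun b : ℕ => (b.descFactorial (m - k) : R) * (fun c : ℕ => (N m (a - k) c : R)) (b - (m - k))) b := by
    funext b
    rw [N_succ]
    push_cast
    exact sum_congr rfl fun k _ => by ring
  rw [h1, S_sum]
  have h2 : ∀ k ∈ Finset.Icc 1 m, S H (fun b => ((m.choose k : R) * (a.descFactorial k : R)) *
        (fun b : ℕ => (b.descFactorial (m - k) : R) * (fun c : ℕ => (N m (a - k) c : R)) (b - (m - k))) b) j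
      = (m.choose k : R) * (a.descFactorial k : R) * (j.descFactorial (m - k) : R) *
        S H (fun b => (N m (a - k) b : R)) (j - (m - k)) := by
    intro k _
    rw [S_smul, S_desc H (m - k) (fun c : ℕ => (N m (a - k) c : R)) j]
    ring
  rw [sum_congr rfl h2]
  have h3 : range (m + 1) = insert 0 (Finset.Icc 1 m) := by
    ext k; simp; omega
  rw [h3, sum_insert (by simp)]
  simp
  ring

lemma T_succ (i j : ℕ) : T H m i (j + 1) = x * T H m i j + ∑ k ∈ range (m + 1),
    (m.choose k : R) * (i.descFactorial k : R) * (j.descFactorial (m - k) : R) * T H m (i - k) (j - (m - k)) := by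
  unfold T
  have h1 : (fun a => G H m a (j + 1)) = fun a => x * G H m a j + ∑ k ∈ range (m + 1),
      ((m.choose k : R) * (j.descFactorial (m - k) : R)) *
        (fun a : ℕ => (a.descFactorial k : R) * (fun c : ℕ => G H m c (j - (m - k))) (a - k)) a := by
    funext a
    rw [G_succ H x m hH]
    congr 1
    exact sum_congr rfl fun k _ => by ring
  rw [h1, S_add, S_smul, S_sum]
  congr 1
  refine sum_congr rfl fun k _ => ?_
  rw [S_smul, S_desc H k (fun c : ℕ => G H m c (j - (m - k))) i]
  ring

lemma T_eq (h0 : H 0 = 1) (j : ℕ) : ∀ i, T H m i j = H (i + j) := by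
  induction j using Nat.strong_induction_on with
  | _ j ih =>
    intro i
    cases j with
    | zero =>
      have : (fun a => G H m a 0) = fun a => if a = 0 then (1 : R) else 0 := by
        funext a
        unfold G S
        simp only [zero_add, range_one, sum_singleton, Nat.choose_zero_right, Nat.cast_one, one_mul,
          Nat.sub_zero, N_zero, h0]
        split_ifs <;> simp
      unfold T
      rw [this]
      unfold S
      rw [sum_eq_single 0]
      · simp
      · intro b _ hb
        simp [hb]
      · intro h
        exact absurd (mem_range.mpr (Nat.succ_pos i)) h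
    | succ j =>
      rw [T_succ H x m hH, ih j (Nat.lt_succ_self j)]
      have h1 : H (i + (j + 1)) = x * H (i + j) + ((i + j).descFactorial m : R) * H (i + j - m) := by
        rw [← add_assoc]; exact hH _
      rw [h1, vandermonde i j m, sum_mul]
      congr 1
      refine sum_congr rfl fun k hk => ?_
      have hk : k ≤ m := Nat.lt_succ_iff.mp (mem_range.mp hk)
      rcases Nat.lt_or_ge i k with hik | hik
      · rw [Nat.descFactorial_eq_zero_iff_lt.mpr hik]; simp
      · rcases Nat.lt_or_ge j (m - k) with hjk | hjk
        · rw [Nat.descFactorial_eq_zero_iff_lt.mpr hjk]; simp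
        · rw [ih (j - (m - k)) (by omega)]
          congr 2
          omega

end main

section det

open Polynomial Matrix

/-- The Hankel determinant is a constant, divisible by the superfactorial. -/
theorem det_hankel (H : ℕ → ℤ[X]) (m : ℕ) (h0 : H 0 = 1)
    (hH : ∀ n, H (n + 1) = X * H n + (n.descFactorial m : ℤ[X]) * H (n - m)) (n : ℕ) :
    ∃ c : ℤ, (Matrix.of fun i j : Fin n => H (i.1 + j.1)).det
      = C (c * ∏ i ∈ range n, (i.factorial : ℤ)) := by
  classical
  choose e he using fun a b : ℕ => N_dvd m b a
  let L : Matrix (Fin n) (Fin n) ℤ[X] := Matrix.of fun i a => (i.1.choose a.1 : ℤ[X]) * H (i.1 - a.1)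
  let NN : Matrix (Fin n) (Fin n) ℤ[X] := Matrix.of fun a b => ((N m a.1 b.1 : ℤ) : ℤ[X])
  let E : Matrix (Fin n) (Fin n) ℤ := Matrix.of fun a b => e a.1 b.1
  have key : ∀ (f : ℕ → ℤ[X]) (i : Fin n), S H f i.1 = ∑ a : Fin n, L i a * f a.1 := by
    intro f i
    have e1 : ∑ a : Fin n, L i a * f a.1
        = ∑ a ∈ range n, (i.1.choose a : ℤ[X]) * H (i.1 - a) * f a :=
      Fin.sum_univ_eq_sum_range (fun a => (i.1.choose a : ℤ[X]) * H (i.1 - a) * f a) n
    rw [e1]
    unfold S
    refine sum_subset (range_mono (by omega)) fun a _ ha => ?_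
    have : i.1.choose a = 0 := Nat.choose_eq_zero_of_lt (by
      have := mt mem_range.mpr ha
      omega)
    rw [this]; simp
  have hfac : (Matrix.of fun i j : Fin n => H (i.1 + j.1)) = L * NN * Lᵀ := by
    ext1 i j
    have h1 : T H m i.1 j.1 = H (i.1 + j.1) := T_eq H X m hH h0 j.1 i.1
    rw [Matrix.of_apply, ← h1]
    unfold T
    rw [key, Matrix.mul_assoc, Matrix.mul_apply]
    refine sum_congr rfl fun a _ => ?_
    congr 1
    unfold G
    rw [key, Matrix.mul_apply]
    refine sum_congr rfl fun b _ => ?_
    rw [Matrix.transpose_apply, mul_comm]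
    rfl
  have hL : L.det = 1 := by
    rw [Matrix.det_of_isLowerTriangular L ?_]
    · refine Finset.prod_eq_one fun i _ => ?_
      change (i.1.choose i.1 : ℤ[X]) * H (i.1 - i.1) = 1
      rw [Nat.choose_self, Nat.sub_self, h0]; simp
    · intro i a hia
      have : i.1 < a.1 := hia
      change (i.1.choose a.1 : ℤ[X]) * H (i.1 - a.1) = 0
      rw [Nat.choose_eq_zero_of_lt this]; simp
  have hN : NN = (Matrix.of fun a b : Fin n => ((a.1.factorial : ℕ) : ℤ) * E a b).map (C : ℤ →+* ℤ[X]) := by
    ext1 a b
    rw [Matrix.map_apply]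
    change ((N m a.1 b.1 : ℤ) : ℤ[X]) = C (((a.1.factorial : ℕ) : ℤ) * e a.1 b.1)
    rw [he a.1 b.1]
    simp
  refine ⟨E.det, ?_⟩
  rw [hfac, Matrix.det_mul, Matrix.det_mul, Matrix.det_transpose, hL, one_mul, mul_one, hN]
  have h2 : ((Matrix.of fun a b : Fin n => ((a.1.factorial : ℕ) : ℤ) * E a b).map (C : ℤ →+* ℤ[X])).det
      = C (Matrix.of fun a b : Fin n => ((a.1.factorial : ℕ) : ℤ) * E a b).det := by
    rw [← RingHom.mapMatrix_apply, ← RingHom.map_det]
  rw [h2, Matrix.det_mul_column]
  congr 1
  rw [mul_comm, Fin.prod_univ_eq_prod_range (fun i => ((i.factorial : ℕ) : ℤ)) n]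

end det

end R605.HankelHd
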