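import Mathlib
import Pool.Agent.R605.EE2
import Pool.Agent.Helper222.CPE.NonBorel

set_option autoImplicit false

open Set MeasureTheory
open Pool.Agent.H579R3.Epi (K IsAuto N TLe Lam tree_map measurableSet_lam)

namespace Pool.Agent.R605.IU

/-- quasi-order -/
def QuasiOrder {X : Type} (S : X → X → Prop) : Prop :=
  (∀ x, S x x) ∧ ∀ x y z, S x y → S y z → S x z

/-- `S` is an analytic subset of the square -/
def IsAnalyticRel {X : Type} [TopologicalSpace X] (S : X → X → Prop) : Prop :=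
  AnalyticSet {p : X × X | S p.1 p.2}

/-- The pair `(S, E)` is invariantly universal. -/
def InvariantlyUniversal {X : Type} [MeasurableSpace X] (S E : X → X → Prop) : Prop :=
  ∀ (Y : Type) [TopologicalSpace Y] [PolishSpace Y] [MeasurableSpace Y] [BorelSpace Y]
    (R : Y → Y → Prop), QuasiOrder R → IsAnalyticRel R →
    ∃ B : Set X, MeasurableSet B ∧ (∀ x y, E x y → (x ∈ B ↔ y ∈ B)) ∧
      (∃ f : Y → B, Measurable f ∧ ∀ x y, R x y ↔ S (f x) (f y)) ∧
      (∃ g : B → Y, Measurable g ∧ ∀ u v : B, S u v ↔ R (g u) (g v))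

/-- codes of labelled trees -/
abbrev T : Type := List ℤ × K → Bool

instance : PolishSpace T := {}

instance : PolishSpace (ℕ → Bool) := {}

/-- the labelling coded by `u` -/
def lb (u : T) (p : List ℤ) : Set K := fun κ => u (p, κ) = true

/-- the quasi-order of labelled trees -/
def S0 (u v : T) : Prop := TLe (lb u) (lb v)

theorem S0_qo : QuasiOrder S0 := by
  constructor
  · intro u
    exact ⟨id, ⟨Function.bijective_id, rfl, fun k p => ⟨k, rfl⟩⟩, fun p => subset_rfl⟩
  · rintro u v w ⟨g, hg, h1⟩ ⟨f, hf, h2⟩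
    refine ⟨f ∘ g, ⟨hf.bij.comp hg.bij, ?_, ?_⟩, fun p => (h1 p).trans (h2 _)⟩
    · rw [Function.comp, hg.nil, hf.nil]
    · intro k p
      obtain ⟨k', hk'⟩ := hg.cons k p
      obtain ⟨k'', hk''⟩ := hf.cons k' (g p)
      exact ⟨k'', by simp only [Function.comp, hk', hk'']⟩

/-- the coding of nodes -/
noncomputable def en : List ℤ ≃ ℕ := Denumerable.eqv (List ℤ)

theorem S0_analytic : IsAnalyticRel S0 := by
  haveI : PolishSpace ((T × T) × (List ℤ → ℕ)) := {}
  have hm : ∀ (p : List ℤ) (q : ℕ), MeasurableSet {r : (T × T) × (List ℤ → ℕ) | r.2 p = q} := by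
    intro p q
    have h1 : Measurable (fun r : (T × T) × (List ℤ → ℕ) => r.2 p) :=
      (measurable_pi_apply p).comp measurable_snd
    exact h1 (MeasurableSet.of_discrete (s := {q}))
  have hm2 : ∀ p q : List ℤ, MeasurableSet {r : (T × T) × (List ℤ → ℕ) | r.2 p = r.2 q} := by
    intro p q
    have h1 : Measurable (fun r : (T × T) × (List ℤ → ℕ) => (r.2 p, r.2 q)) :=
      ((measurable_pi_apply p).comp measurable_snd).prodMk
        ((measurable_pi_apply q).comp measurable_snd)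
    exact h1 (MeasurableSet.of_discrete (s := {r : ℕ × ℕ | r.1 = r.2}))
  have hu : ∀ p κ, MeasurableSet {r : (T × T) × (List ℤ → ℕ) | r.1.1 (p, κ) = true} := by
    intro p κ
    have h1 : Measurable (fun r : (T × T) × (List ℤ → ℕ) => r.1.1 (p, κ)) :=
      (measurable_pi_apply (p, κ)).comp (measurable_fst.comp measurable_fst)
    exact h1 (MeasurableSet.of_discrete (s := {true}))
  have hv : ∀ p κ, MeasurableSet {r : (T × T) × (List ℤ → ℕ) | r.1.2 (p, κ) = true} := by
    intro p κ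
    have h1 : Measurable (fun r : (T × T) × (List ℤ → ℕ) => r.1.2 (p, κ)) :=
      (measurable_pi_apply (p, κ)).comp (measurable_snd.comp measurable_fst)
    exact h1 (MeasurableSet.of_discrete (s := {true}))
  let gg : (List ℤ → ℕ) → List ℤ → List ℤ := fun r p => en.symm (r p)
  have hgg : ∀ (r : List ℤ → ℕ) (p q : List ℤ), gg r p = q ↔ r p = en q := by
    intro r p q
    exact Equiv.symm_apply_eq en
  let M : Set ((T × T) × (List ℤ → ℕ)) :=
    {r | IsAuto (gg r.2) ∧ ∀ p, lb r.1.1 p ⊆ lb r.1.2 (gg r.2 p)}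
  have hM : MeasurableSet M := by
    have : M = (((⋂ p : List ℤ, ⋂ q : List ℤ, ({r : (T × T) × (List ℤ → ℕ) | r.2 p = r.2 q}ᶜ ∪
          {_r | p = q})) ∩
        (⋂ q : List ℤ, ⋃ p : List ℤ, {r : (T × T) × (List ℤ → ℕ) | r.2 p = en q})) ∩
        ({r : (T × T) × (List ℤ → ℕ) | r.2 [] = en []} ∩
        (⋂ k : ℤ, ⋂ p : List ℤ, ⋃ k' : ℤ, ⋃ q : List ℤ,
          ({r : (T × T) × (List ℤ → ℕ) | r.2 p = en q} ∩
          {r : (T × T) × (List ℤ → ℕ) | r.2 (k :: p) = en (k' :: q)})))) ∩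
        (⋂ p : List ℤ, ⋂ κ : K, ({r : (T × T) × (List ℤ → ℕ) | r.1.1 (p, κ) = true}ᶜ ∪
          ⋃ q : List ℤ, ({r : (T × T) × (List ℤ → ℕ) | r.2 p = en q} ∩
            {r : (T × T) × (List ℤ → ℕ) | r.1.2 (q, κ) = true}))) := by
      ext r
      simp only [mem_inter_iff, mem_iInter, mem_union, mem_compl_iff, mem_iUnion, mem_ofPred_eq, M]
      constructor
      · rintro ⟨⟨hb, hn, hc⟩, hs⟩
        refine ⟨⟨⟨fun p q => ?_, fun q => ?_⟩, (hgg _ _ _).1 hn, fun k p => ?_⟩, fun p κ => ?_⟩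
        · by_cases h : r.2 p = r.2 q
          · exact Or.inr (hb.1 (congrArg en.symm h))
          · exact Or.inl h
        · obtain ⟨p, hp⟩ := hb.2 q
          exact ⟨p, (hgg _ _ _).1 hp⟩
        · obtain ⟨k', hk'⟩ := hc k p
          exact ⟨k', gg r.2 p, (hgg _ _ _).1 rfl, (hgg _ _ _).1 hk'⟩
        · by_cases h : r.1.1 (p, κ) = true
          · exact Or.inr ⟨gg r.2 p, (hgg _ _ _).1 rfl, hs p h⟩
          · exact Or.inl h
      · rintro ⟨⟨⟨h1, h2⟩, h3, h4⟩, h5⟩
        refine ⟨⟨⟨fun p q hpq => ?_, fun q => ?_⟩, (hgg _ _ _).2 h3, fun k p => ?_⟩,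
          fun p κ hκ => ?_⟩
        · rcases h1 p q with h | h
          · exact absurd (en.symm.injective hpq) h
          · exact h
        · obtain ⟨p, hp⟩ := h2 q
          exact ⟨p, (hgg _ _ _).2 hp⟩
        · obtain ⟨k', q, hq, hk'⟩ := h4 k p
          exact ⟨k', by rw [(hgg _ _ _).2 hk', (hgg _ _ _).2 hq]⟩
        · rcases h5 p κ with h | ⟨q, hq, hq'⟩
          · exact absurd hκ h
          · change r.1.2 (gg r.2 p, κ) = true
            rw [(hgg _ _ _).2 hq]
            exact hq'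
    rw [this]
    refine MeasurableSet.inter (MeasurableSet.inter (MeasurableSet.inter ?_ ?_)
      (MeasurableSet.inter ?_ ?_)) ?_
    · exact MeasurableSet.iInter fun p => MeasurableSet.iInter fun q =>
        (hm2 p q).compl.union (MeasurableSet.const _)
    · exact MeasurableSet.iInter fun q => MeasurableSet.iUnion fun p => hm p _
    · exact hm [] _
    · exact MeasurableSet.iInter fun k => MeasurableSet.iInter fun p => MeasurableSet.iUnion fun k' =>
        MeasurableSet.iUnion fun q => (hm p _).inter (hm _ _)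
    · exact MeasurableSet.iInter fun p => MeasurableSet.iInter fun κ =>
        (hu p κ).compl.union (MeasurableSet.iUnion fun q => (hm p _).inter (hv q κ))
  have himg : {p : T × T | S0 p.1 p.2} = Prod.fst '' M := by
    ext ⟨u, v⟩
    constructor
    · rintro ⟨g, hg, h⟩
      have e : gg (fun p => en (g p)) = g := by
        funext p
        exact en.symm_apply_apply _
      refine ⟨((u, v), fun p => en (g p)), ⟨?_, ?_⟩, rfl⟩
      · change IsAuto (gg (fun p => en (g p)))
        rw [e]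
        exact hg
      · change ∀ p, lb u p ⊆ lb v (gg (fun p => en (g p)) p)
        rw [e]
        exact h
    · rintro ⟨⟨⟨u', v'⟩, g⟩, ⟨hg, h⟩, he⟩
      cases he
      exact ⟨gg g, hg, h⟩
  unfold IsAnalyticRel
  rw [himg]
  exact hM.analyticSet.image_of_continuous continuous_fst

open Classical in
/-- completeness -/
theorem S0_complete (X : Type) [Nonempty X] [TopologicalSpace X] [PolishSpace X]
    [MeasurableSpace X] [BorelSpace X] (R : X → X → Prop) (hqo : QuasiOrder R)
    (hR : IsAnalyticRel R) :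
    ∃ f : X → T, Measurable f ∧ ∀ x y, R x y ↔ S0 (f x) (f y) := by
  obtain ⟨hrefl, htrans⟩ := hqo
  unfold IsAnalyticRel at hR
  obtain ⟨x₀⟩ := ‹Nonempty X›
  -- a Borel embedding of `X` into Baire space
  obtain ⟨c₀, hc₀m, hc₀i⟩ :=
    MeasurableSpace.measurable_injection_nat_bool_of_countablySeparated X
  let c : X → N := fun x n => (c₀ x n).toNat
  have hcm : Measurable c := by
    refine measurable_pi_lambda _ fun n => ?_
    exact (Measurable.of_discrete (f := Bool.toNat)).comp ((measurable_pi_apply n).comp hc₀m)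
  have hci : Function.Injective c := by
    intro x y hxy
    apply hc₀i
    funext n
    have h := congrFun hxy n
    simp only [c] at h
    cases h1 : c₀ x n <;> cases h2 : c₀ y n <;> simp_all
  -- the relation as a continuous image
  rw [AnalyticSet] at hR
  obtain ⟨ψ, hψ, hψr⟩ : ∃ ψ : (ℕ → ℕ) → X × X, Continuous ψ ∧ range ψ = {p : X × X | R p.1 p.2} := by
    rcases hR with hR | hR
    · have : (x₀, x₀) ∈ {p : X × X | R p.1 p.2} := hrefl x₀
      rw [hR] at this
      exact absurd this (notMem_empty _)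
    · exact hR
  have hS : AnalyticSet (range fun w : ℕ → ℕ => (c (ψ w).1, c (ψ w).2)) := by
    have h1 : Measurable (fun w : ℕ → ℕ => (c (ψ w).1, c (ψ w).2)) :=
      (hcm.comp (measurable_fst.comp hψ.measurable)).prodMk
        (hcm.comp (measurable_snd.comp hψ.measurable))
    have h2 := (MeasurableSet.univ (α := ℕ → ℕ)).analyticSet_image h1
    rwa [image_univ] at h2
  rw [AnalyticSet] at hS
  obtain ⟨θ, hθ, hθr⟩ : ∃ θ : N → N × N, Continuous θ ∧
      range θ = range fun w : ℕ → ℕ => (c (ψ w).1, c (ψ w).2) := by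
    rcases hS with hS | hS
    · have : (c (ψ 0).1, c (ψ 0).2) ∈ (∅ : Set (N × N)) := by
        rw [← hS]
        exact ⟨0, rfl⟩
      exact absurd this (notMem_empty _)
    · exact hS
  let α : N → N := fun w => (θ w).1
  let β : N → N := fun w => (θ w).2
  have hα : Continuous α := continuous_fst.comp hθ
  have hβ : Continuous β := continuous_snd.comp hθ
  have h1 : ∀ w, ∃ x y, R x y ∧ α w = c x ∧ β w = c y := by
    intro w
    have : θ w ∈ range fun w : ℕ → ℕ => (c (ψ w).1, c (ψ w).2) := by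
      rw [← hθr]
      exact ⟨w, rfl⟩
    obtain ⟨w', hw'⟩ := this
    refine ⟨(ψ w').1, (ψ w').2, ?_, ?_, ?_⟩
    · have : ψ w' ∈ {p : X × X | R p.1 p.2} := by
        rw [← hψr]
        exact ⟨w', rfl⟩
      exact this
    · exact (congrArg Prod.fst hw').symm
    · exact (congrArg Prod.snd hw').symm
  have h2 : ∀ x y, R x y → ∃ w, α w = c x ∧ β w = c y := by
    intro x y hxy
    have hxy' : (x, y) ∈ {p : X × X | R p.1 p.2} := hxy
    rw [← hψr] at hxy'
    obtain ⟨w', hw'⟩ := hxy'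
    have : (c x, c y) ∈ range θ := by
      rw [hθr]
      exact ⟨w', by simp only [hw']⟩
    obtain ⟨w, hw⟩ := this
    exact ⟨w, congrArg Prod.fst hw, congrArg Prod.snd hw⟩
  have htr : ∀ u v t w w', α w = u → β w = v → α w' = v → β w' = t →
      ∃ w'', α w'' = u ∧ β w'' = t := by
    intro u v t w w' e1 e2 e3 e4
    obtain ⟨x, y, hxy, e5, e6⟩ := h1 w
    obtain ⟨y', z, hyz, e7, e8⟩ := h1 w'
    have : y = y' := hci (by rw [← e6, ← e7, e2, e3])
    subst this
    obtain ⟨w'', e9, e10⟩ := h2 x z (htrans x y z hxy hyz)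
    exact ⟨w'', by rw [e9, ← e5, e1], by rw [e10, ← e8, e4]⟩
  let Λ : X → List ℤ → Set K := fun x => Lam α β (c x)
  have hlb : ∀ x, lb (fun q : List ℤ × K => decide (q.2 ∈ Λ x q.1)) = Λ x := by
    intro x
    funext p
    ext κ
    change decide (κ ∈ Λ x p) = true ↔ _
    exact decide_eq_true_iff
  refine ⟨fun x q => decide (q.2 ∈ Λ x q.1), ?_, ?_⟩
  · refine measurable_pi_lambda _ fun q => ?_
    have h3 : MeasurableSet {x : X | q.2 ∈ Λ x q.1} :=
      hcm (measurableSet_lam (α := α) (β := β) q.1 q.2)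
    have : (fun x : X => decide (q.2 ∈ Λ x q.1)) = fun x => if q.2 ∈ Λ x q.1 then true else false := by
      funext x
      by_cases h : q.2 ∈ Λ x q.1 <;> simp [h]
    rw [this]
    exact Measurable.ite h3 measurable_const measurable_const
  · intro x y
    unfold S0
    rw [hlb, hlb]
    constructor
    · intro h
      obtain ⟨w, e1, e2⟩ := h2 x y h
      exact tree_map e1 e2
    · intro h
      obtain ⟨g, hg, hgL⟩ := h
      rcases EE.rel_of_tree hα hβ htr ⟨g, hg.nil, hg.cons, hgL⟩ with h3 | ⟨w, e1, e2⟩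
      · rw [hci h3]
        exact hrefl _
      · obtain ⟨x', y', hxy, e3, e4⟩ := h1 w
        have e5 : x = x' := hci (by rw [← e1, e3])
        have e6 : y = y' := hci (by rw [← e2, e4])
        rw [e5, e6]
        exact hxy

/-! ## The counterexample -/

/-- the space -/
abbrev W : Type := (ℕ → ℕ) × T × (ℕ → Bool)

/-- the quasi-order -/
def SS (D : Set (ℕ → ℕ)) (w w' : W) : Prop :=
  (w.1 = w'.1 ∧ w.2.1 = w'.2.1) ∨ (w.1 ∈ D ∧ w'.1 ∈ D ∧ S0 w.2.1 w'.2.1)

/-- its equivalence relation -/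
def EW (D : Set (ℕ → ℕ)) (w w' : W) : Prop := SS D w w' ∧ SS D w' w

/-- the smaller equivalence relation -/
def FW (D : Set (ℕ → ℕ)) (w w' : W) : Prop :=
  w = w' ∨ (w.2.2 0 = false ∧ w'.2.2 0 = false ∧ EW D w w')

variable (D : Set (ℕ → ℕ))

theorem SS_qo : QuasiOrder (SS D) := by
  constructor
  · intro w
    exact Or.inl ⟨rfl, rfl⟩
  · rintro ⟨a, x, c⟩ ⟨a', x', c'⟩ ⟨a'', x'', c''⟩ h1 h2
    simp only [SS] at *
    rcases h1 with ⟨rfl, rfl⟩ | ⟨h3, h4, h5⟩
    · exact h2
    · rcases h2 with ⟨rfl, rfl⟩ | ⟨h6, h7, h8⟩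
      · exact Or.inr ⟨h3, h4, h5⟩
      · exact Or.inr ⟨h3, h7, S0_qo.2 _ _ _ h5 h8⟩

theorem EW_equiv : Equivalence (EW D) :=
  ⟨fun w => ⟨(SS_qo D).1 w, (SS_qo D).1 w⟩, fun h => ⟨h.2, h.1⟩,
    fun h1 h2 => ⟨(SS_qo D).2 _ _ _ h1.1 h2.1, (SS_qo D).2 _ _ _ h2.2 h1.2⟩⟩

theorem FW_equiv : Equivalence (FW D) := by
  refine ⟨fun w => Or.inl rfl, ?_, ?_⟩
  · rintro w w' (h | ⟨h1, h2, h3⟩)
    · exact Or.inl h.symm
    · exact Or.inr ⟨h2, h1, (EW_equiv D).symm h3⟩
  · rintro w w' w'' (rfl | ⟨h1, h2, h3⟩) (rfl | ⟨h4, h5, h6⟩)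
    · exact Or.inl rfl
    · exact Or.inr ⟨h4, h5, h6⟩
    · exact Or.inr ⟨h1, h2, h3⟩
    · exact Or.inr ⟨h1, h5, (EW_equiv D).trans h3 h6⟩

theorem inter2 {X : Type} [TopologicalSpace X] [T2Space X] {s t : Set X} (hs : AnalyticSet s)
    (ht : AnalyticSet t) : AnalyticSet (s ∩ t) := by
  rw [inter_eq_iInter]
  exact AnalyticSet.iInter (fun b => by cases b <;> assumption)

theorem union2 {X : Type} [TopologicalSpace X] {s t : Set X} (hs : AnalyticSet s)
    (ht : AnalyticSet t) : AnalyticSet (s ∪ t) := by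
  rw [union_eq_iUnion]
  exact AnalyticSet.iUnion (fun b => by cases b <;> assumption)

end Pool.Agent.R605.IU
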