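import Mathlib
import Pool.Agent.R605.IU1

set_option autoImplicit false

open Set MeasureTheory

namespace Pool.Agent.R605.IU

variable {D : Set (ℕ → ℕ)}

instance : PolishSpace W := {}
instance : PolishSpace (W × W) := {}

theorem SS_analytic (hD : AnalyticSet D) : IsAnalyticRel (SS D) := by
  have h1 : IsClosed {p : W × W | p.1.1 = p.2.1 ∧ p.1.2.1 = p.2.2.1} := by
    have e1 : IsClosed {p : W × W | p.1.1 = p.2.1} :=
      isClosed_eq (continuous_fst.comp continuous_fst) (continuous_fst.comp continuous_snd)
    have e2 : IsClosed {p : W × W | p.1.2.1 = p.2.2.1} :=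
      isClosed_eq (continuous_fst.comp (continuous_snd.comp continuous_fst))
        (continuous_fst.comp (continuous_snd.comp continuous_snd))
    exact e1.inter e2
  have h2 : AnalyticSet ((fun p : W × W => p.1.1) ⁻¹' D) :=
    hD.preimage (continuous_fst.comp continuous_fst)
  have h3 : AnalyticSet ((fun p : W × W => p.2.1) ⁻¹' D) :=
    hD.preimage (continuous_fst.comp continuous_snd)
  have h4 : AnalyticSet ((fun p : W × W => (p.1.2.1, p.2.2.1)) ⁻¹' {q : T × T | S0 q.1 q.2}) := by
    have := S0_analytic
    unfold IsAnalyticRel at this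
    refine this.preimage ?_
    exact (continuous_fst.comp (continuous_snd.comp continuous_fst)).prodMk
      (continuous_fst.comp (continuous_snd.comp continuous_snd))
  exact union2 h1.analyticSet (inter2 h2 (inter2 h3 h4))

theorem swap_analytic {X : Type} [TopologicalSpace X] [T2Space X] {S : X → X → Prop}
    (hX : PolishSpace (X × X)) (h : IsAnalyticRel S) : IsAnalyticRel (fun x y => S y x) := by
  unfold IsAnalyticRel at *
  exact h.preimage (f := fun p : X × X => (p.2, p.1)) (continuous_snd.prodMk continuous_fst)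

theorem EW_analytic (hD : AnalyticSet D) : IsAnalyticRel (EW D) := by
  have h1 := SS_analytic hD
  have h2 := swap_analytic inferInstance h1
  exact inter2 h1 h2

theorem FW_analytic (hD : AnalyticSet D) : IsAnalyticRel (FW D) := by
  have h1 : IsClosed {p : W × W | p.1 = p.2} := isClosed_eq continuous_fst continuous_snd
  have h2 : IsClosed {p : W × W | p.1.2.2 0 = false} :=
    isClosed_eq ((continuous_apply 0).comp
      (continuous_snd.comp (continuous_snd.comp continuous_fst))) continuous_const
  have h3 : IsClosed {p : W × W | p.2.2.2 0 = false} :=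
    isClosed_eq ((continuous_apply 0).comp
      (continuous_snd.comp (continuous_snd.comp continuous_snd))) continuous_const
  exact union2 h1.analyticSet (inter2 h2.analyticSet (inter2 h3.analyticSet (EW_analytic hD)))

/-- `E` is Borel reducible to `F`. -/
theorem EW_le_FW : ∃ f : W → W, Measurable f ∧ ∀ x y, EW D x y ↔ FW D (f x) (f y) := by
  refine ⟨fun w => (w.1, w.2.1, fun _ => false), ?_, ?_⟩
  · exact measurable_fst.prodMk ((measurable_fst.comp measurable_snd).prodMk measurable_const)
  · rintro ⟨a, x, c⟩ ⟨a', x', c'⟩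
    constructor
    · intro h
      exact Or.inr ⟨rfl, rfl, h⟩
    · rintro (h | ⟨_, _, h⟩)
      · simp only [Prod.mk.injEq] at h
        obtain ⟨rfl, rfl, _⟩ := h
        exact ⟨Or.inl ⟨rfl, rfl⟩, Or.inl ⟨rfl, rfl⟩⟩
      · exact h

/-- `(S, F)` is invariantly universal. -/
theorem univF (hne : D.Nonempty) : InvariantlyUniversal (SS D) (FW D) := by
  intro Y _ _ _ _ R hqo hR
  rcases isEmpty_or_nonempty Y with hY | hY
  · refine ⟨∅, MeasurableSet.empty, fun x y _ => Iff.rfl, ?_, ?_⟩
    · exact ⟨fun y => hY.elim y, measurable_of_empty _, fun x => hY.elim x⟩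
    · exact ⟨fun u => absurd u.2 (notMem_empty _), measurable_of_empty _,
        fun u => absurd u.2 (notMem_empty _)⟩
  · obtain ⟨a₀, ha₀⟩ := hne
    obtain ⟨h, hh, hred⟩ := S0_complete Y R hqo hR
    obtain ⟨c₀, hc₀m, hc₀i⟩ :=
      MeasurableSpace.measurable_injection_nat_bool_of_countablySeparated Y
    let c : Y → (ℕ → Bool) := fun y n => Nat.rec true (fun m _ => c₀ y m) n
    have hc0 : ∀ y, c y 0 = true := fun y => rfl
    have hcm : Measurable c := by
      refine measurable_pi_lambda _ fun n => ?_
      rcases n with _ | n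
      · exact measurable_const
      · exact (measurable_pi_apply n).comp hc₀m
    have hci : Function.Injective c := by
      intro y y' hyy
      apply hc₀i
      funext n
      exact congrFun hyy (n + 1)
    let ι : Y → W := fun y => (a₀, h y, c y)
    have hιm : Measurable ι := measurable_const.prodMk (hh.prodMk hcm)
    have hιi : Function.Injective ι := by
      intro y y' hyy
      simp only [ι, Prod.mk.injEq] at hyy
      exact hci hyy.2.2
    have hemb : MeasurableEmbedding ι := hιm.measurableEmbedding hιi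
    have key : ∀ y y', R y y' ↔ SS D (ι y) (ι y') := by
      intro y y'
      constructor
      · intro hy
        exact Or.inr ⟨ha₀, ha₀, (hred y y').1 hy⟩
      · rintro (⟨_, h2⟩ | ⟨_, _, h2⟩)
        · have h3 : h y = h y' := h2
          rw [hred, h3]
          exact S0_qo.1 _
        · exact (hred y y').2 h2
    refine ⟨range ι, hemb.measurableSet_range, ?_, ?_, ?_⟩
    · have haux : ∀ x y, FW D x y → x ∈ range ι → y ∈ range ι := by
        rintro x y (rfl | ⟨h1, _, _⟩) hx
        · exact hx
        · obtain ⟨z, rfl⟩ := hx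
          have : c z 0 = false := h1
          rw [hc0] at this
          exact absurd this (by simp)
      intro x y hxy
      exact ⟨haux x y hxy, haux y x ((FW_equiv D).symm hxy)⟩
    · exact ⟨fun y => ⟨ι y, y, rfl⟩, hιm.subtype_mk, fun x y => key x y⟩
    · obtain ⟨y₀⟩ := hY
      obtain ⟨g, hg, hgι⟩ := hemb.exists_measurable_extend (g := (id : Y → Y)) measurable_id
        (fun _ => ⟨y₀⟩)
      have hgι' : ∀ y, g (ι y) = y := fun y => congrFun hgι y
      refine ⟨fun u => g u.1, hg.comp measurable_subtype_coe, ?_⟩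
      rintro ⟨_, ⟨y, rfl⟩⟩ ⟨_, ⟨y', rfl⟩⟩
      change SS D (ι y) (ι y') ↔ R (g (ι y)) (g (ι y'))
      rw [hgι', hgι', key]

/-- `(S, E)` is not invariantly universal. -/
theorem not_univE (hD : ¬ MeasurableSet D) : ¬ InvariantlyUniversal (SS D) (EW D) := by
  intro hU
  obtain ⟨B, hB, hinv, ⟨f, hf, hfr⟩, ⟨g, hg, hgr⟩⟩ :=
    hU Bool (fun a b => a ≤ b) ⟨fun x => le_refl x, fun x y z => le_trans⟩
      (by
        have h1 : MeasurableSet {p : Bool × Bool | p.1 ≤ p.2} := MeasurableSet.of_discrete
        exact h1.analyticSet)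
  have h1 : SS D (f false) (f true) := (hfr false true).1 (Bool.false_le true)
  have h2 : ¬ SS D (f true) (f false) := fun h => by
    have := (hfr true false).2 h
    exact absurd this (by decide)
  rcases hw : (f false : W) with ⟨a, x, c⟩
  rcases hw' : (f true : W) with ⟨a', x', c'⟩
  rw [hw, hw'] at h1 h2
  have ha : a ∈ D := by
    rcases h1 with ⟨h3, h4⟩ | ⟨h3, _, _⟩
    · exact absurd (Or.inl ⟨h3.symm, h4.symm⟩) h2
    · exact h3
  have hwB : ((a, x, c) : W) ∈ B := by
    rw [← hw]
    exact (f false).2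
  -- the set of `b` such that `(b, x, c)` is in `B` and below `(a, x, c)`
  have hmemB : ∀ b ∈ D, ((b, x, c) : W) ∈ B := by
    intro b hb
    refine (hinv (a, x, c) (b, x, c) ⟨?_, ?_⟩).1 hwB
    · exact Or.inr ⟨ha, hb, S0_qo.1 x⟩
    · exact Or.inr ⟨hb, ha, S0_qo.1 x⟩
  have hι : Measurable (fun b : ℕ → ℕ => ((b, x, c) : W)) :=
    measurable_id.prodMk measurable_const
  have hP : MeasurableSet ((fun b : ℕ → ℕ => ((b, x, c) : W)) ⁻¹' B) := hι hB
  let G : Set B := {u | g u ≤ g ⟨(a, x, c), hwB⟩}
  have hG : MeasurableSet G := by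
    have : G = g ⁻¹' {t | t ≤ g ⟨(a, x, c), hwB⟩} := rfl
    rw [this]
    exact hg MeasurableSet.of_discrete
  have hG' : MeasurableSet (Subtype.val '' G : Set W) := hB.subtype_image hG
  have : D = (fun b : ℕ → ℕ => ((b, x, c) : W)) ⁻¹' (Subtype.val '' G) := by
    ext b
    constructor
    · intro hb
      refine ⟨⟨(b, x, c), hmemB b hb⟩, ?_, rfl⟩
      change g _ ≤ g _
      rw [← hgr]
      exact Or.inr ⟨hb, ha, S0_qo.1 x⟩
    · rintro ⟨⟨u, hu⟩, huG, he⟩
      have he' : u = (b, x, c) := he
      subst he'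
      have h3 : SS D (b, x, c) (a, x, c) := (hgr _ _).2 huG
      rcases h3 with ⟨h4, _⟩ | ⟨h4, _, _⟩
      · have h5 : b = a := h4
        rw [h5]
        exact ha
      · exact h4
  apply hD
  rw [this]
  exact hι hG'

end Pool.Agent.R605.IU
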