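import Mathlib
set_option autoImplicit false
namespace Pool.Agent.R605.Pillai
open Finset

/-- Rank based bound for a determinant. -/
lemma det_bound {ι : Type*} [Fintype ι] [DecidableEq ι] (T : ℕ) (hcard : Fintype.card ι = 2 * T)
    (U E : Matrix ι ι ℝ) (w : Fin T → (ι → ℝ)) (c : ι → Fin T → ℝ)
    (hU : ∀ i, U i = ∑ k, c i k • w k) (M δ : ℝ) (hδ0 : 0 ≤ δ) (hδM : δ ≤ M)
    (hUM : ∀ i j, |U i j| ≤ M) (hE : ∀ i j, |E i j| ≤ δ) :
    |(U + E).det| ≤ 2 ^ (2 * T) * ((2 * T).factorial * (M ^ T * δ ^ T)) := by
  have hM0 : 0 ≤ M := hδ0.trans hδM
  have h1 : (U + E).det = ∑ s : Finset ι, (Matrix.of (s.piecewise U E)).det := by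
    have := (Matrix.detRowAlternating (R := ℝ) (n := ι)).toMultilinearMap.map_add_univ U E
    exact this
  rw [h1]
  calc |∑ s : Finset ι, (Matrix.of (s.piecewise U E)).det|
      ≤ ∑ s : Finset ι, |(Matrix.of (s.piecewise U E)).det| := Finset.abs_sum_le_sum_abs _ _
    _ ≤ ∑ s : Finset ι, (((2 * T).factorial : ℝ) * (M ^ T * δ ^ T)) := by
        apply Finset.sum_le_sum
        intro s _
        by_cases hs : T < s.card
        · -- rank argument
          have h2 : (Matrix.of (s.piecewise U E)).det = 0 := by
            by_contra hcon
            have h3 : LinearIndependent ℝ (Matrix.of (s.piecewise U E)).row :=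
              Matrix.linearIndependent_rows_of_det_ne_zero hcon
            have h4 : LinearIndependent ℝ (fun i : s => (Matrix.of (s.piecewise U E)).row i) :=
              h3.comp _ Subtype.val_injective
            have h5 : Cardinal.mk s ≤ Fintype.card (Set.range w) := by
              apply linearIndependent_le_span' _ h4 (Set.range w)
              rintro _ ⟨i, rfl⟩
              have h6 : (Matrix.of (s.piecewise U E)).row i = U i := by
                ext j
                simp [Matrix.row, Finset.piecewise, i.2]
              simp only [h6, hU]
              exact Submodule.sum_mem _ fun k _ => Submodule.smul_mem _ _ (Submodule.subset_span ⟨k, rfl⟩)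
            have h6 : Fintype.card (Set.range w) ≤ T := by
              have := Fintype.card_range_le w
              simpa using this
            have h7 : s.card ≤ T := by
              rw [Cardinal.mk_coe_finset] at h5
              have : s.card ≤ Fintype.card (Set.range w) := by exact_mod_cast h5
              omega
            omega
          rw [h2, abs_zero]
          positivity
        · push Not at hs
          rw [Matrix.det_apply]
          calc |∑ σ : Equiv.Perm ι, Equiv.Perm.sign σ • ∏ i, Matrix.of (s.piecewise U E) (σ i) i|
              ≤ ∑ σ : Equiv.Perm ι, |Equiv.Perm.sign σ • ∏ i, Matrix.of (s.piecewise U E) (σ i) i| :=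
                Finset.abs_sum_le_sum_abs _ _
            _ ≤ ∑ σ : Equiv.Perm ι, (M ^ T * δ ^ T) := by
                apply Finset.sum_le_sum
                intro σ _
                have h2 : |Equiv.Perm.sign σ • ∏ i, Matrix.of (s.piecewise U E) (σ i) i| =
                    ∏ i, |Matrix.of (s.piecewise U E) (σ i) i| := by
                  rw [← Finset.abs_prod]
                  rcases Int.units_eq_one_or (Equiv.Perm.sign σ) with h3 | h3 <;> simp [h3]
                rw [h2]
                calc ∏ i, |Matrix.of (s.piecewise U E) (σ i) i|
                    ≤ ∏ i, (if σ i ∈ s then M else δ) := by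
                      apply Finset.prod_le_prod (fun i _ => abs_nonneg _)
                      intro i _
                      by_cases h4 : σ i ∈ s
                      · simp [Finset.piecewise, h4, hUM]
                      · simp [Finset.piecewise, h4, hE]
                  _ = ∏ i, (if i ∈ s then M else δ) := Equiv.prod_comp σ (fun i => if i ∈ s then M else δ)
                  _ = M ^ s.card * δ ^ (2 * T - s.card) := by
                      rw [Finset.prod_ite]
                      simp only [Finset.prod_const]
                      congr 2
                      · congr 1; ext; simp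
                      · rw [← hcard, ← Finset.card_univ, ← Finset.card_sdiff_of_subset (Finset.subset_univ s)]
                        congr 1; ext; simp
                  _ ≤ M ^ T * δ ^ T := by
                      have e1 : 2 * T - s.card = (T - s.card) + T := by omega
                      have e2 : M ^ T = M ^ s.card * M ^ (T - s.card) := by
                        rw [← pow_add]; congr 1; omega
                      rw [e1, pow_add, e2]
                      have h5 : δ ^ (T - s.card) ≤ M ^ (T - s.card) := pow_le_pow_left₀ hδ0 hδM _
                      have h6 : 0 ≤ M ^ s.card := by positivity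
                      have h7 : 0 ≤ δ ^ T := by positivity
                      calc M ^ s.card * (δ ^ (T - s.card) * δ ^ T) ≤ M ^ s.card * (M ^ (T - s.card) * δ ^ T) := by
                            gcongr
                        _ = M ^ s.card * M ^ (T - s.card) * δ ^ T := by ring
            _ = ((2 * T).factorial : ℝ) * (M ^ T * δ ^ T) := by
                rw [Finset.sum_const, Finset.card_univ, Fintype.card_perm, hcard, nsmul_eq_mul]
    _ = 2 ^ (2 * T) * ((2 * T).factorial * (M ^ T * δ ^ T)) := by
        rw [Finset.sum_const, Finset.card_univ, Fintype.card_finset, hcard, nsmul_eq_mul]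
        push_cast; ring

/-- Selecting columns with a non-zero determinant. -/
lemma exists_minor {ι Pt : Type*} [Fintype ι] [DecidableEq ι] (A : ι → Pt → ℝ)
    (h : ∀ c : ι → ℝ, (∀ ξ, ∑ i, c i * A i ξ = 0) → c = 0) :
    ∃ g : ι → Pt, (Matrix.of fun i n => A i (g n)).det ≠ 0 := by
  set W : Set (ι → ℝ) := Set.range (fun ξ i => A i ξ) with hW
  have hspan : Submodule.span ℝ W = ⊤ := by
    by_contra hcon
    obtain ⟨f, hf0, hf⟩ := Submodule.exists_le_ker_of_lt_top _ (lt_top_iff_ne_top.2 hcon)
    apply hf0
    have h1 : ∀ v : ι → ℝ, f v = ∑ i, f (Pi.single i 1) * v i := by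
      intro v
      conv_lhs => rw [← Finset.univ_sum_single v]
      rw [map_sum]
      apply Finset.sum_congr rfl
      intro i _
      have : Pi.single i (v i) = v i • (Pi.single i (1 : ℝ) : ι → ℝ) := by
        rw [← Pi.single_smul]; simp
      rw [this, map_smul, smul_eq_mul, mul_comm]
    have h2 := h (fun i => f (Pi.single i 1)) (fun ξ => by
      have h3 : (fun i => A i ξ) ∈ LinearMap.ker f := hf (Submodule.subset_span ⟨ξ, rfl⟩)
      rw [LinearMap.mem_ker, h1] at h3
      exact h3)
    ext v
    simp only [LinearMap.coe_comp, Function.comp_apply, LinearMap.coe_single, LinearMap.zero_apply]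
    exact congrFun h2 v
  obtain ⟨f, hfW, hfspan, hli⟩ := Submodule.exists_fun_fin_finrank_span_eq ℝ W
  have hfr : Module.finrank ℝ (Submodule.span ℝ W) = Fintype.card ι := by
    rw [hspan, finrank_top, Module.finrank_fintype_fun_eq_card]
  let e : ι ≃ Fin (Module.finrank ℝ (Submodule.span ℝ W)) := 
    (Fintype.equivFin ι).trans (finCongr hfr.symm)
  have hli' : LinearIndependent ℝ (f ∘ e) := hli.comp _ e.injective
  choose g hg using fun n : ι => (hfW (e n) : f (e n) ∈ Set.range (fun ξ i => A i ξ))
  refine ⟨g, ?_⟩
  have h1 : (Matrix.of fun n i => A i (g n)).det ≠ 0 := by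
    have h2 : IsUnit (Matrix.of fun n i => A i (g n)) := by
      rw [← Matrix.linearIndependent_rows_iff_isUnit]
      have h3 : (Matrix.of fun n i => A i (g n)).row = f ∘ e := by
        ext n i
        exact congrFun (hg n) i
      rw [h3]; exact hli'
    exact ((Matrix.isUnit_iff_isUnit_det _).1 h2).ne_zero
  rw [← Matrix.det_transpose]
  exact h1

end Pool.Agent.R605.Pillai
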