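import Mathlib
set_option autoImplicit false
namespace Pool.Agent.R605.Pillai
open Finset Polynomial

/-- The zero estimate. -/
lemma zero_estimate (a b p q K L R2 S2 : ℕ) (ha : 2 ≤ a) (hb : 1 ≤ b)
    (hdist : ∀ r s r' s' : ℕ, r < R2 → s < S2 → r' < R2 → s' < S2 →
      r * q + s * p = r' * q + s' * p → r = r' ∧ s = s')
    (hRS : K * L ≤ R2 * S2) (hL : 1 ≤ L) (hK : 1 ≤ K) (c : ℕ → ℕ → ℝ)
    (hvan : ∀ r < L + R2, ∀ s < S2, ∑ i ∈ range K, ∑ j ∈ range L,
      c i j * ((r * q + s * p : ℕ) : ℝ) ^ i * ((a : ℝ) ^ r * (b : ℝ) ^ s) ^ j = 0) :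
    ∀ i < K, ∀ j < L, c i j = 0 := by
  classical
  have haR : (2 : ℝ) ≤ a := by exact_mod_cast ha
  have hbR : (1 : ℝ) ≤ b := by exact_mod_cast hb
  set P : ℕ → ℝ[X] := fun j => ∑ i ∈ range K, C (c i j) * X ^ i with hP
  have hPcoeff : ∀ j i, i < K → (P j).coeff i = c i j := by
    intro j i hi
    simp only [hP, finsetSum_coeff, coeff_C_mul_X_pow]
    rw [Finset.sum_ite_eq]
    simp [hi]
  have hPdeg : ∀ j, (P j).natDegree ≤ K - 1 := by
    intro j
    apply natDegree_sum_le_of_forall_le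
    intro i hi
    have := mem_range.1 hi
    exact (natDegree_C_mul_X_pow_le _ _).trans (by omega)
  have hPeval : ∀ j x, (P j).eval x = ∑ i ∈ range K, c i j * x ^ i := by
    intro j x
    simp [hP, eval_finsetSum]
  set J : Finset ℕ := (range L).filter (fun j => P j ≠ 0) with hJ
  suffices hJe : J = ∅ by
    intro i hi j hj
    have h1 : P j = 0 := by
      by_contra h2
      have h3 : j ∈ J := by rw [hJ, mem_filter]; exact ⟨mem_range.2 hj, h2⟩
      rw [hJe] at h3; simp at h3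
    rw [← hPcoeff j i hi, h1, coeff_zero]
  by_contra hJne
  set n := J.card with hn
  have hn1 : 1 ≤ n := Finset.card_pos.2 (Finset.nonempty_iff_ne_empty.2 hJne)
  have hnL : n ≤ L := by
    have := Finset.card_filter_le (range L) (fun j => P j ≠ 0)
    rwa [card_range] at this
  let e : Fin n ≃ J := J.equivFin.symm
  have heJ : ∀ m, P (e m) ≠ 0 := fun m => (mem_filter.1 (e m).2).2
  set Mx : Matrix (Fin n) (Fin n) ℝ[X] := Matrix.of fun l m =>
    C (((a : ℝ) ^ ((e m : ℕ))) ^ (l : ℕ)) * (P (e m)).comp (X + C (((l : ℕ) * q : ℕ) : ℝ)) with hMx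
  have hα : ∀ l m : Fin n, ((a : ℝ) ^ ((e m : ℕ))) ^ (l : ℕ) ≠ 0 := fun l m => by positivity
  have hnatX : ∀ β : ℝ, (X + C β : ℝ[X]).natDegree = 1 := fun β => natDegree_X_add_C β
  have hMxdeg : ∀ l m, (Mx l m).natDegree = (P (e m)).natDegree := by
    intro l m
    rw [hMx, Matrix.of_apply, natDegree_C_mul (hα l m), natDegree_comp, hnatX, mul_one]
  have hMxlc : ∀ l m, (Mx l m).leadingCoeff = ((a : ℝ) ^ ((e m : ℕ))) ^ (l : ℕ) * (P (e m)).leadingCoeff := by
    intro l m
    rw [hMx, Matrix.of_apply, leadingCoeff_mul, leadingCoeff_C, leadingCoeff_comp (by rw [hnatX]; norm_num),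
      leadingCoeff_X_add_C, one_pow, mul_one]
  have hMxne : ∀ l m, Mx l m ≠ 0 := by
    intro l m h0
    have h1 := hMxlc l m
    rw [h0, leadingCoeff_zero] at h1
    have h2 : (P (e m)).leadingCoeff ≠ 0 := leadingCoeff_ne_zero.2 (heJ m)
    exact (mul_ne_zero (hα l m) h2) h1.symm
  set N0 := ∑ m, (P (e m)).natDegree with hN0
  have hprod : ∀ σ : Equiv.Perm (Fin n), (∏ m, Mx (σ m) m).natDegree = N0 := by
    intro σ
    rw [natDegree_prod _ _ (fun m _ => hMxne _ _)]
    exact Finset.sum_congr rfl fun m _ => hMxdeg _ _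
  have hcoeff : Mx.det.coeff N0 ≠ 0 := by
    have h1 : Mx.det.coeff N0 = (Matrix.of fun (l m : Fin n) =>
        (P (e m)).leadingCoeff * ((a : ℝ) ^ ((e m : ℕ))) ^ (l : ℕ)).det := by
      rw [Matrix.det_apply, Matrix.det_apply, finsetSum_coeff]
      apply Finset.sum_congr rfl
      intro σ _
      have h2 : (∏ m, Mx (σ m) m).coeff N0 = ∏ m, (P (e m)).leadingCoeff * ((a : ℝ) ^ ((e m : ℕ))) ^ ((σ m : Fin n) : ℕ) := by
        rw [← hprod σ, coeff_natDegree, leadingCoeff_prod]
        exact Finset.prod_congr rfl fun m _ => by rw [hMxlc, mul_comm]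
      have h3 : (∏ m, (Matrix.of fun (l m : Fin n) =>
          (P (e m)).leadingCoeff * ((a : ℝ) ^ ((e m : ℕ))) ^ (l : ℕ)) (σ m) m) =
          ∏ m, (P (e m)).leadingCoeff * ((a : ℝ) ^ ((e m : ℕ))) ^ ((σ m : Fin n) : ℕ) := rfl
      rw [h3, ← h2]
      rcases Int.units_eq_one_or (Equiv.Perm.sign σ) with h4 | h4
      · rw [h4, one_smul, one_smul]
      · rw [h4, Units.neg_smul, Units.neg_smul, one_smul, one_smul, coeff_neg]
    rw [h1]
    have h2 := Matrix.det_mul_row (fun m => (P (e m)).leadingCoeff)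
      (Matrix.of fun (l m : Fin n) => ((a : ℝ) ^ ((e m : ℕ))) ^ (l : ℕ))
    simp only [Matrix.of_apply] at h2
    rw [h2]
    apply mul_ne_zero
    · exact Finset.prod_ne_zero_iff.2 fun m _ => leadingCoeff_ne_zero.2 (heJ m)
    · have h3 : (Matrix.of fun (l m : Fin n) => ((a : ℝ) ^ ((e m : ℕ))) ^ (l : ℕ)) =
          (Matrix.vandermonde (fun m : Fin n => (a : ℝ) ^ ((e m : ℕ)))).transpose := by
        ext l m
        simp [Matrix.vandermonde]
      rw [h3, Matrix.det_transpose, Matrix.det_vandermonde_ne_zero_iff]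
      intro m m' hm
      have h4 : ((e m : ℕ)) = ((e m' : ℕ)) := by
        have hm' : (a : ℝ) ^ ((e m : ℕ)) = (a : ℝ) ^ ((e m' : ℕ)) := hm
        have h5 : (a : ℕ) ^ ((e m : ℕ)) = a ^ ((e m' : ℕ)) := by exact_mod_cast hm'
        exact Nat.pow_right_injective ha h5
      exact e.injective (Subtype.ext h4)
  have hdeg : Mx.det.natDegree ≤ N0 := by
    rw [Matrix.det_apply]
    apply natDegree_sum_le_of_forall_le
    intro σ _
    rcases Int.units_eq_one_or (Equiv.Perm.sign σ) with h3 | h3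
    · rw [h3, one_smul]; exact (hprod σ).le
    · rw [h3, Units.neg_smul, one_smul, natDegree_neg]; exact (hprod σ).le
  have hN0le : N0 ≤ n * (K - 1) := by
    calc N0 ≤ ∑ _m : Fin n, (K - 1) := Finset.sum_le_sum fun m _ => hPdeg _
      _ = n * (K - 1) := by simp
  -- vanishing
  have hev : ∀ r < R2, ∀ s < S2, Mx.det.eval ((r * q + s * p : ℕ) : ℝ) = 0 := by
    intro r hr s hs
    have h1 : Mx.det.eval ((r * q + s * p : ℕ) : ℝ) =
        ((evalRingHom ((r * q + s * p : ℕ) : ℝ)).mapMatrix Mx).det := by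
      rw [← RingHom.map_det]; rfl
    rw [h1, ← Matrix.exists_mulVec_eq_zero_iff]
    set y : ℝ := (a : ℝ) ^ r * (b : ℝ) ^ s with hy
    have hy0 : 0 < y := by positivity
    refine ⟨fun m => y ^ ((e m : ℕ)), ?_, ?_⟩
    · intro h0
      have := congrFun h0 ⟨0, hn1⟩
      simp only [Pi.zero_apply] at this
      exact (pow_pos hy0 _).ne' this
    · ext l
      simp only [Matrix.mulVec, dotProduct, RingHom.mapMatrix_apply, Matrix.map_apply, Pi.zero_apply,
        coe_evalRingHom]
      set F : ℕ → ℝ := fun j => (P j).eval ((((l : ℕ) + r) * q + s * p : ℕ) : ℝ) *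
        ((a : ℝ) ^ ((l : ℕ) + r) * (b : ℝ) ^ s) ^ j with hF
      have h2 : ∀ m : Fin n, eval ((r * q + s * p : ℕ) : ℝ) (Mx l m) * y ^ ((e m : ℕ)) = F (e m) := by
        intro m
        rw [hMx, Matrix.of_apply, eval_mul, eval_C, eval_comp, eval_add, eval_X, eval_C, hF]
        simp only
        have e1 : (((r * q + s * p : ℕ) : ℝ) + (((l : ℕ) * q : ℕ) : ℝ)) = ((((l : ℕ) + r) * q + s * p : ℕ) : ℝ) := by
          push_cast; ring
        rw [e1, hy, pow_add, ← pow_mul, mul_comm ((e m : ℕ)) (l : ℕ), pow_mul]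
        ring
      rw [Finset.sum_congr rfl fun m _ => h2 m]
      have h3 : ∑ m : Fin n, F (e m) = ∑ j ∈ J, F j := by
        rw [e.sum_comp (fun j : J => F j), Finset.sum_coe_sort J F]
      have h4 : ∑ j ∈ J, F j = ∑ j ∈ range L, F j := by
        rw [hJ, Finset.sum_filter]
        apply Finset.sum_congr rfl
        intro j _
        by_cases h5 : P j = 0
        · simp [hF, h5]
        · simp [h5]
      rw [h3, h4]
      have h5 := hvan ((l : ℕ) + r) (by have := l.2; omega) s hs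
      rw [Finset.sum_comm] at h5
      rw [← h5]
      apply Finset.sum_congr rfl
      intro j _
      rw [hF]
      simp only
      rw [hPeval, Finset.sum_mul]
  have hD0 : Mx.det = 0 := by
    apply eq_zero_of_natDegree_lt_card_of_eval_eq_zero' Mx.det
      ((range R2 ×ˢ range S2).image (fun z : ℕ × ℕ => ((z.1 * q + z.2 * p : ℕ) : ℝ)))
    · intro x hx
      obtain ⟨z, hz, rfl⟩ := Finset.mem_image.1 hx
      rw [Finset.mem_product, mem_range, mem_range] at hz
      exact hev z.1 hz.1 z.2 hz.2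
    · rw [Finset.card_image_of_injOn, Finset.card_product, card_range, card_range]
      · have h1 : n * (K - 1) ≤ L * (K - 1) := Nat.mul_le_mul_right _ hnL
        have h2 : L * (K - 1) + L = K * L := by
          obtain ⟨K', rfl⟩ := Nat.exists_eq_add_of_le' hK
          simp; ring
        omega
      · rintro ⟨r, s⟩ h1 ⟨r', s'⟩ h2 h3
        simp only [Finset.coe_product, Set.mem_prod, Finset.mem_coe, mem_range] at h1 h2
        have h3' : ((r * q + s * p : ℕ) : ℝ) = ((r' * q + s' * p : ℕ) : ℝ) := h3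
        have h4 : r * q + s * p = r' * q + s' * p := by exact_mod_cast h3'
        obtain ⟨h5, h6⟩ := hdist r s r' s' h1.1 h1.2 h2.1 h2.2 h4
        rw [h5, h6]
  rw [hD0, coeff_zero] at hcoeff
  exact hcoeff rfl

end Pool.Agent.R605.Pillai
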