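import Pool.Agent.R605.M1
import Pool.Agent.R605.M2
set_option autoImplicit false
namespace Pool.Agent.R605.Pillai
open Finset

lemma exp_taylor (u : ℝ) (hu : 0 ≤ u) (n : ℕ) :
    Real.exp u - ∑ k ∈ range n, u ^ k / (k.factorial : ℝ) ≤ u ^ n / (n.factorial : ℝ) * Real.exp u := by
  have hs : Summable (fun k : ℕ => u ^ k / (k.factorial : ℝ)) := Real.summable_pow_div_factorial u
  have h1 : Real.exp u = ∑' k : ℕ, u ^ k / (k.factorial : ℝ) := by
    rw [Real.exp_eq_exp_ℝ, NormedSpace.exp_eq_tsum_div]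
  have h2 := hs.sum_add_tsum_nat_add n
  have h3 : ∑' k : ℕ, u ^ (k + n) / ((k + n).factorial : ℝ) ≤
      ∑' k : ℕ, u ^ n / (n.factorial : ℝ) * (u ^ k / (k.factorial : ℝ)) := by
    apply Summable.tsum_le_tsum
    · intro k
      rw [pow_add, div_mul_div_comm, mul_comm (u ^ k)]
      apply div_le_div_of_nonneg_left (by positivity) (by positivity)
      have := Nat.le_of_dvd (Nat.factorial_pos _) (Nat.factorial_mul_factorial_dvd_factorial_add k n)
      rw [mul_comm (n.factorial : ℝ)]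
      exact_mod_cast this
    · exact (summable_nat_add_iff n).2 hs
    · exact hs.mul_left _
  rw [tsum_mul_left, ← h1] at h3
  rw [← h1] at h2
  linarith

lemma taylor_small (u G : ℝ) (n : ℕ) (hu : 0 ≤ u) (huG : u ≤ G) (hn : 0 < n)
    (hG : Real.exp 2 * G ≤ n) : u ^ n / (n.factorial : ℝ) ≤ Real.exp (-n) := by
  have hn' : (0 : ℝ) < n := by exact_mod_cast hn
  have h1 : (n : ℝ) ^ n / (n.factorial : ℝ) ≤ Real.exp n := Real.pow_div_factorial_le_exp _ hn'.le n
  have h2 : u / n ≤ Real.exp (-2) := by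
    rw [div_le_iff₀ hn', Real.exp_neg, inv_mul_eq_div, le_div_iff₀ (Real.exp_pos _)]
    calc u * Real.exp 2 ≤ G * Real.exp 2 := by gcongr
      _ = Real.exp 2 * G := mul_comm _ _
      _ ≤ n := hG
  have h3 : u ^ n / (n.factorial : ℝ) = (u / n) ^ n * ((n : ℝ) ^ n / (n.factorial : ℝ)) := by
    rw [div_pow]; field_simp
  rw [h3]
  calc (u / n) ^ n * ((n : ℝ) ^ n / (n.factorial : ℝ)) ≤ (Real.exp (-2)) ^ n * Real.exp n := by
        gcongr
    _ = Real.exp (-n) := by
        rw [← Real.exp_nat_mul, ← Real.exp_add]; congr 1; ring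

lemma entry_eq (a b p q r s j : ℕ) (ha : 0 < a) (hb : 0 < b) (hq : 0 < q) :
    ((a : ℝ) ^ r * (b : ℝ) ^ s) ^ j =
      Real.exp ((j : ℝ) * (Real.log a / q) * ((r * q + s * p : ℕ) : ℝ)) *
        Real.exp (-((j : ℝ) * s * ((p * Real.log a - q * Real.log b) / q))) := by
  have ha' : (0 : ℝ) < a := by exact_mod_cast ha
  have hb' : (0 : ℝ) < b := by exact_mod_cast hb
  have hq' : (q : ℝ) ≠ 0 := by positivity
  have h1 : ((a : ℝ) ^ r * (b : ℝ) ^ s) ^ j = Real.exp ((j : ℝ) * (r * Real.log a + s * Real.log b)) := by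
    rw [Real.exp_nat_mul, Real.exp_add, Real.exp_nat_mul, Real.exp_nat_mul, Real.exp_log ha',
      Real.exp_log hb']
  rw [h1, ← Real.exp_add]
  congr 1
  push_cast
  field_simp
  ring

end Pool.Agent.R605.Pillai
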