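import Pool.Agent.R605.M3
set_option autoImplicit false
namespace Pool.Agent.R605.Pillai
open Finset

lemma K_big (l h : ℝ) (hl : 35 ≤ l) (hh : 5 ≤ h) : 85750 ≤ 2 * l ^ 3 * h ^ 2 := by
  have h1 : (35 : ℝ) ^ 3 ≤ l ^ 3 := by gcongr
  have h2 : (1 : ℝ) ≤ h ^ 2 := one_le_pow₀ (by linarith)
  have h3 : l ^ 3 * 1 ≤ l ^ 3 * h ^ 2 := by gcongr
  linarith

lemma K_exp (l h : ℝ) (hl : 35 ≤ l) (hh : 5 ≤ h) : 8 * l ^ 3 * h ≤ Real.exp (2 * l ^ 3 * h ^ 2) := by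
  have hK := K_big l h hl hh
  obtain ⟨K, hK'⟩ : ∃ K, K = 2 * l ^ 3 * h ^ 2 := ⟨_, rfl⟩
  rw [← hK'] at hK ⊢
  have h1 : K ^ 2 / ((2).factorial : ℝ) ≤ Real.exp K :=
    Real.pow_div_factorial_le_exp _ (by linarith) 2
  have h2 : 8 * l ^ 3 * h ≤ 4 * K := by
    rw [hK']
    have h3 : l ^ 3 * h * 1 ≤ l ^ 3 * h * h := by
      have : 0 ≤ l ^ 3 * h := by positivity
      gcongr; linarith
    have h4 : 8 * l ^ 3 * h = 8 * (l ^ 3 * h * 1) := by ring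
    have h5 : 4 * (2 * l ^ 3 * h ^ 2) = 8 * (l ^ 3 * h * h) := by ring
    rw [h4, h5]; linarith
  have h3 : 4 * K ≤ K ^ 2 / ((2).factorial : ℝ) := by
    rw [Nat.factorial_two]; push_cast
    have h4 : 8 * K ≤ K * K := by
      apply mul_le_mul_of_nonneg_right _ (by linarith)
      linarith
    rw [pow_two]; linarith
  linarith

lemma eps_facts (a b p q : ℕ) (ha : 2 ≤ a) (hb : 3 ≤ b) (hq : 1 ≤ q) (heq : a ^ p = b ^ q + 2) :
    0 ≤ p * Real.log a - q * Real.log b ∧ p * Real.log a - q * Real.log b ≤ 2 / (b : ℝ) ^ q ∧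
      p * Real.log a - q * Real.log b ≤ 1 := by
  have haR : (2 : ℝ) ≤ a := by exact_mod_cast ha
  have hbR : (3 : ℝ) ≤ b := by exact_mod_cast hb
  have hap : (0 : ℝ) < (a : ℝ) ^ p := by positivity
  have hbq : (0 : ℝ) < (b : ℝ) ^ q := by positivity
  have heqR : (a : ℝ) ^ p = (b : ℝ) ^ q + 2 := by exact_mod_cast heq
  have hε1 : p * Real.log a - q * Real.log b = Real.log ((a : ℝ) ^ p / (b : ℝ) ^ q) := by
    rw [Real.log_div hap.ne' hbq.ne', Real.log_pow, Real.log_pow]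
  have hεle : p * Real.log a - q * Real.log b ≤ 2 / (b : ℝ) ^ q := by
    rw [hε1]
    have h1 := Real.log_le_sub_one_of_pos (div_pos hap hbq)
    have h2 : (a : ℝ) ^ p / (b : ℝ) ^ q - 1 = 2 / (b : ℝ) ^ q := by
      rw [heqR]; field_simp; ring
    linarith
  refine ⟨?_, hεle, ?_⟩
  · rw [hε1]
    apply Real.log_nonneg
    rw [le_div_iff₀ hbq, heqR]; linarith
  · refine hεle.trans ?_
    rw [div_le_one hbq]
    have : (3 : ℝ) ^ 1 ≤ (b : ℝ) ^ q := by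
      calc (3 : ℝ) ^ 1 ≤ (b : ℝ) ^ 1 := by simpa using hbR
        _ ≤ (b : ℝ) ^ q := pow_le_pow_right₀ (by linarith) hq
    linarith

lemma v_bound (ε B l h q j s L ρ T' K : ℝ) (hε0 : 0 ≤ ε) (hε : ε ≤ 2 / B)
    (hB : Real.exp (T' + K) ≤ B) (hq : 1 ≤ q) (hl : 35 ≤ l) (hh : 5 ≤ h)
    (hK : K = 2 * l ^ 3 * h ^ 2) (hL : L = 2 * l) (hρ : ρ = 2 * l ^ 2 * h)
    (hj0 : 0 ≤ j) (hs0 : 0 ≤ s) (hj : j ≤ L) (hs : s ≤ ρ) :
    0 ≤ j * s * (ε / q) ∧ j * s * (ε / q) ≤ Real.exp (-T') := by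
  have h1 : ε / q ≤ 2 * Real.exp (-(T' + K)) := by
    calc ε / q ≤ ε := div_le_self hε0 hq
      _ ≤ 2 / B := hε
      _ ≤ 2 / Real.exp (T' + K) := by
          have := Real.exp_pos (T' + K)
          gcongr
      _ = 2 * Real.exp (-(T' + K)) := by rw [Real.exp_neg]; rfl
  have h0 : 0 ≤ ε / q := by positivity
  have hL0 : 0 ≤ L := by rw [hL]; linarith
  have hρ0 : 0 ≤ ρ := by rw [hρ]; positivity
  have h8 := K_exp l h hl hh
  rw [← hK] at h8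
  refine ⟨by positivity, ?_⟩
  calc j * s * (ε / q) ≤ L * ρ * (2 * Real.exp (-(T' + K))) := by
        gcongr
    _ = (8 * l ^ 3 * h) * Real.exp (-(T' + K)) := by rw [hL, hρ]; ring
    _ ≤ Real.exp K * Real.exp (-(T' + K)) := by
        have := Real.exp_pos (-(T' + K))
        gcongr
    _ = Real.exp (-T') := by rw [← Real.exp_add]; congr 1; ring

lemma x_bound (r s q p l h L ρ : ℝ) (hl : 35 ≤ l) (hh : 5 ≤ h) (hL : L = 2 * l) (hρ : ρ = 2 * l ^ 2 * h)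
    (hr0 : 0 ≤ r) (hs0 : 0 ≤ s) (hr : r ≤ L + ρ) (hs : s ≤ ρ) (hq : 1 ≤ q) (hqp : q ≤ p) :
    r * q + s * p ≤ 5 * l ^ 2 * h * p := by
  have hL0 : 0 ≤ L := by rw [hL]; linarith
  have hρ0 : 0 ≤ ρ := by rw [hρ]; positivity
  have hp0 : 0 ≤ p := by linarith
  calc r * q + s * p ≤ (L + ρ) * p + ρ * p := by gcongr
    _ = (2 * l + 4 * l ^ 2 * h) * p := by rw [hL, hρ]; ring
    _ ≤ (5 * l ^ 2 * h) * p := by
        apply mul_le_mul_of_nonneg_right _ (by linarith)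
        have h1 : l * 2 ≤ l * (l * h) := by
          have : (2 : ℝ) ≤ l * h := by nlinarith
          gcongr
        have h2 : l * (l * h) = l ^ 2 * h := by ring
        linarith

lemma u_bound (j r s q la pl l h L ρ : ℝ) (hl : 35 ≤ l) (hh : 5 ≤ h) (hL : L = 2 * l)
    (hρ : ρ = 2 * l ^ 2 * h) (hj0 : 0 ≤ j) (hr0 : 0 ≤ r) (hs0 : 0 ≤ s) (hj : j ≤ L)
    (hr : r ≤ L + ρ) (hs : s ≤ ρ) (hla0 : 0 ≤ la) (hla : la ≤ h) (hpl0 : 0 ≤ pl) (hpl : pl ≤ h + 1) :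
    j * (r * la + s * pl) ≤ 9 * l ^ 3 * h ^ 2 := by
  have hL0 : 0 ≤ L := by rw [hL]; linarith
  have hρ0 : 0 ≤ ρ := by rw [hρ]; positivity
  calc j * (r * la + s * pl) ≤ L * ((L + ρ) * h + ρ * (h + 1)) := by gcongr
    _ = 4 * (l ^ 2 * h) + 8 * l ^ 3 * h ^ 2 + 4 * (l ^ 3 * h) := by rw [hL, hρ]; ring
    _ ≤ 9 * l ^ 3 * h ^ 2 := by
        have h2 : 0 ≤ l ^ 2 * h := by positivity
        have h3 : (l ^ 2 * h) * 35 ≤ (l ^ 2 * h) * l := by gcongr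
        have h3' : (l ^ 2 * h) * l = l ^ 3 * h := by ring
        have h5 : 0 ≤ l ^ 3 * h := by positivity
        have h4 : (l ^ 3 * h) * 5 ≤ (l ^ 3 * h) * h := by gcongr
        have h4' : (l ^ 3 * h) * h = l ^ 3 * h ^ 2 := by ring
        linarith

/-- the final numerical contradiction -/
lemma final_num (T K l h X0 M δ T' : ℝ) (Kn Tn : ℕ) (hKn : (Kn : ℝ) = K) (hTn : (Tn : ℝ) = T) (hTn1 : 1 ≤ Tn)
    (hl : 35 ≤ l) (hh : 5 ≤ h) (hK : K = 2 * l ^ 3 * h ^ 2) (hT : T = K * l) (hT' : T' = K * (l - 1))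
    (hX0 : 1 ≤ X0) (hX : X0 ^ 2 ≤ Real.exp (l - 11))
    (hM : M = X0 ^ Kn * Real.exp (9 * l ^ 3 * h ^ 2)) (hδ : δ = 2 * M * Real.exp (-T')) :
    2 ^ (2 * Tn) * (((2 * Tn).factorial : ℝ) * (M ^ Tn * δ ^ Tn)) < 1 := by
  have hKbig := K_big l h hl hh
  rw [← hK] at hKbig
  have hM0 : 0 < M := by rw [hM]; positivity
  have hδ0 : 0 < δ := by rw [hδ]; positivity
  have h1 : ((2 * Tn).factorial : ℝ) ≤ (2 * T) ^ (2 * Tn) := by
    have h2 := Nat.factorial_le_pow (2 * Tn)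
    have h3 : ((2 * Tn).factorial : ℝ) ≤ ((2 * Tn : ℕ) : ℝ) ^ (2 * Tn) := by exact_mod_cast h2
    have h4 : ((2 * Tn : ℕ) : ℝ) = 2 * T := by push_cast; rw [hTn]
    rwa [h4] at h3
  have hkey : 16 * T ^ 2 * (M * δ) < 1 := by
    have hM2 : M * δ ≤ 2 * Real.exp (K * (l - 11) + 9 * K - K * (l - 1)) := by
      have h2 : (X0 ^ Kn) ^ 2 ≤ Real.exp (K * (l - 11)) := by
        rw [← pow_mul, mul_comm Kn 2, pow_mul]
        calc (X0 ^ 2) ^ Kn ≤ (Real.exp (l - 11)) ^ Kn := by gcongr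
          _ = Real.exp (K * (l - 11)) := by rw [← Real.exp_nat_mul, hKn]
      have h3 : M * δ = 2 * ((X0 ^ Kn) ^ 2 * (Real.exp (9 * K) * Real.exp (-T'))) := by
        rw [hδ, hM]
        have : Real.exp (9 * K) = Real.exp (9 * l ^ 3 * h ^ 2) * Real.exp (9 * l ^ 3 * h ^ 2) := by
          rw [← Real.exp_add]; congr 1; rw [hK]; ring
        rw [this]; ring
      rw [h3]
      calc 2 * ((X0 ^ Kn) ^ 2 * (Real.exp (9 * K) * Real.exp (-T')))
          ≤ 2 * (Real.exp (K * (l - 11)) * (Real.exp (9 * K) * Real.exp (-T'))) := by gcongr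
        _ = 2 * Real.exp (K * (l - 11) + 9 * K - K * (l - 1)) := by
            rw [← Real.exp_add, ← Real.exp_add, hT']; congr 2; ring
    have h4 : K * (l - 11) + 9 * K - K * (l - 1) = -K := by ring
    rw [h4] at hM2
    have h5 : K ^ 5 / ((5).factorial : ℝ) ≤ Real.exp K :=
      Real.pow_div_factorial_le_exp _ (by linarith) 5
    have h6 : (l : ℝ) ^ 2 ≤ K := by
      rw [hK]
      have h7 : l ^ 2 * 1 ≤ l ^ 2 * (2 * l * h ^ 2) := by
        have : 1 ≤ 2 * l * h ^ 2 := by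
          have h8 : (1 : ℝ) ≤ h ^ 2 := one_le_pow₀ (by linarith)
          nlinarith
        gcongr
      have h8 : l ^ 2 * (2 * l * h ^ 2) = 2 * l ^ 3 * h ^ 2 := by ring
      linarith
    have h7 : 32 * T ^ 2 ≤ 32 * K ^ 3 := by
      rw [hT, mul_pow]
      have : K ^ 2 * l ^ 2 ≤ K ^ 2 * K := by gcongr
      nlinarith
    have h8 : 32 * K ^ 3 < K ^ 5 / ((5).factorial : ℝ) := by
      have e1 : ((5).factorial : ℝ) = 120 := by norm_num [Nat.factorial]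
      rw [e1, lt_div_iff₀ (by norm_num)]
      have h9 : (85750 : ℝ) ^ 2 ≤ K ^ 2 := by gcongr
      have h10 : 0 < K ^ 3 := by positivity
      have h11 : K ^ 5 = K ^ 3 * K ^ 2 := by ring
      rw [h11]
      nlinarith
    calc 16 * T ^ 2 * (M * δ) ≤ 16 * T ^ 2 * (2 * Real.exp (-K)) := by gcongr
      _ = 32 * T ^ 2 * Real.exp (-K) := by ring
      _ < Real.exp K * Real.exp (-K) := by
          have := Real.exp_pos (-K)
          have h12 : 32 * T ^ 2 < Real.exp K := by linarith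
          gcongr
      _ = 1 := by rw [← Real.exp_add]; simp
  have h0 : 0 ≤ 16 * T ^ 2 * (M * δ) := by positivity
  calc 2 ^ (2 * Tn) * (((2 * Tn).factorial : ℝ) * (M ^ Tn * δ ^ Tn))
      ≤ 2 ^ (2 * Tn) * ((2 * T) ^ (2 * Tn) * (M ^ Tn * δ ^ Tn)) := by gcongr
    _ = (16 * T ^ 2 * (M * δ)) ^ Tn := by
        rw [pow_mul, pow_mul, ← mul_pow, ← mul_pow, ← mul_pow]
        congr 1; ring
    _ < 1 := pow_lt_one₀ h0 hkey (by omega)

end Pool.Agent.R605.Pillai
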