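import Pool.Agent.R605.M3b
set_option autoImplicit false
namespace Pool.Agent.R605.Pillai
open Finset Polynomial

lemma exp2G (l h : ℝ) (hl : 35 ≤ l) (hh : 5 ≤ h) :
    Real.exp 2 * (9 * l ^ 3 * h ^ 2) ≤ (2 * l ^ 3 * h ^ 2) * (l - 1) := by
  have h1 : Real.exp 2 < 7.5 := by
    have h2 : Real.exp 2 = Real.exp 1 * Real.exp 1 := by rw [← Real.exp_add]; norm_num
    rw [h2]
    have h3 := Real.exp_one_lt_d9
    have h4 := Real.exp_pos 1
    nlinarith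
  have h5 : 0 ≤ l ^ 3 * h ^ 2 := by positivity
  calc Real.exp 2 * (9 * l ^ 3 * h ^ 2) ≤ 7.5 * (9 * l ^ 3 * h ^ 2) := by gcongr
    _ = 67.5 * (l ^ 3 * h ^ 2) := by ring
    _ ≤ (2 * (l - 1)) * (l ^ 3 * h ^ 2) := by
        apply mul_le_mul_of_nonneg_right _ h5
        linarith
    _ = (2 * l ^ 3 * h ^ 2) * (l - 1) := by ring

lemma entry_err (u v S τ : ℝ) (h1 : 0 ≤ Real.exp u - S) (h2 : Real.exp u - S ≤ τ * Real.exp u)
    (hv0 : 0 ≤ v) (hv : v ≤ τ) : |Real.exp u * Real.exp (-v) - S| ≤ 2 * τ * Real.exp u := by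
  have hu := Real.exp_pos u
  have h3 : Real.exp (-v) ≤ 1 := by rw [Real.exp_le_one_iff]; linarith
  have h4 : 1 - v ≤ Real.exp (-v) := by have := Real.add_one_le_exp (-v); linarith
  have h5 : 0 ≤ Real.exp u * (1 - Real.exp (-v)) := mul_nonneg hu.le (by linarith)
  have h6 : Real.exp u * (1 - Real.exp (-v)) ≤ τ * Real.exp u := by
    rw [mul_comm τ]
    exact mul_le_mul_of_nonneg_left (by linarith) hu.le
  rw [abs_le]
  constructor <;> linarith [h5, h6, (by ring : Real.exp u * (1 - Real.exp (-v)) = Real.exp u - Real.exp u * Real.exp (-v))]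

theorem core (a b p q l h : ℕ) (ha : 2 ≤ a) (hab : a < b)
    (hpq : Nat.Coprime p q) (hq : 1 ≤ q) (hqp : q ≤ p) (heq : a ^ p = b ^ q + 2) (hh : 5 ≤ h)
    (hl : 35 ≤ l) (hbh : Real.log b ≤ h)
    (hA : (5 * (l : ℝ) ^ 2 * h * p) ^ 2 ≤ Real.exp ((l : ℝ) - 11))
    (hB : Real.exp (2 * (l : ℝ) ^ 4 * (h : ℝ) ^ 2) ≤ (b : ℝ) ^ q) : False := by
  classical
  obtain ⟨K, hK⟩ : ∃ K, K = 2 * l ^ 3 * h ^ 2 := ⟨_, rfl⟩
  obtain ⟨L, hL⟩ : ∃ L, L = 2 * l := ⟨_, rfl⟩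
  obtain ⟨ρ, hρ⟩ : ∃ ρ, ρ = 2 * l ^ 2 * h := ⟨_, rfl⟩
  obtain ⟨T', hT'⟩ : ∃ T', T' = K * (l - 1) := ⟨_, rfl⟩
  obtain ⟨T, hT⟩ : ∃ T, T = K * l := ⟨_, rfl⟩
  have haR : (2 : ℝ) ≤ a := by exact_mod_cast ha
  have hbN : 3 ≤ b := by omega
  have hbR : (3 : ℝ) ≤ b := by exact_mod_cast hbN
  have hlR : (35 : ℝ) ≤ l := by exact_mod_cast hl
  have hhR : (5 : ℝ) ≤ h := by exact_mod_cast hh
  have hqR : (1 : ℝ) ≤ q := by exact_mod_cast hq
  have hpR : (q : ℝ) ≤ p := by exact_mod_cast hqp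
  have hKR : (K : ℝ) = 2 * (l : ℝ) ^ 3 * (h : ℝ) ^ 2 := by rw [hK]; push_cast; ring
  have hLR : (L : ℝ) = 2 * l := by rw [hL]; push_cast; ring
  have hρR : (ρ : ℝ) = 2 * (l : ℝ) ^ 2 * h := by rw [hρ]; push_cast; ring
  have hT'R : (T' : ℝ) = K * ((l : ℝ) - 1) := by
    rw [hT', Nat.cast_mul, Nat.cast_sub (by omega)]; push_cast; ring
  have hTR : (T : ℝ) = K * l := by rw [hT]; push_cast; ring
  have hK1 : 1 ≤ K := by rw [hK]; exact Nat.one_le_iff_ne_zero.2 (by positivity)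
  have hL1 : 1 ≤ L := by omega
  have hKbig : (85750 : ℝ) ≤ K := by
    rw [hKR]
    have h1 : (35 : ℝ) ^ 3 ≤ (l : ℝ) ^ 3 := by gcongr
    have h2 : (1 : ℝ) ≤ (h : ℝ) ^ 2 := one_le_pow₀ (by linarith)
    nlinarith
  -- q is large
  have hlogB : 2 * (l : ℝ) ^ 4 * (h : ℝ) ^ 2 ≤ q * Real.log b := by
    have h1 := Real.log_le_log (Real.exp_pos _) hB
    rwa [Real.log_exp, Real.log_pow] at h1
  have hρq : ρ ≤ q := by
    have h1 : 2 * (l : ℝ) ^ 4 * (h : ℝ) ^ 2 ≤ q * h := hlogB.trans (by gcongr)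
    have h2 : 2 * (l : ℝ) ^ 4 * (h : ℝ) ≤ q := by
      have h3 : 2 * (l : ℝ) ^ 4 * (h : ℝ) * h ≤ q * h := by linarith [h1, (by ring : 2 * (l : ℝ) ^ 4 * (h : ℝ) * h = 2 * (l : ℝ) ^ 4 * (h : ℝ) ^ 2)]
      exact le_of_mul_le_mul_right h3 (by linarith)
    have h3 : (ρ : ℝ) ≤ q := by
      rw [hρR]
      have h4 : (l : ℝ) ^ 2 ≤ (l : ℝ) ^ 4 := pow_le_pow_right₀ (by linarith) (by norm_num)
      calc (2 : ℝ) * (l : ℝ) ^ 2 * (h : ℝ) ≤ 2 * (l : ℝ) ^ 4 * (h : ℝ) := by gcongr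
        _ ≤ (q : ℝ) := h2
    exact_mod_cast h3
  have hdist : ∀ r s r' s' : ℕ, r < ρ → s < ρ → r' < ρ → s' < ρ →
      r * q + s * p = r' * q + s' * p → r = r' ∧ s = s' := by
    intro r s r' s' _ hs _ hs' he
    have h1 : s * p ≡ s' * p [MOD q] := by
      have h2 : (r * q + s * p) % q = (r' * q + s' * p) % q := by rw [he]
      rw [Nat.mul_add_mod', Nat.mul_add_mod'] at h2
      exact h2
    have h2 : s ≡ s' [MOD q] := Nat.ModEq.cancel_right_of_coprime (by rw [Nat.gcd_comm]; exact hpq) h1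
    have h3 : s = s' := Nat.ModEq.eq_of_lt_of_lt h2 (by omega) (by omega)
    subst h3
    have h4 : r * q = r' * q := by omega
    exact ⟨Nat.eq_of_mul_eq_mul_right (by omega) h4, rfl⟩
  -- the matrix
  set A : (Fin K × Fin L) → (Fin (L + ρ) × Fin ρ) → ℝ := fun i z =>
    (((z.1 : ℕ) * q + (z.2 : ℕ) * p : ℕ) : ℝ) ^ (i.1 : ℕ) *
      ((a : ℝ) ^ (z.1 : ℕ) * (b : ℝ) ^ (z.2 : ℕ)) ^ (i.2 : ℕ) with hAdef
  obtain ⟨g, hg⟩ := exists_minor A (by
    intro c hc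
    have hz := zero_estimate a b p q K L ρ ρ ha (by omega) hdist
      (by rw [hK, hL, hρ]; exact le_of_eq (by ring)) hL1 hK1
      (fun i j => if hij : i < K ∧ j < L then c (⟨i, hij.1⟩, ⟨j, hij.2⟩) else 0) (by
      intro r hr s hs
      have h1 := hc (⟨r, hr⟩, ⟨s, hs⟩)
      rw [Fintype.sum_prod_type] at h1
      rw [← h1, Finset.sum_range]
      apply Finset.sum_congr rfl
      intro i _
      rw [Finset.sum_range]
      apply Finset.sum_congr rfl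
      intro j _
      rw [dif_pos ⟨i.2, j.2⟩]
      simp only [hAdef]
      ring)
    ext ⟨i, j⟩
    have h1 := hz i i.2 j j.2
    rw [dif_pos ⟨i.2, j.2⟩] at h1
    exact h1)
  -- the determinant is a nonzero integer
  have hdet1 : 1 ≤ |(Matrix.of fun i n => A i (g n)).det| := by
    set Ai : Matrix (Fin K × Fin L) (Fin K × Fin L) ℤ := Matrix.of fun i n =>
      ((((g n).1 : ℕ) * q + ((g n).2 : ℕ) * p : ℕ) : ℤ) ^ (i.1 : ℕ) *
      ((a : ℤ) ^ ((g n).1 : ℕ) * (b : ℤ) ^ ((g n).2 : ℕ)) ^ (i.2 : ℕ) with hAi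
    have h1 : (Matrix.of fun i n => A i (g n)).det = ((Ai.det : ℤ) : ℝ) := by
      have h2 := (Int.castRingHom ℝ).map_det Ai
      have h3 : ((Ai.det : ℤ) : ℝ) = (Int.castRingHom ℝ) Ai.det := rfl
      rw [h3, h2]
      congr 1
      ext i n
      simp [hAi, hAdef]
    rw [h1] at hg ⊢
    have h2 : Ai.det ≠ 0 := by exact_mod_cast hg
    have h3 := Int.one_le_abs h2
    exact_mod_cast h3
  clear hg
  obtain ⟨hε0, hεle, hε1⟩ := eps_facts a b p q ha hbN hq heq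
  have hTT' : T = K + T' := by
    rw [hT, hT']
    obtain ⟨l', rfl⟩ : ∃ l', l = l' + 1 := ⟨l - 1, by omega⟩
    simp; ring
  set ω : ℝ := Real.log a / q with hω
  set x : (Fin (L + ρ) × Fin ρ) → ℝ := fun z => (((z.1 : ℕ) * q + (z.2 : ℕ) * p : ℕ) : ℝ) with hx
  set Q : (Fin K × Fin L) → ℝ[X] := fun i => X ^ (i.1 : ℕ) *
    ∑ k ∈ range T', C ((((i.2 : ℕ) : ℝ) * ω) ^ k / (k.factorial : ℝ)) * X ^ k with hQ
  have hQdeg : ∀ i, (Q i).natDegree < T := by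
    intro i
    have h1 : (∑ k ∈ range T', C ((((i.2 : ℕ) : ℝ) * ω) ^ k / (k.factorial : ℝ)) * X ^ k).natDegree ≤ T' - 1 :=
      natDegree_sum_le_of_forall_le _ _ (fun k hk => (natDegree_C_mul_X_pow_le _ _).trans (by
        have := mem_range.1 hk; omega))
    have h2 : (Q i).natDegree ≤ i.1 + (T' - 1) :=
      natDegree_mul_le.trans (add_le_add (natDegree_X_pow_le _) h1)
    have h3 := i.1.2
    have h4 : 1 ≤ T' := by
      rw [hT']; exact Nat.one_le_iff_ne_zero.2 (Nat.mul_ne_zero (by omega) (by omega))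
    omega
  have hQev : ∀ i z, (Q i).eval (x z) = x z ^ (i.1 : ℕ) *
      ∑ k ∈ range T', (((i.2 : ℕ) : ℝ) * ω * x z) ^ k / (k.factorial : ℝ) := by
    intro i z
    simp only [hQ, eval_mul, eval_pow, eval_X, eval_finsetSum, eval_C]
    congr 1
    apply Finset.sum_congr rfl
    intro k _
    rw [mul_pow _ (x z)]; ring
  obtain ⟨G, hG⟩ : ∃ G : ℝ, G = 9 * (l : ℝ) ^ 3 * (h : ℝ) ^ 2 := ⟨_, rfl⟩
  obtain ⟨X0, hX0⟩ : ∃ X0 : ℝ, X0 = 5 * (l : ℝ) ^ 2 * h * p := ⟨_, rfl⟩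
  obtain ⟨M, hM⟩ : ∃ M : ℝ, M = X0 ^ K * Real.exp G := ⟨_, rfl⟩
  obtain ⟨δ, hδ⟩ : ∃ δ : ℝ, δ = 2 * M * Real.exp (-(T' : ℝ)) := ⟨_, rfl⟩
  have hX01 : 1 ≤ X0 := by
    rw [hX0]
    have h1 : (1 : ℝ) ≤ (l : ℝ) ^ 2 := one_le_pow₀ (by linarith)
    have h2 : (1 : ℝ) ≤ (l : ℝ) ^ 2 * h := by
      calc (1 : ℝ) = 1 * 1 := by ring
        _ ≤ (l : ℝ) ^ 2 * h := by gcongr; linarith
    have h3 : (1 : ℝ) ≤ (l : ℝ) ^ 2 * h * p := by
      calc (1 : ℝ) = 1 * 1 := by ring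
        _ ≤ (l : ℝ) ^ 2 * h * p := by gcongr; linarith
    linarith
  have hM0 : 0 < M := by rw [hM]; positivity
  have hδ0 : 0 < δ := by rw [hδ]; positivity
  have hT'1 : (1 : ℝ) ≤ T' := by
    have : 1 ≤ T' := by
      rw [hT']; exact Nat.one_le_iff_ne_zero.2 (Nat.mul_ne_zero (by omega) (by omega))
    exact_mod_cast this
  have hδM : δ ≤ M := by
    have h1 : Real.exp (-(T' : ℝ)) ≤ 1 / 2 := by
      have h2 : (2 : ℝ) ≤ Real.exp T' := by
        have := Real.add_one_le_exp (T' : ℝ); linarith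
      rw [Real.exp_neg, one_div]
      exact inv_anti₀ (by norm_num) h2
    rw [hδ]
    calc 2 * M * Real.exp (-(T' : ℝ)) ≤ 2 * M * (1 / 2) := by gcongr
      _ = M := by ring
  have hloga : 0 ≤ Real.log a := Real.log_nonneg (by linarith)
  have hlogab : Real.log a ≤ h := by
    refine le_trans ?_ hbh
    exact Real.log_le_log (by linarith) (by exact_mod_cast hab.le)
  have hplog : p * Real.log a / q ≤ h + 1 := by
    rw [div_le_iff₀ (by linarith)]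
    have h2 : q * Real.log b ≤ q * h := by gcongr
    linarith [hε1, h2, hqR, (by ring : (h + 1 : ℝ) * q = q * h + q)]
  -- bounds for the points
  have hpt : ∀ (i : Fin K × Fin L) (z : Fin (L + ρ) × Fin ρ),
      0 ≤ x z ∧ x z ≤ X0 ∧ 0 ≤ ((i.2 : ℕ) : ℝ) * ω * x z ∧ ((i.2 : ℕ) : ℝ) * ω * x z ≤ G ∧
      0 ≤ ((i.2 : ℕ) : ℝ) * ((z.2 : ℕ) : ℝ) * ((p * Real.log a - q * Real.log b) / q) ∧
      ((i.2 : ℕ) : ℝ) * ((z.2 : ℕ) : ℝ) * ((p * Real.log a - q * Real.log b) / q) ≤ Real.exp (-(T' : ℝ)) := by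
    intro i z
    have hjR : ((i.2 : ℕ) : ℝ) ≤ L := by exact_mod_cast i.2.2.le
    have hrR : ((z.1 : ℕ) : ℝ) ≤ L + ρ := by exact_mod_cast z.1.2.le
    have hsR : ((z.2 : ℕ) : ℝ) ≤ ρ := by exact_mod_cast z.2.2.le
    have hx0 : 0 ≤ x z := Nat.cast_nonneg _
    have hω0 : 0 ≤ ω := by rw [hω]; positivity
    have hxz : x z = ((z.1 : ℕ) : ℝ) * q + ((z.2 : ℕ) : ℝ) * p := by rw [hx]; push_cast; ring
    refine ⟨hx0, ?_, by positivity, ?_, ?_⟩
    · rw [hxz, hX0]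
      exact x_bound _ _ _ _ _ _ _ _ hlR hhR hLR hρR (Nat.cast_nonneg _) (Nat.cast_nonneg _) hrR hsR hqR hpR
    · have hq0 : (q : ℝ) ≠ 0 := by linarith
      have e1 : ((i.2 : ℕ) : ℝ) * ω * x z =
          ((i.2 : ℕ) : ℝ) * (((z.1 : ℕ) : ℝ) * Real.log a + ((z.2 : ℕ) : ℝ) * (p * Real.log a / q)) := by
        rw [hxz, hω]; field_simp
      rw [e1, hG]
      exact u_bound _ _ _ q _ _ _ _ _ _ hlR hhR hLR hρR (Nat.cast_nonneg _) (Nat.cast_nonneg _)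
        (Nat.cast_nonneg _) hjR hrR hsR hloga hlogab (by positivity) hplog
    · exact v_bound _ ((b : ℝ) ^ q) l h q _ _ _ _ _ K hε0 hεle (by
        have e1 : (T' : ℝ) + K = 2 * (l : ℝ) ^ 4 * (h : ℝ) ^ 2 := by rw [hT'R, hKR]; ring
        rw [e1]; exact hB) hqR hlR hhR hKR hLR hρR (Nat.cast_nonneg _) (Nat.cast_nonneg _) hjR hsR
  set U : Matrix (Fin K × Fin L) (Fin K × Fin L) ℝ := Matrix.of fun i n => (Q i).eval (x (g n)) with hUdef
  set E : Matrix (Fin K × Fin L) (Fin K × Fin L) ℝ := Matrix.of fun i n =>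
    A i (g n) - (Q i).eval (x (g n)) with hEdef
  have hUE : (Matrix.of fun i n => A i (g n)) = U + E := by
    ext i n; simp [hUdef, hEdef]
  have hbd := det_bound T (by simp [hT, hL]; ring) U E (fun k n => x (g n) ^ (k : ℕ))
    (fun i k => (Q i).coeff k) (by
      intro i
      ext n
      simp only [hUdef, Matrix.of_apply, Finset.sum_apply, Pi.smul_apply, smul_eq_mul]
      rw [eval_eq_sum_range' (hQdeg i), Finset.sum_range]) M δ hδ0.le hδM (by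
      intro i n
      obtain ⟨h1, h2, h3, h4, _, _⟩ := hpt i (g n)
      simp only [hUdef, Matrix.of_apply]
      rw [hQev, abs_mul, abs_of_nonneg (pow_nonneg h1 _), abs_of_nonneg (Finset.sum_nonneg fun k _ => by positivity), hM]
      have h5 : x (g n) ^ (i.1 : ℕ) ≤ X0 ^ K :=
        (pow_le_pow_left₀ h1 h2 _).trans (pow_le_pow_right₀ hX01 i.1.2.le)
      have h6 := (Real.sum_le_exp_of_nonneg h3 T').trans (Real.exp_le_exp.2 h4)
      exact mul_le_mul h5 h6 (Finset.sum_nonneg fun k _ => by positivity) (by positivity)) (by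
      intro i n
      obtain ⟨h1, h2, h3, h4, h5, h6⟩ := hpt i (g n)
      simp only [hEdef, Matrix.of_apply]
      have e1 : A i (g n) = x (g n) ^ (i.1 : ℕ) * (Real.exp (((i.2 : ℕ) : ℝ) * ω * x (g n)) *
          Real.exp (-(((i.2 : ℕ) : ℝ) * (((g n).2 : ℕ) : ℝ) * ((p * Real.log a - q * Real.log b) / q)))) := by
        simp only [hAdef]
        rw [entry_eq a b p q _ _ _ (by omega) (by omega) (by omega)]
      rw [e1, hQev, ← mul_sub, abs_mul, abs_of_nonneg (pow_nonneg h1 _)]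
      have h7 : Real.exp 2 * G ≤ T' := by
        rw [hG, hT'R, hKR]; exact exp2G l h hlR hhR
      have h8 := taylor_small _ G T' h3 h4 (by exact_mod_cast (by linarith : (0 : ℝ) < T')) h7
      have h9 := exp_taylor _ h3 T'
      have h10 := Real.sum_le_exp_of_nonneg h3 T'
      have h11 : Real.exp (((i.2 : ℕ) : ℝ) * ω * x (g n)) -
          ∑ k ∈ range T', (((i.2 : ℕ) : ℝ) * ω * x (g n)) ^ k / (k.factorial : ℝ) ≤
          Real.exp (-(T' : ℝ)) * Real.exp (((i.2 : ℕ) : ℝ) * ω * x (g n)) :=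
        h9.trans (mul_le_mul_of_nonneg_right h8 (Real.exp_pos _).le)
      have h12 := entry_err _ _ _ _ (by linarith) h11 h5 h6
      have h13 : x (g n) ^ (i.1 : ℕ) ≤ X0 ^ K :=
        (pow_le_pow_left₀ h1 h2 _).trans (pow_le_pow_right₀ hX01 i.1.2.le)
      calc _ ≤ X0 ^ K * (2 * Real.exp (-(T' : ℝ)) * Real.exp (((i.2 : ℕ) : ℝ) * ω * x (g n))) := by
            gcongr
        _ ≤ X0 ^ K * (2 * Real.exp (-(T' : ℝ)) * Real.exp G) := by gcongr
        _ = δ := by rw [hδ, hM]; ring)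
  rw [← hUE] at hbd
  have hfin := final_num T K l h X0 M δ T' K T rfl rfl
    (by rw [hT]; exact Nat.one_le_iff_ne_zero.2 (Nat.mul_ne_zero (by omega) (by omega))) hlR hhR hKR hTR hT'R hX01
    (by rw [hX0]; exact hA) (by rw [hM, hG]) hδ
  linarith

end Pool.Agent.R605.Pillai
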