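import Pool.Agent.R605.M4
set_option autoImplicit false
namespace Pool.Agent.R605.Pillai

lemma exp_ge_pow (u c : ℝ) (n : ℕ) (hn : 1 ≤ n) (hc : (n : ℝ) ≤ c) (hu : c ≤ u) :
    Real.exp c * (u / c) ^ n ≤ Real.exp u := by
  have hn' : (0 : ℝ) < n := by exact_mod_cast hn
  have hc0 : 0 < c := by linarith
  have h1 : u / c ≤ Real.exp ((u - c) / n) := by
    have h2 := Real.add_one_le_exp ((u - c) / n)
    have h3 : u / c ≤ (u - c) / n + 1 := by
      have h4 : (u - c) / c ≤ (u - c) / n := by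
        apply div_le_div_of_nonneg_left (by linarith) hn' hc
      have h5 : u / c = (u - c) / c + 1 := by field_simp; ring
      linarith
    linarith
  have h2 : Real.exp u = Real.exp c * (Real.exp ((u - c) / n)) ^ n := by
    rw [← Real.exp_nat_mul, ← Real.exp_add]; congr 1; field_simp; ring
  rw [h2]
  have h3 : 0 ≤ u / c := div_nonneg (by linarith) hc0.le
  gcongr

lemma num_A (u : ℝ) (hu : 25 ≤ u) : 175 * u ^ 3 ≤ Real.exp (u - 5.5) := by
  have h1 := exp_ge_pow (u - 5.5) 19.5 3 (by norm_num) (by norm_num) (by linarith)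
  have h2 : (2.7 : ℝ) ^ 19 ≤ Real.exp 19.5 := by
    have h3 : Real.exp 19 = Real.exp 1 ^ 19 := by rw [← Real.exp_nat_mul]; norm_num
    have h4 : (2.7 : ℝ) ≤ Real.exp 1 := by have := Real.exp_one_gt_d9; linarith
    calc (2.7 : ℝ) ^ 19 ≤ Real.exp 1 ^ 19 := by gcongr
      _ = Real.exp 19 := h3.symm
      _ ≤ Real.exp 19.5 := Real.exp_le_exp.2 (by norm_num)
  have h3 : 0.78 * u ≤ u - 5.5 := by linarith
  have h4 : (0.78 * u / 19.5) ^ 3 ≤ ((u - 5.5) / 19.5) ^ 3 := by gcongr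
  calc 175 * u ^ 3 ≤ (2.7 : ℝ) ^ 19 * (0.78 * u / 19.5) ^ 3 := by
        have h5 : (0.78 * u / 19.5) ^ 3 = (0.78 / 19.5) ^ 3 * u ^ 3 := by ring
        rw [h5, ← mul_assoc]
        have h6 : 0 ≤ u ^ 3 := by positivity
        apply mul_le_mul_of_nonneg_right _ h6
        norm_num
    _ ≤ Real.exp 19.5 * ((u - 5.5) / 19.5) ^ 3 := by gcongr
    _ ≤ _ := h1

theorem core2 (a b p q : ℕ) (ha : 2 ≤ a) (hab : a < b) (hpq : Nat.Coprime p q) (hq : 1 ≤ q)
    (hqp : q ≤ p) (heq : a ^ p = b ^ q + 2) (hu : 25 ≤ Real.log p)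
    (hb : Real.log b ≤ 2.1 * Real.log p) (hmain : 2500 * Real.log p ^ 6 ≤ p * Real.log a) : False := by
  obtain ⟨u, hu'⟩ : ∃ u, u = Real.log p := ⟨_, rfl⟩
  rw [← hu'] at hu hb hmain
  have hp0 : (0 : ℝ) < p := by
    have : 0 < p := by omega
    exact_mod_cast this
  have hpe : (p : ℝ) = Real.exp u := by rw [hu', Real.exp_log hp0]
  obtain ⟨h, hh⟩ : ∃ h, h = ⌈2.1 * u⌉₊ := ⟨_, rfl⟩
  obtain ⟨l, hl⟩ : ∃ l, l = ⌈4 * u⌉₊ := ⟨_, rfl⟩
  have hh1 : 2.1 * u ≤ h := by rw [hh]; exact Nat.le_ceil _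
  have hh2 : (h : ℝ) ≤ 2.14 * u := by
    have := Nat.ceil_lt_add_one (by linarith : 0 ≤ 2.1 * u)
    rw [← hh] at this; linarith
  have hl1 : 4 * u ≤ l := by rw [hl]; exact Nat.le_ceil _
  have hl2 : (l : ℝ) ≤ 4.04 * u := by
    have := Nat.ceil_lt_add_one (by linarith : 0 ≤ 4 * u)
    rw [← hl] at this; linarith
  have hh5 : 5 ≤ h := by
    have : (5 : ℝ) ≤ h := by linarith
    exact_mod_cast this
  have hl35 : 35 ≤ l := by
    have : (35 : ℝ) ≤ l := by linarith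
    exact_mod_cast this
  refine core a b p q l h ha hab hpq hq hqp heq hh5 hl35 (hb.trans hh1) ?_ ?_
  · have h1 : 5 * (l : ℝ) ^ 2 * h * p ≤ Real.exp (2 * u - 5.5) := by
      calc 5 * (l : ℝ) ^ 2 * h * p ≤ 5 * (4.04 * u) ^ 2 * (2.14 * u) * p := by gcongr
        _ ≤ (175 * u ^ 3) * p := by
            apply mul_le_mul_of_nonneg_right _ hp0.le
            have : 0 ≤ u ^ 3 := by positivity
            have e1 : 5 * (4.04 * u) ^ 2 * (2.14 * u) = (5 * 4.04 ^ 2 * 2.14) * u ^ 3 := by ring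
            rw [e1]
            apply mul_le_mul_of_nonneg_right _ this
            norm_num
        _ ≤ Real.exp (u - 5.5) * Real.exp u := by
            rw [hpe]
            apply mul_le_mul_of_nonneg_right (num_A u hu) (Real.exp_pos _).le
        _ = Real.exp (2 * u - 5.5) := by rw [← Real.exp_add]; congr 1; ring
    calc (5 * (l : ℝ) ^ 2 * h * p) ^ 2 ≤ (Real.exp (2 * u - 5.5)) ^ 2 := by gcongr
      _ = Real.exp (4 * u - 11) := by rw [← Real.exp_nat_mul]; congr 1; push_cast; ring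
      _ ≤ Real.exp (l - 11) := Real.exp_le_exp.2 (by linarith)
  · have h1 : 2 * (l : ℝ) ^ 4 * (h : ℝ) ^ 2 + 1 ≤ p * Real.log a := by
      calc 2 * (l : ℝ) ^ 4 * (h : ℝ) ^ 2 + 1 ≤ 2 * (4.04 * u) ^ 4 * (2.14 * u) ^ 2 + 1 * 1 := by gcongr; norm_num
        _ ≤ 2 * (4.04 * u) ^ 4 * (2.14 * u) ^ 2 + 1 * u ^ 6 := by
            have : (1 : ℝ) ≤ u ^ 6 := one_le_pow₀ (by linarith)
            gcongr
        _ = (2 * 4.04 ^ 4 * 2.14 ^ 2 + 1) * u ^ 6 := by ring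
        _ ≤ 2500 * u ^ 6 := by
            have : 0 ≤ u ^ 6 := by positivity
            apply mul_le_mul_of_nonneg_right _ this
            norm_num
        _ ≤ p * Real.log a := hmain
    have haR : (2 : ℝ) ≤ a := by exact_mod_cast ha
    have h2 : (a : ℝ) ^ p = Real.exp (p * Real.log a) := by
      rw [Real.exp_nat_mul, Real.exp_log (by linarith)]
    have h3 : (a : ℝ) ^ p = (b : ℝ) ^ q + 2 := by exact_mod_cast heq
    have h4 : Real.exp (2 * (l : ℝ) ^ 4 * (h : ℝ) ^ 2) * Real.exp 1 ≤ (a : ℝ) ^ p := by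
      rw [h2, ← Real.exp_add]; exact Real.exp_le_exp.2 h1
    have h5 : (2.7 : ℝ) ≤ Real.exp 1 := by have := Real.exp_one_gt_d9; linarith
    have h6 : 10 ≤ Real.exp (2 * (l : ℝ) ^ 4 * (h : ℝ) ^ 2) := by
      have h7 := Real.add_one_le_exp (2 * (l : ℝ) ^ 4 * (h : ℝ) ^ 2)
      have h8 : (1 : ℝ) ≤ (l : ℝ) ^ 4 := one_le_pow₀ (by linarith)
      have h9 : (5 : ℝ) ^ 2 ≤ (h : ℝ) ^ 2 := by gcongr; linarith
      have h10 : (1 : ℝ) * 5 ^ 2 ≤ (l : ℝ) ^ 4 * (h : ℝ) ^ 2 := by gcongr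
      have h11 : 2 * (l : ℝ) ^ 4 * (h : ℝ) ^ 2 = 2 * ((l : ℝ) ^ 4 * (h : ℝ) ^ 2) := by ring
      linarith
    nlinarith

end Pool.Agent.R605.Pillai
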