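import Pool.Agent.R605.SP
import Pool.Agent.R605.M5
set_option autoImplicit false
namespace Pool.Agent.R605.Pillai

/-- The finite check for (E2). -/
def good (d Z : ℕ) : Bool :=
  ([3, 5, 7, 11, 13, 17, 19, 23, 29, 41, 47, 53, 137, 257].any fun r =>
    ((Z - 1) ^ 2 / (if Z % 8 = 1 then 1 else 2)) % (r - 1) == 0 && !(d % r == 0) && !((Z - 1) % r == 0)) ||
  ([5, 43, 197].any fun q => (Z - 2) % q == 0) || Z == 19683

def chkAll : Bool :=
  (List.range 671).all fun d => (List.range 13).all fun x =>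
    d < 3 || x < 2 || d % 2 == 0 || 450000 ≤ d ^ x || !(d ^ x % 8 == 1 || d ^ x % 8 == 3) || good d (d ^ x)

theorem chkAll_true : chkAll = true := by decide +kernel

lemma sq_ineq (Z : ℕ) (hZ : 9 ≤ Z) : Z < (Z - 1) ^ 3 - 1 := by
  obtain ⟨c, rfl⟩ : ∃ c, Z = c + 9 := ⟨Z - 9, by omega⟩
  have h1 : c + 9 - 1 = c + 8 := by omega
  rw [h1]
  have h2 : c + 9 + 1 < (c + 8) ^ 3 := by nlinarith [sq_nonneg c]
  omega

theorem E2_none (d x y s t : ℕ) (hd : 2 ≤ d) (hx : 2 ≤ x) (hy : 2 ≤ y) (hs : 2 ≤ s) (ht : 2 ≤ t) :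
    (d : ℤ) ^ y - (((d : ℤ) ^ x - 1) ^ s - 1) ^ t ≠ 2 := by
  intro h
  obtain ⟨hdo, hso, hto, h8, k, rfl, hke, hlte2, hlte1, hXk, hkt, hclo, hZt, hZk⟩ :=
    E2 d x y s t hd hx hy hs ht h
  have hd3 : 3 ≤ d := by obtain ⟨c, hc⟩ := hdo; omega
  have hs3 : 3 ≤ s := by obtain ⟨c, hc⟩ := hso; omega
  obtain ⟨Z, hZ⟩ : ∃ Z, Z = d ^ x := ⟨_, rfl⟩
  have hZ9 : 9 ≤ Z := by
    rw [hZ]
    calc 9 = 3 ^ 2 := by norm_num
      _ ≤ d ^ 2 := Nat.pow_le_pow_left hd3 2
      _ ≤ d ^ x := Nat.pow_le_pow_right (by omega) hx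
  obtain ⟨B, hB⟩ : ∃ B, B = (Z - 1) ^ s - 1 := ⟨_, rfl⟩
  have hk0 : 0 < k := by
    rcases Nat.eq_zero_or_pos k with h0 | h0
    · subst h0; omega
    · exact h0
  have hZs : (Z - 1) ^ 3 ≤ (Z - 1) ^ s := Nat.pow_le_pow_right (by omega) hs3
  have hZB : Z < B := by
    have := sq_ineq Z hZ9
    omega
  have heq : Z ^ k = B ^ t + 2 := by
    have h1 : ((Z - 1 : ℕ) : ℤ) = (d : ℤ) ^ x - 1 := by
      rw [Nat.cast_sub (by omega), hZ]; push_cast; ring
    have h2 : (B : ℤ) = ((d : ℤ) ^ x - 1) ^ s - 1 := by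
      rw [hB, Nat.cast_sub (Nat.one_le_pow _ _ (by omega))]
      push_cast [h1]
      rfl
    have h3 : ((Z ^ k : ℕ) : ℤ) = ((B ^ t + 2 : ℕ) : ℤ) := by
      push_cast
      rw [h2, hZ]
      push_cast
      rw [← pow_mul]; linarith
    exact_mod_cast h3
  rw [← hZ] at h8 hlte2 hlte1 hXk hclo hZt hZk
  have htk : t ≤ k := by
    by_contra hcon
    have h1 : Z ^ k ≤ B ^ k := Nat.pow_le_pow_left hZB.le k
    have h2 : B ^ k ≤ B ^ t := Nat.pow_le_pow_right (by omega) (by omega)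
    omega
  -- size of k
  have hkbig : (Z - 1) ^ (s - 1) ≤ 2 * k := Nat.le_of_dvd (by omega) hlte2
  have hkbig2 : (Z - 1) ^ 2 ≤ 2 * k := (Nat.pow_le_pow_right (by omega) (by omega)).trans hkbig
  obtain ⟨u, hu⟩ : ∃ u, u = Real.log k := ⟨_, rfl⟩
  have hkR : (0 : ℝ) < k := by exact_mod_cast hk0
  have hku : (k : ℝ) = Real.exp u := by rw [hu, Real.exp_log hkR]
  have hZR : (9 : ℝ) ≤ Z := by exact_mod_cast hZ9
  have hZ1R : ((Z - 1 : ℕ) : ℝ) = (Z : ℝ) - 1 := by rw [Nat.cast_sub (by omega)]; push_cast; ring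
  have hlogB : 2 ≤ u → Real.log B ≤ 2.1 * u := by
    intro hu2
    have hl0 : 0 ≤ Real.log ((Z : ℝ) - 1) := Real.log_nonneg (by linarith)
    have h1 : Real.log B ≤ s * Real.log ((Z : ℝ) - 1) := by
      have h2 : (B : ℝ) ≤ ((Z : ℝ) - 1) ^ s := by
        have h3 : B ≤ (Z - 1) ^ s := by omega
        have h4 : (B : ℝ) ≤ (((Z - 1) ^ s : ℕ) : ℝ) := by exact_mod_cast h3
        rwa [Nat.cast_pow, hZ1R] at h4
      have hB0 : (0 : ℝ) < B := by
        have : 0 < B := by omega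
        exact_mod_cast this
      have h5 := Real.log_le_log hB0 h2
      rwa [Real.log_pow] at h5
    have h2 : ((s : ℝ) - 1) * Real.log ((Z : ℝ) - 1) ≤ Real.log 2 + u := by
      have h3 : ((Z : ℝ) - 1) ^ (s - 1) ≤ 2 * k := by
        have h4 : (((Z - 1) ^ (s - 1) : ℕ) : ℝ) ≤ ((2 * k : ℕ) : ℝ) := by exact_mod_cast hkbig
        rw [Nat.cast_pow, hZ1R] at h4
        push_cast at h4
        exact h4
      have h5 := Real.log_le_log (pow_pos (by linarith) _) h3
      rw [Real.log_pow, Real.log_mul (by norm_num) hkR.ne', ← hu, Nat.cast_sub (by omega)] at h5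
      push_cast at h5
      exact h5
    have h3 : Real.log 2 < 0.7 := by have := Real.log_two_lt_d9; linarith
    have hsR : (3 : ℝ) ≤ s := by exact_mod_cast hs3
    have h4 : (s : ℝ) * Real.log ((Z : ℝ) - 1) ≤ 1.5 * (((s : ℝ) - 1) * Real.log ((Z : ℝ) - 1)) := by
      have : (s : ℝ) ≤ 1.5 * ((s : ℝ) - 1) := by linarith
      calc (s : ℝ) * Real.log ((Z : ℝ) - 1) ≤ (1.5 * ((s : ℝ) - 1)) * Real.log ((Z : ℝ) - 1) := by gcongr
        _ = _ := by ring
    linarith
  have happly : 25 ≤ u → 2500 * u ^ 6 ≤ k * Real.log Z → False := by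
    intro hu25 hmain
    refine core2 Z B k t (by omega) hZB hkt (by omega) htk heq (by rw [← hu]; exact hu25) ?_ ?_
    · rw [← hu]; exact hlogB (by linarith)
    · rw [← hu]; exact hmain
  -- case 1 : u ≥ 28
  have hu28 : u < 28 := by
    by_contra hcon
    push Not at hcon
    apply happly (by linarith)
    have h1 := exp_ge_pow u 28 6 (by norm_num) (by norm_num) hcon
    have h2 : (2.7 : ℝ) ^ 28 ≤ Real.exp 28 := by
      have h3 : Real.exp 28 = Real.exp 1 ^ 28 := by rw [← Real.exp_nat_mul]; norm_num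
      rw [h3]
      have h4 : (2.7 : ℝ) ≤ Real.exp 1 := by have := Real.exp_one_gt_d9; linarith
      gcongr
    have h3 : 2 ≤ Real.log Z := by
      rw [Real.le_log_iff_exp_le (by linarith)]
      have h2 : Real.exp 2 = Real.exp 1 * Real.exp 1 := by rw [← Real.exp_add]; norm_num
      rw [h2]
      have h3 := Real.exp_one_lt_d9
      have h4 := Real.exp_pos 1
      nlinarith
    have h4 : 2500 * u ^ 6 ≤ Real.exp 28 * (u / 28) ^ 6 * 2 := by
      have h5 : (u / 28) ^ 6 = u ^ 6 / 28 ^ 6 := by rw [div_pow]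
      have h6 : 0 ≤ u ^ 6 := by positivity
      calc 2500 * u ^ 6 ≤ ((2.7 : ℝ) ^ 28 * 2 / 28 ^ 6) * u ^ 6 := by
            apply mul_le_mul_of_nonneg_right _ h6
            norm_num
        _ = (2.7 : ℝ) ^ 28 * (u ^ 6 / 28 ^ 6) * 2 := by ring
        _ ≤ Real.exp 28 * (u ^ 6 / 28 ^ 6) * 2 := by gcongr
        _ = Real.exp 28 * (u / 28) ^ 6 * 2 := by rw [h5]
    rw [hku]
    calc 2500 * u ^ 6 ≤ Real.exp 28 * (u / 28) ^ 6 * 2 := h4
      _ ≤ Real.exp u * 2 := by gcongr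
      _ ≤ Real.exp u * Real.log Z := by gcongr
  -- case 2 : Z large
  have hZsmall : Z < 450000 := by
    by_contra hcon
    push Not at hcon
    have h1 : 449999 ^ 2 ≤ 2 * k := (Nat.pow_le_pow_left (by omega : 449999 ≤ Z - 1) 2).trans hkbig2
    have h2 : (101249550000 : ℝ) ≤ k := by
      have : 101249550000 ≤ k := by omega
      exact_mod_cast this
    have hu25 : 25 ≤ u := by
      rw [hu, Real.le_log_iff_exp_le hkR]
      have h3 : Real.exp 25 = Real.exp 1 ^ 25 := by rw [← Real.exp_nat_mul]; norm_num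
      rw [h3]
      have h4 : Real.exp 1 ≤ 2.72 := by have := Real.exp_one_lt_d9; linarith
      calc Real.exp 1 ^ 25 ≤ (2.72 : ℝ) ^ 25 := by gcongr
        _ ≤ 101249550000 := by norm_num
        _ ≤ k := h2
    apply happly hu25
    have h3 : 12.9 ≤ Real.log Z := by
      rw [Real.le_log_iff_exp_le (by linarith)]
      have h4 : Real.exp 12.9 ≤ Real.exp 13 := Real.exp_le_exp.2 (by norm_num)
      have h5 : Real.exp 13 = Real.exp 1 ^ 13 := by rw [← Real.exp_nat_mul]; norm_num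
      have h6 : Real.exp 1 ≤ 2.7183 := by have := Real.exp_one_lt_d9; linarith
      calc Real.exp 12.9 ≤ Real.exp 1 ^ 13 := h4.trans h5.le
        _ ≤ (2.7183 : ℝ) ^ 13 := by gcongr
        _ ≤ 450000 := by norm_num
        _ ≤ Z := by exact_mod_cast hcon
    calc 2500 * u ^ 6 ≤ 2500 * 28 ^ 6 := by gcongr
      _ ≤ 101249550000 * 12.9 := by norm_num
      _ ≤ k * Real.log Z := by gcongr
  -- case 3 : the finite check
  have hd671 : d < 671 := by
    by_contra hcon
    have h1 : 671 ^ 2 ≤ d ^ x := (Nat.pow_le_pow_left (by omega) 2).trans (Nat.pow_le_pow_right (by omega) hx)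
    omega
  have hx13 : x < 13 := by
    by_contra hcon
    have h1 : 3 ^ 13 ≤ d ^ x := (Nat.pow_le_pow_left hd3 13).trans (Nat.pow_le_pow_right (by omega) (by omega))
    omega
  have hgood : good d Z = true := by
    have h1 := chkAll_true
    unfold chkAll at h1
    rw [List.all_eq_true] at h1
    have h2 := h1 d (List.mem_range.2 hd671)
    rw [List.all_eq_true] at h2
    have h3 := h2 x (List.mem_range.2 hx13)
    rw [← hZ] at h3
    simp only [Bool.or_eq_true, decide_eq_true_eq, Bool.not_eq_true', beq_iff_eq] at h3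
    have hd2 : d % 2 = 1 := Nat.odd_iff.1 hdo
    rcases h3 with ((((h3 | h3) | h3) | h3) | h3) | h3
    · omega
    · omega
    · omega
    · omega
    · rcases h8 with h4 | h4 <;> simp [h4] at h3
    · exact h3
  have hM : (Z - 1) ^ 2 / (if Z % 8 = 1 then 1 else 2) ∣ k := by
    by_cases h1 : Z % 8 = 1
    · rw [if_pos h1, Nat.div_one]
      exact (pow_dvd_pow _ (by omega)).trans (hlte1 h1)
    · rw [if_neg h1]
      have h2 : (Z - 1) ^ 2 ∣ 2 * k := (pow_dvd_pow _ (by omega)).trans hlte2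
      have h3 : 2 ∣ (Z - 1) ^ 2 := by
        have : 2 ∣ Z - 1 := by omega
        exact dvd_pow this (by norm_num)
      obtain ⟨e, he⟩ := h3
      rw [he] at h2 ⊢
      rw [Nat.mul_div_cancel_left _ (by norm_num)]
      exact Nat.dvd_of_mul_dvd_mul_left (by norm_num) h2
  unfold good at hgood
  rw [Bool.or_eq_true, Bool.or_eq_true] at hgood
  rcases hgood with (h1 | h1) | h1
  · rw [List.any_eq_true] at h1
    obtain ⟨r, hr, h2⟩ := h1
    have hrp : r.Prime := by
      simp only [List.mem_cons, List.not_mem_nil, or_false] at hr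
      rcases hr with rfl | rfl | rfl | rfl | rfl | rfl | rfl | rfl | rfl | rfl | rfl | rfl | rfl | rfl <;> norm_num
    simp only [Bool.and_eq_true, beq_iff_eq, Bool.not_eq_true', beq_eq_false_iff_ne, ne_eq] at h2
    obtain ⟨⟨h3, h4⟩, h5⟩ := h2
    rcases hclo r hrp ((Nat.dvd_of_mod_eq_zero h3).trans hM) with h6 | h6
    · exact h4 (Nat.mod_eq_zero_of_dvd h6)
    · exact h5 (Nat.mod_eq_zero_of_dvd h6)
  · rw [List.any_eq_true] at h1
    obtain ⟨r, hr, h2⟩ := h1
    have hrp : r.Prime ∧ r ≠ 2 ∧ ¬ (r % 8 = 1 ∨ r % 8 = 7) := by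
      simp only [List.mem_cons, List.not_mem_nil, or_false] at hr
      rcases hr with rfl | rfl | rfl <;> norm_num
    rw [beq_iff_eq] at h2
    apply hrp.2.2
    obtain ⟨k', hk'⟩ := hke
    have h3 : (r : ℤ) ∣ ((Z : ℤ) ^ k') ^ 2 - 2 := by
      have h4 : (((Z - 2 : ℕ)) : ℤ) ∣ (Z : ℤ) ^ k - 2 := by
        have h5 : ((Z - 2 : ℕ) : ℤ) = (Z : ℤ) - 2 := by rw [Nat.cast_sub (by omega)]; push_cast; ring
        rw [h5]
        have h6 : (Z : ℤ) ^ k - 2 = (B : ℤ) ^ t := by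
          have : ((Z ^ k : ℕ) : ℤ) = ((B ^ t + 2 : ℕ) : ℤ) := by rw [heq]
          push_cast at this
          linarith
        rw [h6]
        have h7 : (Z : ℤ) - 2 ∣ (B : ℤ) := by
          have h8 := sub_dvd_pow_sub_pow ((Z : ℤ) - 1) 1 s
          have h9 : (B : ℤ) = ((Z : ℤ) - 1) ^ s - 1 ^ s := by
            rw [hB, Nat.cast_sub (Nat.one_le_pow _ _ (by omega)), Nat.cast_pow,
              Nat.cast_sub (by omega)]
            push_cast; ring
          rw [h9]
          have e1 : (Z : ℤ) - 1 - 1 = Z - 2 := by ring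
          rwa [e1] at h8
        exact h7.pow (by omega)
      rw [← pow_mul, mul_two, ← hk']
      exact (Int.natCast_dvd_natCast.2 (Nat.dvd_of_mod_eq_zero h2)).trans h4
    exact prime_mod_eight r _ hrp.1 hrp.2.1 h3
  · rw [beq_iff_eq] at h1
    subst h1
    -- 19681 ∣ 2 ^ (k - 1) - 1 with k - 1 odd
    have h2 : ((2 : ZMod 19681)) ^ (k - 1) = 1 := by
      have h3 : ((2 ^ (k - 1) - 1 : ℕ) : ZMod 19681) = 0 := (ZMod.natCast_eq_zero_iff _ _).2 hZk
      rw [Nat.cast_sub Nat.one_le_two_pow] at h3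
      push_cast at h3
      linear_combination h3
    have h3 : ((2 : ZMod 19681)) ^ 3280 = 1 := by
      have h4 : ((2 ^ 3280 : ℕ) : ZMod 19681) = ((1 : ℕ) : ZMod 19681) := by
        rw [ZMod.natCast_eq_natCast_iff']
        decide +kernel
      push_cast at h4
      exact h4
    have h4 : ((2 : ZMod 19681)) ^ (Nat.gcd (k - 1) 3280) = 1 := pow_gcd_eq_one.2 ⟨h2, h3⟩
    have h5 : Nat.gcd (k - 1) 3280 ∣ 205 := by
      have h6 : Nat.gcd (k - 1) 3280 ∣ 16 * 205 := Nat.gcd_dvd_right _ _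
      have h7 : Nat.Coprime (Nat.gcd (k - 1) 3280) 16 := by
        have h8 : Nat.Coprime (k - 1) 2 := by
          rw [Nat.coprime_two_right]
          obtain ⟨k', hk'⟩ := hke
          exact ⟨k' - 1, by omega⟩
        have h9 : Nat.Coprime (k - 1) (2 ^ 4) := Nat.Coprime.pow_right 4 h8
        exact Nat.Coprime.coprime_dvd_left (Nat.gcd_dvd_left _ _) h9
      exact h7.dvd_of_dvd_mul_left h6
    obtain ⟨e, he⟩ := h5
    have h6 : ((2 : ZMod 19681)) ^ 205 = 1 := by
      rw [he, pow_mul, h4, one_pow]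
    have h7 : ((2 ^ 205 : ℕ) : ZMod 19681) = ((1 : ℕ) : ZMod 19681) := by
      rw [Nat.cast_pow, Nat.cast_one]; exact h6
    have h8 := (ZMod.natCast_eq_natCast_iff' _ _ _).1 h7
    have h9 : ¬ (2 ^ 205 % 19681 = 1 % 19681) := by decide +kernel
    exact h9 h8

end Pool.Agent.R605.Pillai
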