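import Pool.Agent.R605.SP
import Pool.Agent.R605.M5
set_option autoImplicit false
namespace Pool.Agent.R605.Pillai

/-- The finite check for (E3). -/
def good3 (d x e : ℕ) : Bool :=
  ([3, 5, 7, 11, 13, 17, 19, 23, 29, 31, 37, 41, 43, 47, 53, 59, 79, 83, 89, 101, 103, 107, 127, 131, 149,
    167, 173, 179, 197, 223, 227, 257, 263, 269, 389, 827, 2309].any fun r =>
      d ^ e % (r - 1) == 0 && !(d % r == 0) && !((d ^ x + 1) % r == 0)) ||
  ([3, 5, 11, 13, 19, 37, 53, 61, 139, 211, 691, 733, 739, 9739, 490891].any fun q =>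
      (d ^ (x + e) - 1) % q == 0)

def chkA : Bool :=
  (List.range 63).all fun j => (List.range 4).all fun e =>
    j == 0 || e == 0 || decide (72100000000 ≤ (1806 * j) ^ e) || good3 (1806 * j) 2 e

def chkB : Bool :=
  (List.range 1200).all fun i => (List.range 14).all fun x =>
    decide (i < 3) || decide (x < 3) || x % 2 == 0 ||
    decide (6000 ≤ (2 * i) ^ x ∧ 8660000000000 < (2 * i) ^ x * (if i < 500 then 175 else 690)) ||
    (List.range 16).all fun e =>
      e == 0 || decide (1450000000000 ≤ (2 * i) ^ e) ||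
      decide (6000 ≤ (2 * i) ^ x ∧ 72100000000 ≤ (2 * i) ^ e) || good3 (2 * i) x e

theorem chkA_true : chkA = true := by decide +kernel
theorem chkB_true : chkB = true := by decide +kernel

lemma log_succ (z : ℝ) (hz : 0 < z) : Real.log (z + 1) ≤ Real.log z + 1 / z := by
  have h1 := Real.log_le_sub_one_of_pos (div_pos (by linarith : 0 < z + 1) hz)
  rw [Real.log_div (by linarith : z + 1 ≠ 0) hz.ne'] at h1
  have h2 : (z + 1) / z - 1 = 1 / z := by field_simp; ring
  linarith

lemma not_good3 (d x e s : ℕ) (hDs : d ^ e ∣ s)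
    (hclo : ∀ r : ℕ, r.Prime → r - 1 ∣ s → r ∣ d ∨ r ∣ d ^ x + 1)
    (hq8 : ∀ q : ℕ, q.Prime → q ∣ d ^ (x + e) - 1 → q % 8 = 1 ∨ q % 8 = 7)
    (hgood : good3 d x e = true) : False := by
  unfold good3 at hgood
  rw [Bool.or_eq_true] at hgood
  rcases hgood with h1 | h1
  · rw [List.any_eq_true] at h1
    obtain ⟨r, hr, h2⟩ := h1
    have hrp : r.Prime := by
      simp only [List.mem_cons, List.not_mem_nil, or_false] at hr
      rcases hr with rfl | rfl | rfl | rfl | rfl | rfl | rfl | rfl | rfl | rfl | rfl | rfl | rfl | rfl |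
        rfl | rfl | rfl | rfl | rfl | rfl | rfl | rfl | rfl | rfl | rfl | rfl | rfl | rfl | rfl | rfl |
        rfl | rfl | rfl | rfl | rfl | rfl | rfl <;> norm_num
    simp only [Bool.and_eq_true, beq_iff_eq, Bool.not_eq_true', beq_eq_false_iff_ne, ne_eq] at h2
    obtain ⟨⟨h3, h4⟩, h5⟩ := h2
    rcases hclo r hrp ((Nat.dvd_of_mod_eq_zero h3).trans hDs) with h6 | h6
    · exact h4 (Nat.mod_eq_zero_of_dvd h6)
    · exact h5 (Nat.mod_eq_zero_of_dvd h6)
  · rw [List.any_eq_true] at h1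
    obtain ⟨q, hq, h2⟩ := h1
    have hqp : q.Prime ∧ ¬ (q % 8 = 1 ∨ q % 8 = 7) := by
      simp only [List.mem_cons, List.not_mem_nil, or_false] at hq
      rcases hq with rfl | rfl | rfl | rfl | rfl | rfl | rfl | rfl | rfl | rfl | rfl | rfl | rfl | rfl |
        rfl <;> norm_num
    rw [beq_iff_eq] at h2
    exact hqp.2 (hq8 q hqp.1 (Nat.dvd_of_mod_eq_zero h2))

end Pool.Agent.R605.Pillai
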