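import Pool.Agent.R605.M7
set_option autoImplicit false
namespace Pool.Agent.R605.Pillai

lemma dvd_of_mod_four (d x s r : ℕ) (hxe : Even x) (hr : r.Prime) (hr4 : r % 4 = 3) (hrs : r - 1 ∣ s)
    (hclo : ∀ r : ℕ, r.Prime → r - 1 ∣ s → r ∣ d ∨ r ∣ d ^ x + 1) : r ∣ d := by
  rcases hclo r hr hrs with h1 | h1
  · exact h1
  · exfalso
    have : Fact r.Prime := ⟨hr⟩
    obtain ⟨i, hi⟩ := hxe
    have h2 : ((d : ZMod r) ^ i) ^ 2 = -1 := by
      rw [← ZMod.natCast_eq_zero_iff] at h1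
      push_cast at h1
      rw [hi] at h1
      have e1 : ((d : ZMod r) ^ i) ^ 2 = (d : ZMod r) ^ (i + i) := by rw [← pow_mul]; congr 1; ring
      rw [e1]
      linear_combination h1
    exact ZMod.mod_four_ne_three_of_sq_eq_neg_one h2 hr4

lemma exp_le_of_pow (n : ℕ) (c : ℝ) (h : (2.7183 : ℝ) ^ n ≤ c) : Real.exp n ≤ c := by
  have h5 : Real.exp n = Real.exp 1 ^ n := by rw [← Real.exp_nat_mul]; simp
  have h6 : Real.exp 1 ≤ 2.7183 := by have := Real.exp_one_lt_d9; linarith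
  rw [h5]
  calc Real.exp 1 ^ n ≤ (2.7183 : ℝ) ^ n := by gcongr
    _ ≤ c := h

lemma le_exp_of_pow (n : ℕ) (c : ℝ) (h : c ≤ (2.71828 : ℝ) ^ n) : c ≤ Real.exp n := by
  have h5 : Real.exp n = Real.exp 1 ^ n := by rw [← Real.exp_nat_mul]; simp
  have h6 : 2.71828 ≤ Real.exp 1 := by have := Real.exp_one_gt_d9; linarith
  rw [h5]
  calc c ≤ (2.71828 : ℝ) ^ n := h
    _ ≤ Real.exp 1 ^ n := by gcongr

/-- `k * log z ≥ n` when `z ^ k ≥ 2.7183 ^ n`. -/
lemma log_ge (z : ℝ) (k n : ℕ) (hz : 0 < z) (h : (2.7183 : ℝ) ^ n ≤ z ^ k) : (n : ℝ) ≤ k * Real.log z := by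
  have h1 := exp_le_of_pow n (z ^ k) h
  have h2 := Real.log_le_log (Real.exp_pos _) h1
  rwa [Real.log_exp, Real.log_pow] at h2

theorem E3_none (d x y s m : ℕ) (hd : 2 ≤ d) (hx : 2 ≤ x) (hy : 2 ≤ y) (hs : 2 ≤ s) (hm : 2 ≤ m)
    (hne : x ≠ y) : ((d : ℤ) ^ x + 1) ^ s - ((d : ℤ) ^ y - 1) ^ m ≠ 2 := by
  intro h
  obtain ⟨hde, hmo, hxy, hDs, hsm, hdm, hclo, hq8, hg, h3d, hpow⟩ := E3 d x y s m hd hx hy hs hm hne h
  have hd6 : 6 ≤ d := by
    have h1 := hpow 1
    have h2 := hpow 2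
    obtain ⟨c, hc⟩ := hde
    norm_num at h1 h2
    omega
  obtain ⟨e, he, rfl⟩ : ∃ e, 1 ≤ e ∧ y = x + e := ⟨y - x, by omega, by omega⟩
  have hsub : x + e - x = e := by omega
  rw [hsub] at hDs
  obtain ⟨X, hX⟩ : ∃ X, X = d ^ x := ⟨_, rfl⟩
  obtain ⟨D, hD⟩ : ∃ D, D = d ^ e := ⟨_, rfl⟩
  obtain ⟨Y, hY⟩ : ∃ Y, Y = d ^ (x + e) := ⟨_, rfl⟩
  have hYXD : Y = X * D := by rw [hY, hX, hD, pow_add]
  have hX36 : 36 ≤ X := by
    rw [hX]
    calc 36 = 6 ^ 2 := by norm_num
      _ ≤ d ^ 2 := Nat.pow_le_pow_left hd6 2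
      _ ≤ d ^ x := Nat.pow_le_pow_right (by omega) hx
  have hD6 : 6 ≤ D := by
    rw [hD]
    calc 6 = 6 ^ 1 := by norm_num
      _ ≤ d ^ 1 := Nat.pow_le_pow_left hd6 1
      _ ≤ d ^ e := Nat.pow_le_pow_right (by omega) he
  have hDs' : D ≤ s := Nat.le_of_dvd (by omega) (hD ▸ hDs)
  have hY6 : X * 6 ≤ Y := by rw [hYXD]; exact Nat.mul_le_mul_left _ hD6
  have heq : (X + 1) ^ s = (Y - 1) ^ m + 2 := by
    have h1 : ((Y - 1 : ℕ) : ℤ) = (d : ℤ) ^ (x + e) - 1 := by
      rw [Nat.cast_sub (by omega), hY]; push_cast; ring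
    have h3 : (((X + 1) ^ s : ℕ) : ℤ) = (((Y - 1) ^ m + 2 : ℕ) : ℤ) := by
      rw [Nat.cast_add, Nat.cast_pow, Nat.cast_pow, h1, hX]
      push_cast
      linarith
    exact_mod_cast h3
  have hms : m ≤ s := by
    by_contra hcon
    have h1 : (X + 1) ^ s ≤ (Y - 1) ^ s := Nat.pow_le_pow_left (by omega) s
    have h2 : (Y - 1) ^ s ≤ (Y - 1) ^ m := Nat.pow_le_pow_right (by omega) (by omega)
    omega
  have hXs_lt : X ^ s < Y ^ m := by
    have h1 : X ^ s < (X + 1) ^ s := Nat.pow_lt_pow_left (by omega) (by omega)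
    have h2 : (Y - 1) ^ m + 2 ≤ Y ^ m := by
      obtain ⟨m', rfl⟩ : ∃ m', m = m' + 2 := ⟨m - 2, by omega⟩
      have h3 : (Y - 1) ^ (m' + 2) ≤ (Y - 1) * Y ^ (m' + 1) := by
        rw [pow_succ', show m' + 1 = m' + 1 from rfl]
        exact Nat.mul_le_mul_left _ (Nat.pow_le_pow_left (by omega) _)
      have h4 : Y ^ (m' + 2) = (Y - 1) * Y ^ (m' + 1) + Y ^ (m' + 1) := by
        obtain ⟨Y', rfl⟩ : ∃ Y', Y = Y' + 1 := ⟨Y - 1, by omega⟩
        rw [Nat.add_sub_cancel]; ring
      have h5 : Y ^ 1 ≤ Y ^ (m' + 1) := Nat.pow_le_pow_right (by omega) (by omega)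
      rw [pow_one] at h5
      omega
    omega
  have hdXs : d * X ^ s ≤ Y ^ m := by
    have h1 : x * s < (x + e) * m := by
      have h2 : d ^ (x * s) < d ^ ((x + e) * m) := by
        rw [pow_mul, pow_mul, ← hX, ← hY]; exact hXs_lt
      exact (Nat.pow_lt_pow_iff_right (by omega)).1 h2
    have h2 : d ^ (x * s + 1) ≤ d ^ ((x + e) * m) := Nat.pow_le_pow_right (by omega) h1
    rw [pow_succ, pow_mul, pow_mul, ← hX, ← hY] at h2
    linarith
  -- real numbers
  obtain ⟨u, hu⟩ : ∃ u, u = Real.log s := ⟨_, rfl⟩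
  have hsR : (0 : ℝ) < s := by
    have : 0 < s := by omega
    exact_mod_cast this
  have hsu : (s : ℝ) = Real.exp u := by rw [hu, Real.exp_log hsR]
  have hXR : (36 : ℝ) ≤ X := by exact_mod_cast hX36
  have hDR : (6 : ℝ) ≤ D := by exact_mod_cast hD6
  have hdR : (6 : ℝ) ≤ d := by exact_mod_cast hd6
  have hmR : (m : ℝ) ≤ s := by exact_mod_cast hms
  have hYR : (X : ℝ) * 6 ≤ Y := by exact_mod_cast hY6
  have hY1R : ((Y - 1 : ℕ) : ℝ) = (Y : ℝ) - 1 := by rw [Nat.cast_sub (by omega)]; push_cast; ring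
  have hDsR : (D : ℝ) ≤ s := by exact_mod_cast hDs'
  have hXlogd : X * Real.log d ≤ 1.2 * s := by
    have h1 : Real.log d + s * Real.log X ≤ m * Real.log Y := by
      have h2 : (d : ℝ) * (X : ℝ) ^ s ≤ (Y : ℝ) ^ m := by exact_mod_cast hdXs
      have h3 := Real.log_le_log (by positivity) h2
      rwa [Real.log_mul (by positivity) (by positivity), Real.log_pow, Real.log_pow] at h3
    have h2 : m * Real.log ((Y : ℝ) - 1) ≤ s * Real.log ((X : ℝ) + 1) := by
      have h3 : (Y - 1) ^ m ≤ (X + 1) ^ s := by omega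
      have h4 : (((Y - 1) ^ m : ℕ) : ℝ) ≤ (((X + 1) ^ s : ℕ) : ℝ) := by exact_mod_cast h3
      rw [Nat.cast_pow, hY1R, Nat.cast_pow, Nat.cast_add, Nat.cast_one] at h4
      have h5 := Real.log_le_log (pow_pos (by linarith) _) h4
      rwa [Real.log_pow, Real.log_pow] at h5
    have h3 := log_succ ((Y : ℝ) - 1) (by linarith)
    rw [sub_add_cancel] at h3
    have h4 := log_succ (X : ℝ) (by linarith)
    have h5 : (m : ℝ) * Real.log Y ≤ m * (Real.log ((Y : ℝ) - 1) + 1 / ((Y : ℝ) - 1)) := by gcongr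
    have h6 : (s : ℝ) * Real.log ((X : ℝ) + 1) ≤ s * (Real.log X + 1 / X) := by gcongr
    have h7 : (m : ℝ) * (1 / ((Y : ℝ) - 1)) ≤ s * (1 / (5 * X)) := by
      apply mul_le_mul hmR _ (by
        apply div_nonneg zero_le_one; linarith) hsR.le
      apply one_div_le_one_div_of_le (by linarith)
      linarith
    have h8 : Real.log d ≤ 1.2 * s / X := by
      have h9 : (1.2 : ℝ) * (s : ℝ) / (X : ℝ) = s * (1 / (5 * X)) + s * (1 / X) := by
        field_simp; norm_num
      rw [h9]; linarith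
    rw [le_div_iff₀ (by linarith)] at h8
    linarith
  have hlogd1 : 1.75 ≤ Real.log d := by
    have h1 := log_ge (d : ℝ) 4 7 (by linarith) (by
      calc (2.7183 : ℝ) ^ 7 ≤ 6 ^ 4 := by norm_num
        _ ≤ (d : ℝ) ^ 4 := by gcongr)
    push_cast at h1
    linarith
  have hXs12 : (X : ℝ) ≤ 1.2 * s := by
    have h1 : (X : ℝ) * 1 ≤ X * Real.log d := by gcongr; linarith
    linarith
  have hlogb : 2 ≤ u → Real.log ((Y - 1 : ℕ) : ℝ) ≤ 2.1 * u := by
    intro hu2
    rw [hY1R]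
    have h1 : Real.log ((Y : ℝ) - 1) ≤ Real.log Y := Real.log_le_log (by linarith) (by linarith)
    have h2 : Real.log Y = Real.log X + Real.log D := by
      rw [hYXD, Nat.cast_mul, Real.log_mul (by linarith) (by linarith)]
    have h3 : Real.log D ≤ u := by rw [hu]; exact Real.log_le_log (by linarith) hDsR
    have h4 : Real.log X ≤ 0.2 + u := by
      have h5 := Real.log_le_log (by linarith) hXs12
      rw [Real.log_mul (by norm_num) hsR.ne', ← hu] at h5
      have h6 := Real.log_le_sub_one_of_pos (by norm_num : (0 : ℝ) < 1.2)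
      linarith
    linarith
  have happly : 25 ≤ u → 2500 * u ^ 6 ≤ s * Real.log ((X : ℝ) + 1) → False := by
    intro hu25 hmain
    refine core2 (X + 1) (Y - 1) s m (by omega) (by omega) hsm (by omega) hms heq
      (by rw [← hu]; exact hu25) ?_ ?_
    · rw [← hu]; exact hlogb (by linarith)
    · rw [← hu]; push_cast; exact hmain
  -- case 1 : u ≥ 28
  have hu28 : u < 28 := by
    by_contra hcon
    push Not at hcon
    apply happly (by linarith)
    have h1 := exp_ge_pow u 28 6 (by norm_num) (by norm_num) hcon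
    have h2 : (2.7 : ℝ) ^ 28 ≤ Real.exp 28 := le_exp_of_pow 28 _ (by norm_num)
    have h3 : 2 ≤ Real.log ((X : ℝ) + 1) := by
      have h4 := log_ge ((X : ℝ) + 1) 1 2 (by linarith) (by
        rw [pow_one]
        calc (2.7183 : ℝ) ^ 2 ≤ 36 := by norm_num
          _ ≤ X + 1 := by linarith)
      push_cast at h4
      linarith
    have h4 : 2500 * u ^ 6 ≤ Real.exp 28 * (u / 28) ^ 6 * 2 := by
      have h5 : (u / 28) ^ 6 = u ^ 6 / 28 ^ 6 := by rw [div_pow]
      have h6 : 0 ≤ u ^ 6 := by positivity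
      calc 2500 * u ^ 6 ≤ ((2.7 : ℝ) ^ 28 * 2 / 28 ^ 6) * u ^ 6 := by
            apply mul_le_mul_of_nonneg_right _ h6
            norm_num
        _ = (2.7 : ℝ) ^ 28 * (u ^ 6 / 28 ^ 6) * 2 := by ring
        _ ≤ Real.exp 28 * (u ^ 6 / 28 ^ 6) * 2 := by gcongr
        _ = Real.exp 28 * (u / 28) ^ 6 * 2 := by rw [h5]
    rw [hsu]
    calc 2500 * u ^ 6 ≤ Real.exp 28 * (u / 28) ^ 6 * 2 := h4
      _ ≤ Real.exp u * 2 := by gcongr
      _ ≤ Real.exp u * Real.log ((X : ℝ) + 1) := by gcongr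
  -- case 2 : X ≥ 6000 and u ≥ 25
  have hu25 : 6000 ≤ X → u < 25 := by
    intro hX6
    by_contra hcon
    push Not at hcon
    have hX6R : (6000 : ℝ) ≤ X := by exact_mod_cast hX6
    apply happly hcon
    have h1 := exp_ge_pow u 25 6 (by norm_num) (by norm_num) hcon
    have h2 : (71900000000 : ℝ) ≤ Real.exp 25 := le_exp_of_pow 25 _ (by norm_num)
    have h3 : 8.6 ≤ Real.log ((X : ℝ) + 1) := by
      have h4 := log_ge ((X : ℝ) + 1) 5 43 (by linarith) (by
        calc (2.7183 : ℝ) ^ 43 ≤ 6000 ^ 5 := by norm_num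
          _ ≤ ((X : ℝ) + 1) ^ 5 := by gcongr; linarith)
      push_cast at h4
      linarith
    have h4 : 2500 * u ^ 6 ≤ Real.exp 25 * (u / 25) ^ 6 * 8.6 := by
      have h5 : (u / 25) ^ 6 = u ^ 6 / 25 ^ 6 := by rw [div_pow]
      have h6 : 0 ≤ u ^ 6 := by positivity
      calc 2500 * u ^ 6 ≤ ((71900000000 : ℝ) * 8.6 / 25 ^ 6) * u ^ 6 := by
            apply mul_le_mul_of_nonneg_right _ h6
            norm_num
        _ = (71900000000 : ℝ) * (u ^ 6 / 25 ^ 6) * 8.6 := by ring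
        _ ≤ Real.exp 25 * (u ^ 6 / 25 ^ 6) * 8.6 := by gcongr
        _ = Real.exp 25 * (u / 25) ^ 6 * 8.6 := by rw [h5]
    rw [hsu]
    calc 2500 * u ^ 6 ≤ Real.exp 25 * (u / 25) ^ 6 * 8.6 := h4
      _ ≤ Real.exp u * 8.6 := by gcongr
      _ ≤ Real.exp u * Real.log ((X : ℝ) + 1) := by gcongr
  -- bounds
  have hs28 : (s : ℝ) < 1450000000000 := by
    rw [hsu]
    calc Real.exp u < Real.exp 28 := Real.exp_lt_exp.2 hu28
      _ ≤ 1450000000000 := exp_le_of_pow 28 _ (by norm_num)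
  have hs25 : 6000 ≤ X → (s : ℝ) < 72100000000 := by
    intro hX6
    rw [hsu]
    calc Real.exp u < Real.exp 25 := Real.exp_lt_exp.2 (hu25 hX6)
      _ ≤ 72100000000 := exp_le_of_pow 25 _ (by norm_num)
  have hD28 : D < 1450000000000 := by
    have : (D : ℝ) < 1450000000000 := by linarith
    exact_mod_cast this
  have hD25 : 6000 ≤ X → D < 72100000000 := by
    intro hX6
    have : (D : ℝ) < 72100000000 := by linarith [hs25 hX6]
    exact_mod_cast this
  have hlogd2 : 1000 ≤ d → 6.9 ≤ Real.log d := by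
    intro hd1000
    have hdR' : (1000 : ℝ) ≤ d := by exact_mod_cast hd1000
    have h1 := log_ge (d : ℝ) 10 69 (by linarith) (by
      calc (2.7183 : ℝ) ^ 69 ≤ 1000 ^ 10 := by norm_num
        _ ≤ (d : ℝ) ^ 10 := by gcongr)
    push_cast at h1
    linarith
  have hXb1 : 6000 ≤ X → X * 175 ≤ 8660000000000 := by
    intro hX6
    have h1 := hs25 hX6
    have h2 : (X : ℝ) * 1.75 ≤ X * Real.log d := by gcongr
    have h3 : (X : ℝ) * 175 ≤ 8660000000000 := by linarith
    exact_mod_cast h3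
  have hXb2 : 6000 ≤ X → 1000 ≤ d → X * 690 ≤ 8660000000000 := by
    intro hX6 hd1000
    have h1 := hs25 hX6
    have h0 := hlogd2 hd1000
    have h2 : (X : ℝ) * 6.9 ≤ X * Real.log d := by gcongr
    have h3 : (X : ℝ) * 690 ≤ 8660000000000 := by linarith
    exact_mod_cast h3
  have h2s : 2 ∣ s := (even_iff_two_dvd.1 hde).trans ((dvd_pow_self d (by omega)).trans hDs)
  have hds : d ∣ s := (dvd_pow_self d (by omega)).trans hDs
  rcases Nat.even_or_odd x with hxe | hxo
  · -- x even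
    have h3 : 3 ∣ d := dvd_of_mod_four d x s 3 hxe (by norm_num) (by norm_num) h2s hclo
    have h6 : 6 ∣ d := (by norm_num : Nat.Coprime 2 3).mul_dvd_of_dvd_of_dvd (even_iff_two_dvd.1 hde) h3
    have h7 : 7 ∣ d := dvd_of_mod_four d x s 7 hxe (by norm_num) (by norm_num) (h6.trans hds) hclo
    have h42 : 42 ∣ d := (by norm_num : Nat.Coprime 6 7).mul_dvd_of_dvd_of_dvd h6 h7
    have h43 : 43 ∣ d := dvd_of_mod_four d x s 43 hxe (by norm_num) (by norm_num) (h42.trans hds) hclo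
    have h1806 : 1806 ∣ d := (by norm_num : Nat.Coprime 42 43).mul_dvd_of_dvd_of_dvd h42 h43
    obtain ⟨j, rfl⟩ := h1806
    have hj1 : 1 ≤ j := by omega
    have hX6 : 6000 ≤ X := by
      rw [hX]
      calc 6000 ≤ 1806 ^ 2 := by norm_num
        _ ≤ (1806 * j) ^ 2 := Nat.pow_le_pow_left (by omega) 2
        _ ≤ (1806 * j) ^ x := Nat.pow_le_pow_right (by omega) hx
    have hXb := hXb2 hX6 (by omega)
    have hx2 : x = 2 := by
      by_contra hcon
      have hx4 : 4 ≤ x := by obtain ⟨i, hi⟩ := hxe; omega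
      have h1 : 1806 ^ 4 ≤ X := by
        rw [hX]
        calc 1806 ^ 4 ≤ (1806 * j) ^ 4 := Nat.pow_le_pow_left (by omega) 4
          _ ≤ (1806 * j) ^ x := Nat.pow_le_pow_right (by omega) hx4
      omega
    subst hx2
    have hj63 : j < 63 := by
      by_contra hcon
      have h1 : (1806 * 63) ^ 2 ≤ X := by
        rw [hX]; exact Nat.pow_le_pow_left (by omega) 2
      omega
    have hDb := hD25 hX6
    have he4 : e < 4 := by
      by_contra hcon
      have h1 : 1806 ^ 4 ≤ D := by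
        rw [hD]
        calc 1806 ^ 4 ≤ (1806 * j) ^ 4 := Nat.pow_le_pow_left (by omega) 4
          _ ≤ (1806 * j) ^ e := Nat.pow_le_pow_right (by omega) (by omega)
      omega
    have hgood : good3 (1806 * j) 2 e = true := by
      have h1 := chkA_true
      unfold chkA at h1
      rw [List.all_eq_true] at h1
      have h2 := h1 j (List.mem_range.2 hj63)
      rw [List.all_eq_true] at h2
      have h3 := h2 e (List.mem_range.2 he4)
      rw [← hD] at h3
      simp only [Bool.or_eq_true, decide_eq_true_eq, beq_iff_eq] at h3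
      rcases h3 with ((h3 | h3) | h3) | h3
      · omega
      · omega
      · omega
      · exact h3
    exact not_good3 (1806 * j) 2 e s hDs hclo hq8 hgood
  · -- x odd
    have hx3 : 3 ≤ x := by obtain ⟨i, hi⟩ := hxo; omega
    obtain ⟨i, rfl⟩ : ∃ i, d = 2 * i := by obtain ⟨i, hi⟩ := hde; exact ⟨i, by omega⟩
    have hcube : (2 * i) ^ 3 ≤ X := by rw [hX]; exact Nat.pow_le_pow_right (by omega) hx3
    have hi1200 : i < 1200 := by
      by_contra hcon
      have h1 : 2400 ^ 3 ≤ X := le_trans (Nat.pow_le_pow_left (by omega) 3) hcube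
      have h2 := hXb2 (by omega) (by omega)
      omega
    have hx14 : x < 14 := by
      by_contra hcon
      have h1 : 6 ^ 14 ≤ X := by
        rw [hX]
        exact (Nat.pow_le_pow_left hd6 14).trans (Nat.pow_le_pow_right (by omega) (by omega))
      have h2 := hXb1 (by omega)
      omega
    have he16 : e < 16 := by
      by_contra hcon
      have h1 : 6 ^ 16 ≤ D := by
        rw [hD]
        exact (Nat.pow_le_pow_left hd6 16).trans (Nat.pow_le_pow_right (by omega) (by omega))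
      omega
    have hgood : good3 (2 * i) x e = true := by
      have h1 := chkB_true
      unfold chkB at h1
      rw [List.all_eq_true] at h1
      have h2 := h1 i (List.mem_range.2 hi1200)
      rw [List.all_eq_true] at h2
      have h3 := h2 x (List.mem_range.2 hx14)
      rw [← hX] at h3
      simp only [Bool.or_eq_true, decide_eq_true_eq, beq_iff_eq, List.all_eq_true] at h3
      rcases h3 with (((h3 | h3) | h3) | h3) | h3
      · omega
      · omega
      · have := Nat.odd_iff.1 hxo; omega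
      · exfalso
        obtain ⟨h4, h5⟩ := h3
        by_cases h6 : i < 500
        · rw [if_pos h6] at h5
          have := hXb1 h4
          omega
        · rw [if_neg h6] at h5
          have := hXb2 h4 (by omega)
          omega
      · have h4 := h3 e (List.mem_range.2 he16)
        rw [← hD] at h4
        rcases h4 with ((h4 | h4) | h4) | h4
        · omega
        · omega
        · exfalso
          have := hD25 h4.1
          omega
        · exact h4
    exact not_good3 (2 * i) x e s hDs hclo hq8 hgood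

end Pool.Agent.R605.Pillai
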