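import Mathlib

/-!
Riemann-type series with a lacunary outer function: large upper box dimension
(paper proof by helper266).
-/

open Real Filter Topology Finset

namespace R605.RiemannBox

/-- The closed grid squares of side `1/N` meeting the graph of `f` over `[0,1]`. -/
def squares (f : ℝ → ℝ) (N : ℕ) : Set (ℤ × ℤ) :=
  {p | ∃ x ∈ Set.Icc (0 : ℝ) 1, x ∈ Set.Icc ((p.1 : ℝ) / N) (((p.1 : ℝ) + 1) / N) ∧
    f x ∈ Set.Icc ((p.2 : ℝ) / N) (((p.2 : ℝ) + 1) / N)}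

noncomputable def boxCount (f : ℝ → ℝ) (N : ℕ) : ℕ := (squares f N).ncard

noncomputable def upperBoxDim (f : ℝ → ℝ) : EReal :=
  limsup (fun N : ℕ => ((Real.log (boxCount f N) / Real.log N : ℝ) : EReal)) atTop

noncomputable def V (f : ℝ → ℝ) (N : ℕ) : ℝ :=
  ∑ i ∈ range N, Metric.diam (f '' Set.Icc ((i : ℝ) / N) (((i : ℝ) + 1) / N))

lemma squares_finite {f : ℝ → ℝ} (hf : Continuous f) {N : ℕ} (hN : 1 ≤ N) : (squares f N).Finite := by
  have hN0 : (0 : ℝ) < N := by exact_mod_cast hN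
  obtain ⟨B, hB⟩ := (isCompact_Icc (a := (0 : ℝ)) (b := 1)).exists_bound_of_continuousOn hf.continuousOn
  refine ((Set.finite_Icc (-1 : ℤ) N).prod
    (Set.finite_Icc (⌊-(N * B)⌋ - 1 : ℤ) (⌈N * B⌉))).subset ?_
  rintro ⟨i, j⟩ ⟨x, hx, hxi, hxj⟩
  obtain ⟨h1, h2⟩ := hxi
  obtain ⟨h3, h4⟩ := hxj
  simp only at h1 h2 h3 h4
  rw [div_le_iff₀ hN0] at h1 h3
  rw [le_div_iff₀ hN0] at h2 h4
  have hb := abs_le.mp (hB x hx)
  refine Set.mem_prod.mpr ⟨⟨?_, ?_⟩, ⟨?_, ?_⟩⟩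
  · have : (-1 : ℝ) ≤ i := by nlinarith [hx.1]
    exact_mod_cast this
  · have : (i : ℝ) ≤ N := by nlinarith [hx.2]
    exact_mod_cast this
  · change (⌊-(N * B)⌋ - 1 : ℤ) ≤ j
    have h5 : (-(N * B) : ℝ) ≤ j + 1 := by nlinarith [hb.1]
    have h6 : (⌊-(N * B)⌋ : ℝ) ≤ j + 1 := (Int.floor_le _).trans h5
    have h7 : (⌊-(N * B)⌋ : ℤ) ≤ j + 1 := by exact_mod_cast h6
    omega
  · change j ≤ ⌈N * B⌉
    have h5 : (j : ℝ) ≤ N * B := by nlinarith [hb.2]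
    exact_mod_cast h5.trans (Int.le_ceil _)

lemma mul_V_le {f : ℝ → ℝ} (hf : Continuous f) {N : ℕ} (hN : 1 ≤ N) :
    (N : ℝ) * V f N ≤ boxCount f N := by
  have hN0 : (0 : ℝ) < N := by exact_mod_cast hN
  let m : ℕ → ℝ := fun i => sInf (f '' Set.Icc ((i : ℝ) / N) (((i : ℝ) + 1) / N))
  let M : ℕ → ℝ := fun i => sSup (f '' Set.Icc ((i : ℝ) / N) (((i : ℝ) + 1) / N))
  have hle : ∀ i : ℕ, (i : ℝ) / N ≤ ((i : ℝ) + 1) / N := fun i =>
    div_le_div_of_nonneg_right (by linarith) hN0.le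
  have himg : ∀ i : ℕ, f '' Set.Icc ((i : ℝ) / N) (((i : ℝ) + 1) / N) = Set.Icc (m i) (M i) := fun i =>
    ContinuousOn.image_Icc (hle i) hf.continuousOn
  have hmM : ∀ i, m i ≤ M i := by
    intro i
    have : (f '' Set.Icc ((i : ℝ) / N) (((i : ℝ) + 1) / N)).Nonempty := ⟨_, ⟨_, Set.left_mem_Icc.mpr (hle i), rfl⟩⟩
    rw [himg i] at this
    exact Set.nonempty_Icc.mp this
  let Sg : Finset (Σ _ : ℕ, ℤ) := (range N).sigma (fun i => Finset.Icc ⌊(N : ℝ) * m i⌋ ⌊(N : ℝ) * M i⌋)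
  let φ : (Σ _ : ℕ, ℤ) → ℤ × ℤ := fun s => ((s.1 : ℤ), s.2)
  have hφ : Function.Injective φ := by
    rintro ⟨a, b⟩ ⟨c, d⟩ h
    have h1 : (a : ℤ) = c := congrArg Prod.fst h
    have h2 : b = d := congrArg Prod.snd h
    have h3 : a = c := by exact_mod_cast h1
    rw [h3, h2]
  have hsub : ((Sg.image φ : Finset (ℤ × ℤ)) : Set (ℤ × ℤ)) ⊆ squares f N := by
    intro p hp
    obtain ⟨s, hs, rfl⟩ := Finset.mem_image.mp (Finset.mem_coe.mp hp)
    obtain ⟨hs1, hs2⟩ := Finset.mem_sigma.mp hs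
    obtain ⟨i, j⟩ := s
    simp only [Finset.mem_range] at hs1
    obtain ⟨h1, h2⟩ := Finset.mem_Icc.mp hs2
    simp only at h1 h2 hs1
    have hj1 : (j : ℝ) ≤ N * M i := (Int.le_floor.mp h2)
    have hj2 : (N : ℝ) * m i < j + 1 := Int.floor_lt.mp (lt_of_le_of_lt h1 (lt_add_one j)) |>.trans_le (by push_cast; exact le_rfl)
    have hy : max (m i) ((j : ℝ) / N) ∈ f '' Set.Icc ((i : ℝ) / N) (((i : ℝ) + 1) / N) := by
      rw [himg i]
      exact ⟨le_max_left _ _, max_le (hmM i) (by rw [div_le_iff₀ hN0]; linarith)⟩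
    obtain ⟨x, hx, hxy⟩ := hy
    refine ⟨x, ⟨?_, ?_⟩, ?_, ?_⟩
    · exact le_trans (by positivity) hx.1
    · refine hx.2.trans ?_
      rw [div_le_one hN0]
      exact_mod_cast hs1
    · simpa [φ] using hx
    · rw [hxy]
      refine ⟨le_max_right _ _, max_le ?_ ?_⟩
      · rw [le_div_iff₀ hN0]; simp only [φ]; linarith
      · exact div_le_div_of_nonneg_right (by simp only [φ]; linarith) hN0.le
  have hcard : Sg.card ≤ boxCount f N := by
    rw [← Finset.card_image_of_injective Sg hφ, ← Set.ncard_coe_finset]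
    exact Set.ncard_le_ncard hsub (squares_finite hf hN)
  have hcard2 : (N : ℝ) * V f N ≤ (Sg.card : ℝ) := by
    rw [Finset.card_sigma]
    unfold V
    rw [mul_sum]
    push_cast
    refine Finset.sum_le_sum fun i _ => ?_
    rw [himg i, Real.diam_Icc (hmM i), Int.card_Icc]
    have h1 : ((⌊(N : ℝ) * M i⌋ + 1 - ⌊(N : ℝ) * m i⌋ : ℤ) : ℝ)
        ≤ (((⌊(N : ℝ) * M i⌋ + 1 - ⌊(N : ℝ) * m i⌋).toNat : ℤ) : ℝ) := by
      exact_mod_cast Int.self_le_toNat _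
    push_cast at h1
    have h2 := Int.lt_floor_add_one ((N : ℝ) * M i)
    have h3 := Int.floor_le ((N : ℝ) * m i)
    have h4 : (((⌊(N : ℝ) * M i⌋ + 1 - ⌊(N : ℝ) * m i⌋).toNat : ℤ) : ℝ)
      = ((⌊(N : ℝ) * M i⌋ + 1 - ⌊(N : ℝ) * m i⌋).toNat : ℝ) := by norm_cast
    linarith
  exact hcard2.trans (by exact_mod_cast hcard)

lemma dim_of_V {f : ℝ → ℝ} (hf : Continuous f) {β c v : ℝ} (hc : 0 < c)
    (h : ∃ᶠ N : ℕ in atTop, c * (N : ℝ) ^ β ≤ V f N) (hv : v < 1 + β) :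
    (v : EReal) ≤ upperBoxDim f := by
  unfold upperBoxDim
  refine Filter.le_limsup_of_frequently_le' ?_
  have hlog : ∀ᶠ N : ℕ in atTop, -Real.log c / (1 + β - v) ≤ Real.log N :=
    (Real.tendsto_log_atTop.comp tendsto_natCast_atTop_atTop).eventually_ge_atTop _
  refine (h.and_eventually (hlog.and (eventually_ge_atTop 2))).mono ?_
  rintro N ⟨h1, h2, h3⟩
  have hN0 : (0 : ℝ) < N := by exact_mod_cast (by omega : 0 < N)
  have hlogN : 0 < Real.log N := Real.log_pos (by exact_mod_cast (by omega : 1 < N))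
  have h4 : c * (N : ℝ) ^ (1 + β) ≤ boxCount f N := by
    have := mul_V_le hf (by omega : 1 ≤ N)
    rw [Real.rpow_add hN0, Real.rpow_one]
    calc c * ((N : ℝ) * (N : ℝ) ^ β) = N * (c * (N : ℝ) ^ β) := by ring
      _ ≤ N * V f N := by gcongr
      _ ≤ _ := this
  have h5 : Real.log (c * (N : ℝ) ^ (1 + β)) ≤ Real.log (boxCount f N) :=
    Real.log_le_log (by positivity) h4
  rw [Real.log_mul hc.ne' (by positivity), Real.log_rpow hN0] at h5
  have h6 : -Real.log c ≤ Real.log N * (1 + β - v) := by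
    rwa [div_le_iff₀ (by linarith)] at h2
  have : v ≤ Real.log (boxCount f N) / Real.log N := by
    rw [le_div_iff₀ hlogN]
    nlinarith
  exact_mod_cast this

end R605.RiemannBox
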