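import Mathlib
import Pool.Agent.R605.RiemannBox

open Real Filter Topology Finset

namespace R605.RiemannBox

/-- `G_δ(x) = ∑_{n ≥ 1} g(n² x)/n^{1+δ}` (the index is shifted by one). -/
noncomputable def G (δ : ℝ) (g : ℝ → ℝ) (x : ℝ) : ℝ :=
  ∑' n : ℕ, g (((n : ℝ) + 1) ^ 2 * x) / ((n : ℝ) + 1) ^ (1 + δ)

/-- Fourier coefficients. -/
noncomputable def fc (g : ℝ → ℝ) (m : ℤ) : ℂ :=
  ∫ x in (0 : ℝ)..1, (g x : ℂ) * Complex.exp (-(2 * π * Complex.I * m * x))

noncomputable def w (δ : ℝ) (n : ℕ) : ℝ := 1 / ((n : ℝ) + 1) ^ (1 + δ)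

lemma w_pos (δ : ℝ) (n : ℕ) : 0 < w δ n := by unfold w; positivity

lemma w_summable {δ : ℝ} (hδ : 0 < δ) : Summable (w δ) := by
  have h : Summable fun n : ℕ => 1 / (n : ℝ) ^ (1 + δ) :=
    Real.summable_one_div_nat_rpow.mpr (by linarith)
  have := (summable_nat_add_iff 1).mpr h
  refine this.congr fun n => ?_
  unfold w; push_cast; rfl

noncomputable def R (δ : ℝ) (x : ℝ) : ℝ := G δ (fun y => Real.cos (2 * π * y)) x

noncomputable def Z (δ : ℝ) : ℝ := ∑' n, w δ n

lemma R_term (δ x : ℝ) (n : ℕ) : Real.cos (2 * π * (((n : ℝ) + 1) ^ 2 * x)) / ((n : ℝ) + 1) ^ (1 + δ)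
    = Real.cos (2 * π * (((n : ℝ) + 1) ^ 2 * x)) * w δ n := by
  unfold w; ring

lemma R_bound (δ x : ℝ) (n : ℕ) :
    ‖Real.cos (2 * π * (((n : ℝ) + 1) ^ 2 * x)) / ((n : ℝ) + 1) ^ (1 + δ)‖ ≤ w δ n := by
  rw [R_term, norm_mul, Real.norm_of_nonneg (w_pos δ n).le]
  have := Real.abs_cos_le_one (2 * π * (((n : ℝ) + 1) ^ 2 * x))
  calc _ ≤ 1 * w δ n := mul_le_mul_of_nonneg_right this (w_pos δ n).le
    _ = _ := one_mul _

lemma R_summable {δ : ℝ} (hδ : 0 < δ) (x : ℝ) : Summable fun n : ℕ =>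
    Real.cos (2 * π * (((n : ℝ) + 1) ^ 2 * x)) / ((n : ℝ) + 1) ^ (1 + δ) :=
  Summable.of_norm_bounded (w_summable hδ) (R_bound δ x)

lemma abs_R_le {δ : ℝ} (hδ : 0 < δ) (x : ℝ) : |R δ x| ≤ Z δ := by
  unfold R G Z
  exact tsum_of_norm_bounded (w_summable hδ).hasSum (R_bound δ x)

lemma R_cont {δ : ℝ} (hδ : 0 < δ) : Continuous (R δ) := by
  unfold R G
  refine continuous_tsum (fun n => ?_) (w_summable hδ) (fun n x => R_bound δ x n)
  fun_prop

lemma R_add_nat (δ x : ℝ) (i : ℕ) : R δ (x + i) = R δ x := by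
  unfold R G
  congr 1
  funext n
  congr 1
  have : 2 * π * (((n : ℝ) + 1) ^ 2 * (x + i)) = 2 * π * (((n : ℝ) + 1) ^ 2 * x)
      + (((n + 1) ^ 2 * i : ℕ) : ℝ) * (2 * π) := by push_cast; ring
  change Real.cos (2 * π * (((n : ℝ) + 1) ^ 2 * (x + i))) = Real.cos (2 * π * (((n : ℝ) + 1) ^ 2 * x))
  rw [this, Real.cos_add_nat_mul_two_pi]

noncomputable def om (δ : ℝ) : ℝ := R δ 0 - R δ (1 / 2)

lemma om_pos {δ : ℝ} (hδ : 0 < δ) : 0 < om δ := by
  unfold om
  have h : R δ 0 - R δ (1 / 2) = ∑' n : ℕ,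
      (Real.cos (2 * π * (((n : ℝ) + 1) ^ 2 * 0)) / ((n : ℝ) + 1) ^ (1 + δ)
        - Real.cos (2 * π * (((n : ℝ) + 1) ^ 2 * (1 / 2))) / ((n : ℝ) + 1) ^ (1 + δ)) := by
    unfold R G
    exact ((R_summable hδ 0).tsum_sub (R_summable hδ (1/2))).symm
  rw [h]
  refine ((R_summable hδ 0).sub (R_summable hδ (1/2))).tsum_pos (fun n => ?_) 0 ?_
  · rw [R_term, R_term, ← sub_mul]
    refine mul_nonneg ?_ (w_pos δ n).le
    rw [mul_zero, mul_zero, Real.cos_zero]
    linarith [Real.cos_le_one (2 * π * (((n : ℝ) + 1) ^ 2 * (1 / 2)))]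
  · rw [R_term, R_term, ← sub_mul]
    refine mul_pos ?_ (w_pos δ 0)
    have : 2 * π * ((((0 : ℕ) : ℝ) + 1) ^ 2 * (1 / 2)) = π := by push_cast; ring
    rw [this, mul_zero, mul_zero, Real.cos_zero, Real.cos_pi]
    norm_num

/-- The outer function. -/
noncomputable def gS (C : ℕ → ℝ) (k : ℕ → ℕ) (x : ℝ) : ℝ := ∑' j, C j * Real.cos (2 * π * (k j * x))

section gS

variable {C : ℕ → ℝ} {k : ℕ → ℕ} (hC : ∀ j, 0 ≤ C j) (hCs : Summable C)

include hC in
lemma gS_bound (j : ℕ) (y : ℝ) : ‖C j * Real.cos y‖ ≤ C j := by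
  rw [norm_mul, Real.norm_of_nonneg (hC j)]
  calc _ ≤ C j * 1 := mul_le_mul_of_nonneg_left (Real.abs_cos_le_one _) (hC j)
    _ = _ := mul_one _

include hC hCs

lemma gS_summable (x : ℝ) : Summable fun j => C j * Real.cos (2 * π * (k j * x)) :=
  Summable.of_norm_bounded hCs (fun j => gS_bound hC j _)

lemma gS_cont : Continuous (gS C k) := by
  unfold gS
  refine continuous_tsum (fun n => ?_) hCs (fun n x => gS_bound hC n _)
  fun_prop

omit hC hCs in
lemma gS_per (x : ℝ) : gS C k (x + 1) = gS C k x := by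
  unfold gS
  congr 1
  funext j
  have : 2 * π * ((k j : ℝ) * (x + 1)) = 2 * π * (k j * x) + (k j : ℝ) * (2 * π) := by ring
  rw [this, Real.cos_add_nat_mul_two_pi]

lemma G_gS {δ : ℝ} (hδ : 0 < δ) (x : ℝ) : G δ (gS C k) x = ∑' j, C j * R δ (k j * x) := by
  unfold G gS
  have h1 : ∀ n : ℕ, (∑' j, C j * Real.cos (2 * π * (k j * (((n : ℝ) + 1) ^ 2 * x)))) / ((n : ℝ) + 1) ^ (1 + δ)
      = ∑' j, (C j * Real.cos (2 * π * (k j * (((n : ℝ) + 1) ^ 2 * x)))) * w δ n := by
    intro n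
    rw [tsum_mul_right]
    unfold w; ring
  simp_rw [h1]
  have hs : Summable (Function.uncurry fun (n j : ℕ) =>
      (C j * Real.cos (2 * π * (k j * (((n : ℝ) + 1) ^ 2 * x)))) * w δ n) := by
    have h2 : Summable fun p : ℕ × ℕ => w δ p.1 * C p.2 :=
      (w_summable hδ).mul_of_nonneg hCs (fun n => (w_pos δ n).le) hC
    refine Summable.of_norm_bounded h2 fun p => ?_
    change ‖(C p.2 * Real.cos _) * w δ p.1‖ ≤ _
    rw [norm_mul, Real.norm_of_nonneg (w_pos δ _).le, mul_comm]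
    exact mul_le_mul_of_nonneg_left (gS_bound hC _ _) (w_pos δ _).le
  rw [← hs.tsum_comm]
  congr 1
  funext j
  unfold R G
  rw [← tsum_mul_left]
  congr 1
  funext n
  have : (k j : ℝ) * (((n : ℝ) + 1) ^ 2 * x) = ((n : ℝ) + 1) ^ 2 * (k j * x) := by ring
  rw [this]
  unfold w; ring

lemma G_gS_cont {δ : ℝ} (hδ : 0 < δ) : Continuous (G δ (gS C k)) := by
  have : G δ (gS C k) = fun x => ∑' j, C j * R δ (k j * x) := by
    funext x; exact G_gS hC hCs hδ x
  rw [this]
  refine continuous_tsum (fun j => ?_) (hCs.mul_right (Z δ)) (fun j x => ?_)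
  · exact continuous_const.mul ((R_cont hδ).comp (by fun_prop))
  · rw [norm_mul, Real.norm_of_nonneg (hC j)]
    exact mul_le_mul_of_nonneg_left (abs_R_le hδ _) (hC j)

end gS

lemma int_exp (n : ℤ) : ∫ x in (0 : ℝ)..1, Complex.exp (2 * π * Complex.I * n * x) = if n = 0 then 1 else 0 := by
  split_ifs with h
  · subst h; simp
  · have hc : (2 * π * Complex.I * n : ℂ) ≠ 0 := by
      simp [Real.pi_ne_zero, h]
    rw [integral_exp_mul_complex hc]
    have : Complex.exp (2 * π * Complex.I * n * ((1 : ℝ) : ℂ)) = 1 := by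
      have := Complex.exp_int_mul_two_pi_mul_I n
      rw [← this]
      congr 1
      push_cast; ring
    rw [this]; simp

lemma int_cos {k m : ℕ} (hk : 1 ≤ k) (hm : 1 ≤ m) :
    ∫ x in (0 : ℝ)..1, ((Real.cos (2 * π * (k * x)) : ℝ) : ℂ) * Complex.exp (-(2 * π * Complex.I * (m : ℤ) * x))
      = if k = m then 1 / 2 else 0 := by
  have h1 : ∀ x : ℝ, ((Real.cos (2 * π * (k * x)) : ℝ) : ℂ) * Complex.exp (-(2 * π * Complex.I * (m : ℤ) * x))
      = (1 / 2) * (Complex.exp (2 * π * Complex.I * ((k - m : ℤ) : ℂ) * x)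
        + Complex.exp (2 * π * Complex.I * ((-k - m : ℤ) : ℂ) * x)) := by
    intro x
    rw [Complex.ofReal_cos, Complex.cos]
    have e1 : Complex.exp (2 * π * Complex.I * ((k - m : ℤ) : ℂ) * x)
        = Complex.exp (((2 * π * (k * x) : ℝ) : ℂ) * Complex.I) * Complex.exp (-(2 * π * Complex.I * (m : ℤ) * x)) := by
      rw [← Complex.exp_add]; congr 1; push_cast; ring
    have e2 : Complex.exp (2 * π * Complex.I * ((-k - m : ℤ) : ℂ) * x)
        = Complex.exp (-((2 * π * (k * x) : ℝ) : ℂ) * Complex.I) * Complex.exp (-(2 * π * Complex.I * (m : ℤ) * x)) := by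
      rw [← Complex.exp_add]; congr 1; push_cast; ring
    rw [e1, e2]; ring
  simp_rw [h1]
  rw [intervalIntegral.integral_const_mul, intervalIntegral.integral_add, int_exp, int_exp]
  · have h2 : ¬ (-(k : ℤ) - m = 0) := by omega
    rw [if_neg h2]
    by_cases h : k = m
    · have : ((k : ℤ) - m = 0) := by omega
      rw [if_pos this, if_pos h]; ring
    · have : ¬ ((k : ℤ) - m = 0) := by omega
      rw [if_neg this, if_neg h]; ring
  · exact (by fun_prop : Continuous fun x : ℝ => Complex.exp (2 * π * Complex.I * ((k - m : ℤ) : ℂ) * x)).intervalIntegrable _ _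
  · exact (by fun_prop : Continuous fun x : ℝ => Complex.exp (2 * π * Complex.I * ((-k - m : ℤ) : ℂ) * x)).intervalIntegrable _ _

lemma norm_exp_neg (m : ℤ) (x : ℝ) : ‖Complex.exp (-(2 * π * Complex.I * m * x))‖ = 1 := by
  have : -(2 * π * Complex.I * m * x) = ((-(2 * π * m * x) : ℝ) : ℂ) * Complex.I := by push_cast; ring
  rw [this, Complex.norm_exp_ofReal_mul_I]

lemma fc_gS {C : ℕ → ℝ} {k : ℕ → ℕ} (hC : ∀ j, 0 ≤ C j) (hCs : Summable C) (hk : ∀ j, 1 ≤ k j)
    {m : ℕ} (hm : 1 ≤ m) :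
    fc (gS C k) (m : ℤ) = (((∑' j, if k j = m then C j / 2 else 0) : ℝ) : ℂ) := by
  have key := intervalIntegral.hasSum_integral_of_dominated_convergence (ι := ℕ) (μ := MeasureTheory.volume)
    (a := (0 : ℝ)) (b := 1)
    (F := fun j x => ((C j * Real.cos (2 * π * (k j * x)) : ℝ) : ℂ) * Complex.exp (-(2 * π * Complex.I * (m : ℤ) * x)))
    (f := fun x => ((gS C k x : ℝ) : ℂ) * Complex.exp (-(2 * π * Complex.I * (m : ℤ) * x)))
    (fun j _ => C j) ?_ ?_ ?_ ?_ ?_
  · unfold fc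
    rw [← key.tsum_eq, Complex.ofReal_tsum]
    congr 1
    funext j
    have h1 : ∀ x : ℝ, ((C j * Real.cos (2 * π * (k j * x)) : ℝ) : ℂ) * Complex.exp (-(2 * π * Complex.I * (m : ℤ) * x))
        = (C j : ℂ) * (((Real.cos (2 * π * (k j * x)) : ℝ) : ℂ) * Complex.exp (-(2 * π * Complex.I * (m : ℤ) * x))) := by
      intro x; push_cast; ring
    simp_rw [h1]
    rw [intervalIntegral.integral_const_mul, int_cos (hk j) hm]
    split_ifs
    · push_cast; ring
    · simp
  · intro j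
    exact (by fun_prop : Continuous fun x : ℝ => ((C j * Real.cos (2 * π * (k j * x)) : ℝ) : ℂ) * Complex.exp (-(2 * π * Complex.I * (m : ℤ) * x))).aestronglyMeasurable
  · intro j
    refine Eventually.of_forall fun x _ => ?_
    rw [norm_mul, norm_exp_neg, mul_one, Complex.norm_real]
    exact gS_bound hC j _
  · exact Eventually.of_forall fun x _ => hCs
  · exact intervalIntegrable_const
  · refine Eventually.of_forall fun x _ => ?_
    have h1 := (gS_summable (k := k) hC hCs x).hasSum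
    have h2 := (Complex.hasSum_ofReal.mpr h1).mul_right (Complex.exp (-(2 * π * Complex.I * (m : ℤ) * x)))
    exact h2

section assemble

variable {δ : ℝ} {C : ℕ → ℝ} {k : ℕ → ℕ}

noncomputable def A (C : ℕ → ℝ) (k : ℕ → ℕ) (m : ℕ) : ℝ := ∑' j, if k j = m then C j / 2 else 0

lemma A_k (hinj : Function.Injective k) (j : ℕ) : A C k (k j) = C j / 2 := by
  unfold A
  rw [tsum_eq_single j]
  · rw [if_pos rfl]
  · intro i hi
    rw [if_neg (fun h => hi (hinj h))]

lemma A_zero {m : ℕ} (hm : m ∉ Set.range k) : A C k m = 0 := by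
  unfold A
  have : (fun j => if k j = m then C j / 2 else 0) = fun _ => (0 : ℝ) := by
    funext j
    rw [if_neg (fun h => hm ⟨j, h⟩)]
  rw [this, tsum_zero]

lemma A_nonneg (hC : ∀ j, 0 ≤ C j) (m : ℕ) : 0 ≤ A C k m := by
  refine tsum_nonneg fun j => ?_
  split_ifs
  · exact div_nonneg (hC j) (by norm_num)
  · exact le_rfl

theorem assemble (hδ : 0 < δ) (hinj : Function.Injective k)
    (hk : ∀ j, 1 ≤ k j) (hC : ∀ j, 0 ≤ C j) (hC0 : 0 < C 0) {ε : ℝ} (hε : 0 < ε)
    (hs : Summable fun j => C j * (k j : ℝ) ^ ((ε + δ) / 2)) :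
    Continuous (gS C k) ∧ (∀ x, gS C k (x + 1) = gS C k x) ∧
      Summable (fun m : ℕ => ‖fc (gS C k) m‖ * (m : ℝ) ^ ((ε + δ) / 2)) ∧
      ∃ d₀ : ℕ, Squarefree d₀ ∧
        ∑' m : ℕ, fc (gS C k) (((m + 1) ^ 2 * d₀ : ℕ) : ℤ) * (((((m + 1) ^ 2 * d₀ : ℕ) : ℝ) ^ (δ / 2) : ℝ) : ℂ) ≠ 0 := by
  have hCs : Summable C := by
    refine Summable.of_nonneg_of_le hC (fun j => ?_) hs
    have : (1 : ℝ) ≤ (k j : ℝ) ^ ((ε + δ) / 2) :=
      Real.one_le_rpow (by exact_mod_cast hk j) (by positivity)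
    nlinarith [hC j]
  have hfc : ∀ m : ℕ, 1 ≤ m → fc (gS C k) (m : ℤ) = ((A C k m : ℝ) : ℂ) := fun m hm =>
    fc_gS hC hCs hk hm
  have hA0 : A C k 0 = 0 := A_zero (by rintro ⟨j, hj⟩; have := hk j; omega)
  have hsA : Summable fun m : ℕ => A C k m * (m : ℝ) ^ ((ε + δ) / 2) := by
    rw [← hinj.summable_iff]
    · refine (hs.div_const 2).congr fun j => ?_
      simp only [Function.comp]
      rw [A_k hinj]; ring
    · intro m hm
      rw [A_zero hm, zero_mul]
  have hsB : Summable fun m : ℕ => A C k m * (m : ℝ) ^ (δ / 2) := by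
    refine Summable.of_nonneg_of_le (fun m => mul_nonneg (A_nonneg hC m) (by positivity)) (fun m => ?_) hsA
    rcases Nat.eq_zero_or_pos m with h | h
    · subst h; rw [hA0]; simp
    · refine mul_le_mul_of_nonneg_left ?_ (A_nonneg hC m)
      exact Real.rpow_le_rpow_of_exponent_le (by exact_mod_cast h) (by linarith)
  refine ⟨gS_cont hC hCs, gS_per, ?_, ?_⟩
  · refine hsA.congr fun m => ?_
    rcases Nat.eq_zero_or_pos m with h | h
    · subst h
      rw [hA0]
      have : ((0 : ℕ) : ℝ) ^ ((ε + δ) / 2) = 0 := by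
        rw [Nat.cast_zero]
        exact Real.zero_rpow (by positivity)
      rw [this]; simp
    · rw [hfc m h, Complex.norm_real, Real.norm_of_nonneg (A_nonneg hC m)]
  · obtain ⟨a, b, ha, hb, hab, hsq⟩ := Nat.sq_mul_squarefree_of_pos (hk 0)
    refine ⟨a, hsq, ?_⟩
    have h1 : ∀ m : ℕ, fc (gS C k) (((m + 1) ^ 2 * a : ℕ) : ℤ) * (((((m + 1) ^ 2 * a : ℕ) : ℝ) ^ (δ / 2) : ℝ) : ℂ)
        = ((A C k ((m + 1) ^ 2 * a) * ((((m + 1) ^ 2 * a : ℕ) : ℝ) ^ (δ / 2)) : ℝ) : ℂ) := by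
      intro m
      rw [hfc _ (Nat.succ_le_of_lt (by positivity))]
      push_cast; rfl
    simp_rw [h1]
    rw [← Complex.ofReal_tsum]
    have hinj2 : Function.Injective fun m : ℕ => (m + 1) ^ 2 * a := by
      intro m n hmn
      have h2 : (m + 1) ^ 2 = (n + 1) ^ 2 := Nat.eq_of_mul_eq_mul_right ha hmn
      have h3 : m + 1 = n + 1 := (Nat.pow_left_injective (by norm_num : (2 : ℕ) ≠ 0)) h2
      omega
    have hsum : Summable fun m : ℕ => A C k ((m + 1) ^ 2 * a) * ((((m + 1) ^ 2 * a : ℕ) : ℝ) ^ (δ / 2)) :=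
      hsB.comp_injective hinj2
    have hpos : 0 < ∑' m : ℕ, A C k ((m + 1) ^ 2 * a) * ((((m + 1) ^ 2 * a : ℕ) : ℝ) ^ (δ / 2)) := by
      refine hsum.tsum_pos (fun m => mul_nonneg (A_nonneg hC _) (by positivity)) (b - 1) ?_
      have h4 : (b - 1 + 1) ^ 2 * a = k 0 := by
        rw [Nat.sub_add_cancel hb]; exact hab
      rw [h4, A_k hinj]
      have : (0 : ℝ) < (k 0 : ℝ) := by exact_mod_cast hk 0
      positivity
    exact_mod_cast hpos.ne'

end assemble

section caseB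

variable {δ : ℝ}

/-- Case B: the lacunary construction. -/
theorem caseB (hδ : 0 < δ)
    (hB : ∀ k : ℕ, 1 ≤ k → ∀ c : ℝ, 0 < c →
      ∀ᶠ N : ℕ in atTop, V (fun x => R δ (k * x)) N ≤ c * (N : ℝ) ^ (7 / 8 - δ / 2)) :
    ∃ (C : ℕ → ℝ) (k : ℕ → ℕ), Function.Injective k ∧ (∀ j, 1 ≤ k j) ∧ (∀ j, 0 ≤ C j) ∧ 0 < C 0 ∧
      Summable (fun j => C j * (k j : ℝ) ^ ((1 / 8 + δ) / 2)) ∧
      ∃ c > 0, ∃ᶠ N : ℕ in atTop, c * (N : ℝ) ^ (7 / 8 - δ / 2) ≤ V (G δ (gS C k)) N := by
  have hω := om_pos hδ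
  have hZ : 0 < Z δ := (w_summable hδ).tsum_pos (fun n => (w_pos δ n).le) 0 (w_pos δ 0)
  obtain ⟨r, hr0, hr1, hr2⟩ : ∃ r : ℝ, 0 < r ∧ r ≤ 1 / 2 ∧ 4 * Z δ * r ≤ om δ / 4 := by
    refine ⟨min (1 / 2) (om δ / (16 * Z δ)), by positivity, min_le_left _ _, ?_⟩
    have : min (1 / 2) (om δ / (16 * Z δ)) ≤ om δ / (16 * Z δ) := min_le_right _ _
    calc 4 * Z δ * min (1 / 2) (om δ / (16 * Z δ)) ≤ 4 * Z δ * (om δ / (16 * Z δ)) := by gcongr
      _ = om δ / 4 := by field_simp; norm_num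
  set γ : ℝ := δ / 2 + 1 / 8 with hγ
  have hγ0 : 0 < γ := by positivity
  obtain ⟨K, hK2, hKr⟩ : ∃ K : ℕ, 2 ≤ K ∧ (K : ℝ) ^ (-γ) ≤ r := by
    have h1 : Tendsto (fun K : ℕ => (K : ℝ) ^ (-γ)) atTop (𝓝 0) :=
      (tendsto_rpow_neg_atTop hγ0).comp tendsto_natCast_atTop_atTop
    obtain ⟨K, hK⟩ := ((h1.eventually (gt_mem_nhds hr0)).and (eventually_ge_atTop 2)).exists
    exact ⟨K, hK.2, hK.1.le⟩
  have hT : ∀ k j : ℕ, ∃ T : ℕ, 1 ≤ k → ∀ N : ℕ, T ≤ N →
      (k : ℝ) ^ (-γ) * V (fun x => R δ (k * x)) N ≤ (om δ / 4) * (1 / 2) ^ (j + 1) * (N : ℝ) ^ (7 / 8 - δ / 2) := by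
    intro k j
    rcases Nat.eq_zero_or_pos k with h | h
    · exact ⟨0, fun h' => by omega⟩
    · obtain ⟨T, hT⟩ := eventually_atTop.mp (hB k h ((om δ / 4) * (1 / 2) ^ (j + 1)) (by positivity))
      refine ⟨T, fun _ N hN => ?_⟩
      have h1 : (k : ℝ) ^ (-γ) ≤ 1 :=
        Real.rpow_le_one_of_one_le_of_nonpos (by exact_mod_cast h) (by linarith)
      have h2 : 0 ≤ V (fun x => R δ (k * x)) N := Finset.sum_nonneg fun _ _ => Metric.diam_nonneg
      calc (k : ℝ) ^ (-γ) * V (fun x => R δ (k * x)) N ≤ 1 * V (fun x => R δ (k * x)) N := by gcongr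
        _ = V (fun x => R δ (k * x)) N := one_mul _
        _ ≤ _ := hT N hN
  choose T hT using hT
  obtain ⟨kk, hkk0, hkk⟩ : ∃ kk : ℕ → ℕ, kk 0 = 1 ∧ ∀ j, kk (j + 1) = max (K * kk j) (T (kk j) j) :=
    ⟨fun n => Nat.rec 1 (fun j kj => max (K * kj) (T kj j)) n, rfl, fun j => rfl⟩
  have hk1 : ∀ j, 1 ≤ kk j := by
    intro j
    induction j with
    | zero => rw [hkk0]
    | succ j ih =>
      rw [hkk]
      exact le_max_of_le_left (by nlinarith)
  have hkK : ∀ j, K * kk j ≤ kk (j + 1) := fun j => by rw [hkk]; exact le_max_left _ _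
  have hkT : ∀ j, T (kk j) j ≤ kk (j + 1) := fun j => by rw [hkk]; exact le_max_right _ _
  have hmono : StrictMono kk := strictMono_nat_of_lt_succ fun j => by
    have := hkK j; have := hk1 j; nlinarith
  let C : ℕ → ℝ := fun j => (kk j : ℝ) ^ (-γ)
  have hCpos : ∀ j, 0 < C j := fun j => by
    have : (0 : ℝ) < kk j := by exact_mod_cast hk1 j
    change 0 < (kk j : ℝ) ^ (-γ)
    positivity
  have hCstep : ∀ j, C (j + 1) ≤ r * C j := by
    intro j
    have hpos : (0 : ℝ) < kk j := by exact_mod_cast hk1 j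
    have hKpos : (0 : ℝ) < K := by exact_mod_cast (by omega : 0 < K)
    calc C (j + 1) ≤ ((K : ℝ) * kk j) ^ (-γ) :=
          Real.rpow_le_rpow_of_nonpos (by positivity) (by exact_mod_cast hkK j) (by linarith)
      _ = (K : ℝ) ^ (-γ) * (kk j : ℝ) ^ (-γ) := Real.mul_rpow hKpos.le hpos.le
      _ ≤ r * C j := mul_le_mul_of_nonneg_right hKr (hCpos j).le
  have hCgeom : ∀ j i, C (i + j) ≤ r ^ i * C j := by
    intro j i
    induction i with
    | zero => simp
    | succ i ih =>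
      have h1 : i + 1 + j = (i + j) + 1 := by ring
      rw [h1]
      calc C (i + j + 1) ≤ r * C (i + j) := hCstep _
        _ ≤ r * (r ^ i * C j) := by gcongr
        _ = r ^ (i + 1) * C j := by ring
  have hCs : Summable C := by
    refine Summable.of_nonneg_of_le (fun j => (hCpos j).le) (fun j => ?_)
      ((summable_geometric_of_lt_one hr0.le (by linarith)).mul_right (C 0))
    exact hCgeom 0 j
  have hCnn : ∀ j, 0 ≤ C j := fun j => (hCpos j).le
  refine ⟨C, kk, hmono.injective, hk1, hCnn, hCpos 0, ?_, om δ / 2, by positivity, ?_⟩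
  · -- summability
    have h1 : ∀ j, C j * (kk j : ℝ) ^ ((1 / 8 + δ) / 2) = (kk j : ℝ) ^ (-(1 / 16) : ℝ) := by
      intro j
      have hpos : (0 : ℝ) < kk j := by exact_mod_cast hk1 j
      change (kk j : ℝ) ^ (-γ) * _ = _
      rw [← Real.rpow_add hpos]
      congr 1
      rw [hγ]; ring
    simp_rw [h1]
    have h2 : ∀ j, (2 : ℝ) ^ j ≤ kk j := by
      intro j
      induction j with
      | zero => rw [hkk0]; norm_num
      | succ j ih =>
        have h3 : K * kk j ≤ kk (j + 1) := hkK j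
        have h4 : (2 : ℝ) * kk j ≤ kk (j + 1) := by
          have : 2 * kk j ≤ kk (j + 1) := le_trans (Nat.mul_le_mul_right _ hK2) h3
          exact_mod_cast this
        calc (2 : ℝ) ^ (j + 1) = 2 * 2 ^ j := by ring
          _ ≤ 2 * kk j := by gcongr
          _ ≤ _ := h4
    have h5 : (2 : ℝ) ^ (-(1 / 16) : ℝ) < 1 :=
      Real.rpow_lt_one_of_one_lt_of_neg (by norm_num) (by norm_num)
    refine Summable.of_nonneg_of_le (fun j => by positivity) (fun j => ?_)
      (summable_geometric_of_lt_one (by positivity) h5)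
    calc (kk j : ℝ) ^ (-(1 / 16) : ℝ) ≤ ((2 : ℝ) ^ j) ^ (-(1 / 16) : ℝ) :=
          Real.rpow_le_rpow_of_nonpos (by positivity) (h2 j) (by norm_num)
      _ = ((2 : ℝ) ^ (-(1 / 16) : ℝ)) ^ j := by
          rw [← Real.rpow_natCast, ← Real.rpow_natCast, ← Real.rpow_mul (by norm_num),
            ← Real.rpow_mul (by norm_num), mul_comm]
  · rw [frequently_atTop]
    intro N₀
    have hge : ∀ j, j ≤ kk j := fun j => hmono.le_apply
    refine ⟨kk N₀, hge N₀, ?_⟩
    -- write `j` for `N₀`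
    generalize N₀ = j
    set N := kk j with hN
    have hN1 : 1 ≤ N := hk1 j
    have hNpos : (0 : ℝ) < N := by exact_mod_cast hN1
    have hNC : (N : ℝ) * C j = (N : ℝ) ^ (7 / 8 - δ / 2) := by
      change (N : ℝ) * (N : ℝ) ^ (-γ) = _
      nth_rewrite 1 [← Real.rpow_one (N : ℝ)]
      rw [← Real.rpow_add hNpos]
      congr 1
      rw [hγ]; ring
    have hcol : ∀ i : ℕ, C j * om δ - (∑ l ∈ range j, C l *
          Metric.diam ((fun x => R δ (kk l * x)) '' Set.Icc ((i : ℝ) / N) (((i : ℝ) + 1) / N)))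
          - om δ / 4 * C j
        ≤ Metric.diam (G δ (gS C kk) '' Set.Icc ((i : ℝ) / N) (((i : ℝ) + 1) / N)) := by
      intro i
      set I := Set.Icc ((i : ℝ) / N) (((i : ℝ) + 1) / N) with hI
      have hx : (i : ℝ) / N ∈ I := ⟨le_rfl, div_le_div_of_nonneg_right (by linarith) hNpos.le⟩
      have hy : ((i : ℝ) + 1 / 2) / N ∈ I :=
        ⟨div_le_div_of_nonneg_right (by linarith) hNpos.le, div_le_div_of_nonneg_right (by linarith) hNpos.le⟩
      set x := (i : ℝ) / N with hxdef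
      set y := ((i : ℝ) + 1 / 2) / N with hydef
      have hGc := G_gS_cont (k := kk) hCnn hCs hδ
      have h1 : G δ (gS C kk) x - G δ (gS C kk) y ≤ Metric.diam (G δ (gS C kk) '' I) := by
        refine (le_abs_self _).trans ?_
        rw [← Real.dist_eq]
        exact Metric.dist_le_diam_of_mem (isCompact_Icc.image hGc).isBounded ⟨x, hx, rfl⟩ ⟨y, hy, rfl⟩
      refine le_trans ?_ h1
      rw [G_gS hCnn hCs hδ, G_gS hCnn hCs hδ]
      have hsx : ∀ x : ℝ, Summable fun l => C l * R δ (kk l * x) := fun x => by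
        refine Summable.of_norm_bounded (hCs.mul_right (Z δ)) fun l => ?_
        rw [norm_mul, Real.norm_of_nonneg (hCnn l)]
        exact mul_le_mul_of_nonneg_left (abs_R_le hδ _) (hCnn l)
      rw [← (hsx x).tsum_sub (hsx y)]
      have hsd := (hsx x).sub (hsx y)
      rw [← hsd.sum_add_tsum_nat_add (j + 1), Finset.sum_range_succ]
      -- the middle term
      have hmid : C j * R δ (kk j * x) - C j * R δ (kk j * y) = C j * om δ := by
        have e1 : (kk j : ℝ) * x = 0 + i := by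
          rw [hxdef, ← hN]; field_simp; ring
        have e2 : (kk j : ℝ) * y = 1 / 2 + i := by
          rw [hydef, ← hN]; field_simp; ring
        rw [e1, e2, R_add_nat, R_add_nat]
        unfold om; ring
      -- the small indices
      have hsmall : -(∑ l ∈ range j, C l * Metric.diam ((fun x => R δ (kk l * x)) '' I))
          ≤ ∑ l ∈ range j, (C l * R δ (kk l * x) - C l * R δ (kk l * y)) := by
        rw [← Finset.sum_neg_distrib]
        refine Finset.sum_le_sum fun l _ => ?_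
        have hc : Continuous fun x => R δ (kk l * x) := (R_cont hδ).comp (by fun_prop)
        have h2 : |R δ (kk l * x) - R δ (kk l * y)| ≤ Metric.diam ((fun x => R δ (kk l * x)) '' I) := by
          rw [← Real.dist_eq]
          exact Metric.dist_le_diam_of_mem (isCompact_Icc.image hc).isBounded ⟨x, hx, rfl⟩ ⟨y, hy, rfl⟩
        have h3 := (abs_le.mp h2).1
        have h4 := hCnn l
        nlinarith
      -- the tail
      have htail : -(om δ / 4 * C j) ≤ ∑' l, (C (l + (j + 1)) * R δ (kk (l + (j + 1)) * x)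
          - C (l + (j + 1)) * R δ (kk (l + (j + 1)) * y)) := by
        have hg : HasSum (fun l : ℕ => r ^ l * (r * C j * (2 * Z δ))) ((1 - r)⁻¹ * (r * C j * (2 * Z δ))) :=
          (hasSum_geometric_of_lt_one hr0.le (by linarith)).mul_right _
        have h5 : ‖∑' l, (C (l + (j + 1)) * R δ (kk (l + (j + 1)) * x)
            - C (l + (j + 1)) * R δ (kk (l + (j + 1)) * y))‖ ≤ (1 - r)⁻¹ * (r * C j * (2 * Z δ)) := by
          refine tsum_of_norm_bounded hg fun l => ?_
          rw [← mul_sub, norm_mul, Real.norm_of_nonneg (hCnn _)]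
          have h6 : ‖R δ (kk (l + (j + 1)) * x) - R δ (kk (l + (j + 1)) * y)‖ ≤ 2 * Z δ := by
            refine (norm_sub_le _ _).trans ?_
            have := abs_R_le hδ (kk (l + (j + 1)) * x)
            have := abs_R_le hδ (kk (l + (j + 1)) * y)
            rw [Real.norm_eq_abs, Real.norm_eq_abs]
            linarith
          have h7 : C (l + (j + 1)) ≤ r ^ l * (r * C j) :=
            (hCgeom (j + 1) l).trans (mul_le_mul_of_nonneg_left (hCstep j) (by positivity))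
          calc C (l + (j + 1)) * ‖R δ (kk (l + (j + 1)) * x) - R δ (kk (l + (j + 1)) * y)‖
              ≤ (r ^ l * (r * C j)) * (2 * Z δ) := by
                have := hCnn j
                gcongr
            _ = _ := by ring
        rw [Real.norm_eq_abs] at h5
        have h8 := (abs_le.mp h5).1
        have h9 : (1 - r)⁻¹ ≤ 2 := by
          rw [inv_le_comm₀ (by linarith) (by norm_num)]
          linarith
        have h10 : (1 - r)⁻¹ * (r * C j * (2 * Z δ)) ≤ om δ / 4 * C j := by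
          calc (1 - r)⁻¹ * (r * C j * (2 * Z δ)) ≤ 2 * (r * C j * (2 * Z δ)) := by
                have := hCnn j
                gcongr
            _ = (4 * Z δ * r) * C j := by ring
            _ ≤ om δ / 4 * C j := mul_le_mul_of_nonneg_right hr2 (hCnn j)
        linarith
      linarith
    have hV : V (G δ (gS C kk)) N = ∑ i ∈ range N,
        Metric.diam (G δ (gS C kk) '' Set.Icc ((i : ℝ) / N) (((i : ℝ) + 1) / N)) := rfl
    have hsum := Finset.sum_le_sum (s := range N) fun i (_ : i ∈ range N) => hcol i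
    rw [← hV, Finset.sum_sub_distrib, Finset.sum_sub_distrib, Finset.sum_const, Finset.sum_const,
      Finset.card_range, nsmul_eq_mul, nsmul_eq_mul, Finset.sum_comm] at hsum
    have hsm : ∑ l ∈ range j, ∑ i ∈ range N, C l *
          Metric.diam ((fun x => R δ (kk l * x)) '' Set.Icc ((i : ℝ) / N) (((i : ℝ) + 1) / N))
        ≤ om δ / 4 * (N : ℝ) ^ (7 / 8 - δ / 2) := by
      have h11 : ∀ l ∈ range j, ∑ i ∈ range N, C l *
          Metric.diam ((fun x => R δ (kk l * x)) '' Set.Icc ((i : ℝ) / N) (((i : ℝ) + 1) / N))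
          ≤ (om δ / 4) * (1 / 2) ^ (l + 1) * (N : ℝ) ^ (7 / 8 - δ / 2) := by
        intro l hl
        rw [← Finset.mul_sum]
        refine hT (kk l) l (hk1 l) N ?_
        exact (hkT l).trans (hmono.monotone (Finset.mem_range.mp hl))
      refine (Finset.sum_le_sum h11).trans ?_
      have h12 : ∑ l ∈ range j, (om δ / 4) * (1 / 2 : ℝ) ^ (l + 1) * (N : ℝ) ^ (7 / 8 - δ / 2)
          = (om δ / 4) * (N : ℝ) ^ (7 / 8 - δ / 2) * (∑ l ∈ range j, (1 / 2 : ℝ) ^ (l + 1)) := by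
        rw [Finset.mul_sum]
        exact Finset.sum_congr rfl fun l _ => by ring
      rw [h12]
      have h13 : ∑ l ∈ range j, (1 / 2 : ℝ) ^ (l + 1) ≤ 1 := by
        have h14 : ∀ j : ℕ, ∑ l ∈ range j, (1 / 2 : ℝ) ^ (l + 1) = 1 - (1 / 2) ^ j := by
          intro j
          induction j with
          | zero => simp
          | succ j ih => rw [Finset.sum_range_succ, ih]; ring
        rw [h14]
        have : (0 : ℝ) ≤ (1 / 2) ^ j := by positivity
        linarith
      calc (om δ / 4) * (N : ℝ) ^ (7 / 8 - δ / 2) * (∑ l ∈ range j, (1 / 2 : ℝ) ^ (l + 1))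
          ≤ (om δ / 4) * (N : ℝ) ^ (7 / 8 - δ / 2) * 1 := by gcongr
        _ = _ := mul_one _
    have e3 : (N : ℝ) * (C j * om δ) = om δ * (N : ℝ) ^ (7 / 8 - δ / 2) := by rw [← hNC]; ring
    have e4 : (N : ℝ) * (om δ / 4 * C j) = om δ / 4 * (N : ℝ) ^ (7 / 8 - δ / 2) := by rw [← hNC]; ring
    rw [e3, e4] at hsum
    linarith

end caseB

end R605.RiemannBox
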