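import Mathlib

set_option autoImplicit false

/-! # MP_545343_nt: the equations (E1), (E2), (E3)

(E1) has no solution.  Every solution of (E2) and of (E3) satisfies strong congruence and divisibility
conditions. -/

namespace Pool.Agent.R605.Pillai

/-! ## General lemmas -/

lemma sub_one_pow (h : ℤ) (q : ℕ) :
    ∃ c : ℤ, (h - 1) ^ q = (-1) ^ q + q * (-1) ^ (q + 1) * h + c * h ^ 2 := by
  induction q with
  | zero => exact ⟨0, by simp⟩
  | succ q ih =>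
    obtain ⟨c, hc⟩ := ih
    refine ⟨q * (-1) ^ (q + 1) + c * (h - 1), ?_⟩
    rw [pow_succ, hc]; push_cast; ring

lemma one_add_pow (h : ℤ) (k : ℕ) : ∃ c : ℤ, (h + 1) ^ k = 1 + k * h + c * h ^ 2 := by
  induction k with
  | zero => exact ⟨0, by simp⟩
  | succ k ih =>
    obtain ⟨c, hc⟩ := ih
    refine ⟨k + c * (h + 1), ?_⟩
    rw [pow_succ, hc]; push_cast; ring

lemma four_dvd {a : ℤ} {n : ℕ} (ha : Even a) (hn : 2 ≤ n) : (4 : ℤ) ∣ a ^ n := by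
  obtain ⟨b, hb⟩ := ha
  exact dvd_trans ⟨b ^ 2, by rw [hb]; ring⟩ (pow_dvd_pow a hn)

lemma pow_add_one_dvd (d x : ℕ) (hd : 2 ≤ d) (hx0 : 0 < x) (n : ℕ) :
    (((d : ℤ) ^ x + 1 ∣ (d : ℤ) ^ n + 1) → ∃ q, Odd q ∧ n = x * q) ∧
    (((d : ℤ) ^ x + 1 ∣ (d : ℤ) ^ n - 1) → ∃ q, Even q ∧ n = x * q) := by
  have hd1 : (1 : ℤ) < d := by exact_mod_cast hd
  have hpos : ∀ m : ℕ, 0 < (d : ℤ) ^ m := fun m => by positivity
  induction n using Nat.strong_induction_on with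
  | _ n ih =>
    rcases lt_or_ge n x with hlt | hge
    · have h1 : (d : ℤ) ^ n < (d : ℤ) ^ x := pow_lt_pow_right₀ hd1 hlt
      refine ⟨fun h => ?_, fun h => ?_⟩
      · have := Int.le_of_dvd (by linarith [hpos n]) h
        omega
      · rcases Nat.eq_zero_or_pos n with h0 | h0
        · exact ⟨0, by simp, by simp [h0]⟩
        · have h2 : (d : ℤ) ^ 1 ≤ (d : ℤ) ^ n := pow_le_pow_right₀ hd1.le h0
          have := Int.le_of_dvd (by rw [pow_one] at h2; linarith) h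
          omega
    · obtain ⟨k, rfl⟩ := Nat.exists_eq_add_of_le hge
      obtain ⟨i1, i2⟩ := ih k (by omega)
      refine ⟨fun h => ?_, fun h => ?_⟩
      · have h3 : (d : ℤ) ^ x + 1 ∣ (d : ℤ) ^ k - 1 := by
          have : (d : ℤ) ^ k - 1 = (d : ℤ) ^ k * ((d : ℤ) ^ x + 1) - ((d : ℤ) ^ (x + k) + 1) := by
            rw [pow_add]; ring
          rw [this]; exact dvd_sub (Dvd.intro_left _ rfl) h
        obtain ⟨q, hq, rfl⟩ := i2 h3
        exact ⟨q + 1, hq.add_one, by ring⟩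
      · have h3 : (d : ℤ) ^ x + 1 ∣ (d : ℤ) ^ k + 1 := by
          have : (d : ℤ) ^ k + 1 = (d : ℤ) ^ k * ((d : ℤ) ^ x + 1) - ((d : ℤ) ^ (x + k) - 1) := by
            rw [pow_add]; ring
          rw [this]; exact dvd_sub (Dvd.intro_left _ rfl) h
        obtain ⟨q, hq, rfl⟩ := i1 h3
        exact ⟨q + 1, hq.add_one, by ring⟩

/-! ## (E1) -/

theorem E1 (d x y s t : ℕ) (hd : 2 ≤ d) (hx : 2 ≤ x) (hy : 2 ≤ y) (hs : 2 ≤ s) (ht : 2 ≤ t) :
    (((d : ℤ) ^ x + 1) ^ s + 1) ^ t - (d : ℤ) ^ y ≠ 2 := by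
  intro h
  rcases Nat.even_or_odd d with he | ho
  · have heZ : Even (d : ℤ) := by exact_mod_cast he
    have h1 : (4 : ℤ) ∣ (d : ℤ) ^ y := four_dvd heZ hy
    have h2 : Odd ((d : ℤ) ^ x + 1) := (heZ.pow_of_ne_zero (by omega)).add_one
    have h3 : (4 : ℤ) ∣ (((d : ℤ) ^ x + 1) ^ s + 1) ^ t := four_dvd (h2.pow.add_one) ht
    omega
  · have hoZ : Odd (d : ℤ) := by exact_mod_cast ho
    set H : ℤ := (d : ℤ) ^ x + 1 with hH
    have hHpos : 0 < H := by positivity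
    have hHe : Even H := (hoZ.pow).add_one
    have h1 : H ^ s ∣ (d : ℤ) ^ y + 1 := by
      have h2 := sub_dvd_pow_sub_pow (H ^ s + 1) 1 t
      have h3 : H ^ s + 1 - 1 = H ^ s := by ring
      have h4 : (H ^ s + 1) ^ t - 1 ^ t = (d : ℤ) ^ y + 1 := by rw [one_pow]; linarith
      rwa [h3, h4] at h2
    have h5 : H ∣ (d : ℤ) ^ y + 1 := (dvd_pow_self H (by omega)).trans h1
    obtain ⟨q, hq, rfl⟩ := (pow_add_one_dvd d x hd (by omega) y).1 h5
    obtain ⟨c, hc⟩ := sub_one_pow H q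
    have h6 : (d : ℤ) ^ (x * q) = (H - 1) ^ q := by rw [pow_mul, hH]; ring
    have h7 : (d : ℤ) ^ (x * q) + 1 = q * H + c * H ^ 2 := by
      rw [h6, hc, hq.neg_one_pow, hq.add_one.neg_one_pow]; ring
    have h8 : H ^ 2 ∣ q * H := by
      have h9 : H ^ 2 ∣ (d : ℤ) ^ (x * q) + 1 := (pow_dvd_pow H hs).trans h1
      rw [h7] at h9
      exact (dvd_add_left (Dvd.intro_left _ rfl)).1 h9
    have h10 : H ∣ q := by
      rw [pow_two] at h8
      exact Int.dvd_of_mul_dvd_mul_right hHpos.ne' h8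
    have h11 : Even (q : ℤ) := hHe.trans_dvd h10
    have h12 : Even q := by exact_mod_cast h11
    exact (Nat.not_even_iff_odd.2 hq) h12

/-! ## The equation `C ^ 2 + 2 = 3 ^ n` -/

/-- `(1 + √-2) ^ n = P n + Q n √-2`. -/
def PQ : ℕ → ℤ × ℤ
  | 0 => (1, 0)
  | n + 1 => ((PQ n).1 - 2 * (PQ n).2, (PQ n).1 + (PQ n).2)

lemma PQ_add (m n : ℕ) : PQ (m + n) =
    ((PQ m).1 * (PQ n).1 - 2 * ((PQ m).2 * (PQ n).2), (PQ m).1 * (PQ n).2 + (PQ m).2 * (PQ n).1) := by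
  induction n with
  | zero => simp [PQ]
  | succ n ih =>
    rw [← add_assoc]
    simp only [PQ, ih]
    ext <;> simp <;> ring

lemma rep (n : ℕ) : ∀ a b : ℤ, a ^ 2 + 2 * b ^ 2 = 3 ^ (n + 1) → ¬ (3 : ℤ) ∣ a → (3 : ℤ) ∣ a - b →
    (a = (PQ (n + 1)).1 ∧ b = (PQ (n + 1)).2) ∨ (a = -(PQ (n + 1)).1 ∧ b = -(PQ (n + 1)).2) := by
  induction n with
  | zero =>
    intro a b h h3 hab
    have h' : a ^ 2 + 2 * b ^ 2 = 3 := by rw [h]; norm_num
    have hb1 : -1 ≤ b ∧ b ≤ 1 := by constructor <;> nlinarith [sq_nonneg a]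
    have ha1 : -1 ≤ a ∧ a ≤ 1 := by constructor <;> nlinarith [sq_nonneg b]
    clear h
    simp only [PQ]
    obtain ⟨x1, x2⟩ := hb1
    obtain ⟨x3, x4⟩ := ha1
    interval_cases a <;> interval_cases b <;> simp_all
  | succ n ih =>
    intro a b h h3 hab
    obtain ⟨c, hc⟩ := hab
    -- a = a' - 2 b', b = a' + b'
    set b' : ℤ := -c with hb'
    set a' : ℤ := b + c with ha'
    have e1 : a = a' - 2 * b' := by rw [ha', hb']; linarith
    have e2 : b = a' + b' := by rw [ha', hb']; ring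
    have e3 : a' ^ 2 + 2 * b' ^ 2 = 3 ^ (n + 1) := by
      have : 3 * (a' ^ 2 + 2 * b' ^ 2) = 3 * 3 ^ (n + 1) := by
        rw [← pow_succ', ← h, e1, e2]; ring
      linarith
    have e4 : ¬ (3 : ℤ) ∣ a' := by
      intro h4
      have h5 : (3 : ℤ) ∣ 2 * b' ^ 2 := by
        have h6 : (3 : ℤ) ∣ a' ^ 2 + 2 * b' ^ 2 := by rw [e3]; exact dvd_pow_self 3 (by omega)
        exact (dvd_add_right (dvd_pow h4 (by norm_num))).1 h6
      have h7 : (3 : ℤ) ∣ b' := by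
        have h8 := (Int.prime_three.dvd_mul.1 h5).resolve_left (by norm_num)
        exact Int.prime_three.dvd_of_dvd_pow h8
      apply h3
      rw [e1]
      exact dvd_sub h4 (h7.mul_left 2)
    have e5 : (3 : ℤ) ∣ a' - b' := by
      have h6 : (3 : ℤ) ∣ (a' - b') * (a' + b') := by
        have h7 : (3 : ℤ) ∣ a' ^ 2 + 2 * b' ^ 2 := by rw [e3]; exact dvd_pow_self 3 (by omega)
        have h8 : (a' - b') * (a' + b') = (a' ^ 2 + 2 * b' ^ 2) - 3 * b' ^ 2 := by ring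
        rw [h8]; exact dvd_sub h7 (Dvd.intro _ rfl)
      rcases Int.prime_three.dvd_mul.1 h6 with h9 | h9
      · exact h9
      · exfalso
        apply h3
        have : a = (a' + b') - 3 * b' := by rw [e1]; ring
        rw [this]; exact dvd_sub h9 (Dvd.intro _ rfl)
    rcases ih a' b' e3 e4 e5 with ⟨h9, h10⟩ | ⟨h9, h10⟩
    · left
      rw [PQ]
      constructor
      · simp only; rw [← h9, ← h10]; exact e1
      · simp only; rw [← h9, ← h10]; exact e2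
    · right
      rw [PQ]
      constructor
      · simp only; rw [e1, h9, h10]; ring
      · simp only; rw [e2, h9, h10]; ring

lemma PQ_two_pow (j : ℕ) : ∃ u w : ℤ, (PQ (2 ^ (j + 3))).1 = 1 + 2 ^ (j + 4) * u ∧
    (PQ (2 ^ (j + 3))).2 = 2 ^ (j + 3) * (1 + 2 * w) := by
  induction j with
  | zero => exact ⟨1, 3, by norm_num [PQ], by norm_num [PQ]⟩
  | succ j ih =>
    obtain ⟨u, w, h1, h2⟩ := ih
    have h3 : 2 ^ (j + 1 + 3) = 2 ^ (j + 3) + 2 ^ (j + 3) := by ring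
    rw [h3, PQ_add, h1, h2]
    refine ⟨u + 2 ^ (j + 3) * u ^ 2 - 2 ^ (j + 2) * (1 + 2 * w) ^ 2,
      w + 2 ^ (j + 3) * u * (1 + 2 * w), ?_, ?_⟩
    · simp only; ring
    · simp only; ring

lemma PQ_mul_two_pow (j f : ℕ) : ∃ u w : ℤ, (PQ (f * 2 ^ (j + 3))).1 = 1 + 2 ^ (j + 4) * u ∧
    (PQ (f * 2 ^ (j + 3))).2 = 2 ^ (j + 3) * (f + 2 * w) := by
  induction f with
  | zero => exact ⟨0, 0, by simp [PQ], by simp [PQ]⟩
  | succ f ih =>
    obtain ⟨u, w, h1, h2⟩ := ih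
    obtain ⟨u', w', h3, h4⟩ := PQ_two_pow j
    have h5 : (f + 1) * 2 ^ (j + 3) = f * 2 ^ (j + 3) + 2 ^ (j + 3) := by ring
    rw [h5, PQ_add, h1, h2, h3, h4]
    refine ⟨u + u' + 2 ^ (j + 4) * u * u' - 2 ^ (j + 3) * (f + 2 * w) * (1 + 2 * w'),
      w + w' + 2 ^ (j + 3) * u * (1 + 2 * w') + 2 ^ (j + 3) * u' * (f + 2 * w), ?_, ?_⟩
    · simp only; ring
    · simp only; push_cast; ring

lemma Q_eq (n : ℕ) (h : (PQ n).2 = 1 ∨ (PQ n).2 = -1) : n = 1 ∨ n = 3 := by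
  obtain ⟨e, i, hi, rfl⟩ : ∃ e i : ℕ, i < 8 ∧ n = e * 8 + i := ⟨n / 8, n % 8, Nat.mod_lt _ (by norm_num), by omega⟩
  obtain ⟨u, w, h1, h2⟩ := PQ_mul_two_pow 0 e
  norm_num at h1 h2
  have hmod := PQ_add (e * 8) i
  rw [hmod, h1, h2] at h
  simp only at h
  by_cases hi13 : i = 1 ∨ i = 3
  · rcases Nat.eq_zero_or_pos e with he | he
    · subst he; simpa using hi13
    · exfalso
      obtain ⟨j, f, hf, hef⟩ := Nat.exists_eq_two_pow_mul_odd he.ne'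
      have h8 : e * 8 = f * 2 ^ (j + 3) := by rw [hef]; ring
      obtain ⟨u', w', h3, h4⟩ := PQ_mul_two_pow j f
      rw [h8] at h1 h2
      have hh1 : (1 : ℤ) + 16 * u = 1 + 2 ^ (j + 4) * u' := by rw [← h1, ← h3]
      have hh2 : (8 : ℤ) * (e + 2 * w) = 2 ^ (j + 3) * (f + 2 * w') := by rw [← h2, ← h4]
      obtain ⟨g, hg⟩ := hf
      have hg' : (f : ℤ) = 2 * g + 1 := by exact_mod_cast hg
      rw [hh1, hh2] at h
      have hp : (2 : ℤ) ^ (j + 4) = 2 * 2 ^ (j + 3) := by ring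
      have hp3 : (2 : ℤ) ^ (j + 3) = 8 * 2 ^ j := by ring
      have hpj : (0 : ℤ) < 2 ^ j := by positivity
      rcases hi13 with rfl | rfl
      · have hPQ : PQ 1 = (1, 1) := by norm_num [PQ]
        rw [hPQ] at h
        simp only at h
        rw [hp, hp3, hg'] at h
        have key : (1 + 2 * (8 * 2 ^ j) * u') * 1 + 8 * 2 ^ j * (2 * (g : ℤ) + 1 + 2 * w') * 1
            = 1 + 8 * 2 ^ j * (2 * (g + w' + u') + 1) := by ring
        rw [key] at h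
        rcases h with h | h
        · have h9 : 8 * (2 : ℤ) ^ j * (2 * (g + w' + u') + 1) = 0 := by linarith
          rcases mul_eq_zero.1 h9 with h10 | h10
          · omega
          · omega
        · have h9 : 8 * ((2 : ℤ) ^ j * (2 * (g + w' + u') + 1)) = -2 := by linarith
          omega
      · have hPQ : PQ 3 = (-5, 1) := by norm_num [PQ]
        rw [hPQ] at h
        simp only at h
        rw [hp, hp3, hg'] at h
        have key : (1 + 2 * (8 * 2 ^ j) * u') * 1 + 8 * 2 ^ j * (2 * (g : ℤ) + 1 + 2 * w') * (-5)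
            = 1 + 8 * 2 ^ j * (2 * (u' - 5 * g - 5 * w' - 3) + 1) := by ring
        rw [key] at h
        rcases h with h | h
        · have h9 : 8 * (2 : ℤ) ^ j * (2 * (u' - 5 * g - 5 * w' - 3) + 1) = 0 := by linarith
          rcases mul_eq_zero.1 h9 with h10 | h10
          · omega
          · omega
        · have h9 : 8 * ((2 : ℤ) ^ j * (2 * (u' - 5 * g - 5 * w' - 3) + 1)) = -2 := by linarith
          omega
  · exfalso
    push Not at hi13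
    interval_cases i <;> simp [PQ] at h hi13 <;> omega

lemma sq_add_two (C : ℤ) (n : ℕ) (hn : 1 ≤ n) (h : C ^ 2 + 2 = 3 ^ n) : n = 1 ∨ n = 3 := by
  obtain ⟨n, rfl⟩ := Nat.exists_eq_add_of_le' hn
  have h3 : ¬ (3 : ℤ) ∣ C := by
    intro h4
    have h5 : (3 : ℤ) ∣ C ^ 2 + 2 := by rw [h]; exact dvd_pow_self 3 (by omega)
    have h6 : (3 : ℤ) ∣ 2 := (dvd_add_right (dvd_pow h4 (by norm_num))).1 h5
    norm_num at h6
  have h7 : (3 : ℤ) ∣ C - 1 ∨ (3 : ℤ) ∣ C - (-1) := by omega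
  rcases h7 with h7 | h7
  · rcases rep n C 1 (by linarith) h3 h7 with ⟨_, h8⟩ | ⟨_, h8⟩
    · exact Q_eq (n + 1) (Or.inl h8.symm)
    · exact Q_eq (n + 1) (Or.inr (by linarith))
  · rcases rep n C (-1) (by linarith) h3 h7 with ⟨_, h8⟩ | ⟨_, h8⟩
    · exact Q_eq (n + 1) (Or.inr h8.symm)
    · exact Q_eq (n + 1) (Or.inl (by linarith))

/-! ## (E2) and (E3): lemmas -/

lemma no_power_diff_two (X Y g : ℕ) (hY : 1 ≤ Y) (hg : 2 ≤ g) : X ^ g ≠ Y ^ g + 2 := by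
  intro h
  have hXY : Y < X := by
    by_contra hcon
    have := Nat.pow_le_pow_left (not_lt.1 hcon) g
    omega
  have h1 : (Y + 1) ^ g ≤ X ^ g := Nat.pow_le_pow_left hXY g
  obtain ⟨n, rfl⟩ := Nat.exists_eq_add_of_le' hg
  have h2 : Y ^ n ≤ (Y + 1) ^ n := Nat.pow_le_pow_left (Nat.le_succ _) n
  have h3 : 1 ≤ (Y + 1) ^ n := Nat.one_le_pow _ _ (by omega)
  have h4 : (Y + 1) ^ (n + 2) = Y ^ 2 * (Y + 1) ^ n + (2 * Y + 1) * (Y + 1) ^ n := by ring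
  have h5 : Y ^ (n + 2) ≤ Y ^ 2 * (Y + 1) ^ n := by
    rw [pow_add, mul_comm]; exact Nat.mul_le_mul_left _ h2
  have h6 : 3 ≤ (2 * Y + 1) * (Y + 1) ^ n := by nlinarith
  omega

/-- Exponents of two powers that differ by `2` are coprime. -/
lemma coprime_of_diff_two (a b m n : ℕ) (hb : 1 ≤ b) (hm : 1 ≤ m)
    (h : a ^ m = b ^ n + 2) : Nat.Coprime m n := by
  by_contra hcon
  set g := Nat.gcd m n with hg
  have hg0 : 0 < g := Nat.gcd_pos_of_pos_left _ hm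
  have hg2 : 2 ≤ g := by
    have : g ≠ 1 := hcon
    omega
  obtain ⟨m', hm'⟩ := Nat.gcd_dvd_left m n
  obtain ⟨n', hn'⟩ := Nat.gcd_dvd_right m n
  rw [← hg] at hm' hn'
  apply no_power_diff_two (a ^ m') (b ^ n') g (Nat.one_le_pow _ _ hb) hg2
  rw [← pow_mul, ← pow_mul, mul_comm m' g, mul_comm n' g, ← hm', ← hn']
  exact h

/-- If `v ^ n = -1` modulo a prime `r`, `n` is odd and prime to `r - 1`, then `v = -1`. -/
lemma eq_neg_one_of_pow (r n : ℕ) [Fact r.Prime] (v : ZMod r) (hn : Odd n)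
    (hc : Nat.Coprime n (r - 1)) (h : v ^ n = -1) : v = -1 := by
  have h1 : (-v) ^ n = 1 := by rw [hn.neg_pow, h, neg_neg]
  have h0 : -v ≠ 0 := by
    intro h2
    rw [h2, zero_pow (by rintro rfl; simp at hn)] at h1
    exact zero_ne_one h1
  have h2 : (-v) ^ (r - 1) = 1 := ZMod.pow_card_sub_one_eq_one h0
  have h3 : (-v) ^ (Nat.gcd n (r - 1)) = 1 := pow_gcd_eq_one.2 ⟨h1, h2⟩
  rw [hc, pow_one] at h3
  rw [← h3, neg_neg]

/-- `d ^ x - 1 ∣ d ^ y - 1` implies `x ∣ y`. -/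
lemma dvd_of_pow_sub_one_dvd (d x y : ℕ) (hd : 2 ≤ d) (h : d ^ x - 1 ∣ d ^ y - 1) : x ∣ y := by
  have h1 := Nat.pow_sub_one_gcd_pow_sub_one d x y
  rw [Nat.gcd_eq_left h] at h1
  have h2 : 1 ≤ d ^ x := Nat.one_le_pow _ _ (by omega)
  have h3 : 1 ≤ d ^ (Nat.gcd x y) := Nat.one_le_pow _ _ (by omega)
  have h4 : d ^ x = d ^ (Nat.gcd x y) := by omega
  have h5 : x = Nat.gcd x y := Nat.pow_right_injective hd h4
  rw [h5]; exact Nat.gcd_dvd_right x y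


/-- Lifting the exponent. -/
lemma lte (p : ℕ) (hp : p.Prime) (X : ℤ) (n e : ℕ) (hpX : (p : ℤ) ∣ X) (h4 : p = 2 → (4 : ℤ) ∣ X)
    (h : (p : ℤ) ^ e ∣ (X + 1) ^ n - 1) : (p : ℤ) ^ e ∣ X * n := by
  have hp1 : ¬ (p : ℤ) ∣ X + 1 := by
    intro h1
    have h2 : (p : ℤ) ∣ 1 := (dvd_add_right hpX).1 h1
    have h3 : p ∣ 1 := by exact_mod_cast h2
    exact hp.one_lt.ne' (Nat.dvd_one.1 h3)
  have hpp : Prime (p : ℤ) := Nat.prime_iff_prime_int.1 hp
  rw [pow_dvd_iff_le_emultiplicity] at h ⊢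
  rw [emultiplicity_mul hpp]
  have key : emultiplicity (p : ℤ) ((X + 1) ^ n - 1) =
      emultiplicity (p : ℤ) X + emultiplicity (p : ℤ) (n : ℤ) := by
    have e1 : X + 1 - 1 = X := by ring
    rcases hp.eq_two_or_odd' with h2 | h2
    · subst h2
      have := Int.two_pow_sub_pow' (x := X + 1) (y := 1) n (by rw [e1]; exact h4 rfl)
        (by exact_mod_cast hp1)
      rw [one_pow, e1] at this
      exact_mod_cast this
    · have := Int.emultiplicity_pow_sub_pow hp h2 (x := X + 1) (y := 1) (by rwa [e1]) hp1 n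
      rw [one_pow, e1] at this
      rw [this, Int.natCast_emultiplicity]
  rwa [key] at h

/-- Divisibility can be tested at prime powers. -/
lemma dvd_of_prime_pow (A B : ℤ) (h : ∀ p e : ℕ, p.Prime → (p : ℤ) ∣ A → (p : ℤ) ^ e ∣ A → (p : ℤ) ^ e ∣ B) :
    A ∣ B := by
  rw [← Int.natAbs_dvd_natAbs]
  rw [Nat.dvd_iff_prime_pow_dvd_dvd]
  intro p k hp hk
  have h1 : (p : ℤ) ^ k ∣ A := by
    rw [← Int.natCast_pow, Int.natCast_dvd]; exact hk
  rcases Nat.eq_zero_or_pos k with h0 | h0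
  · subst h0; simp
  · have h2 := h p k hp ((dvd_pow_self _ h0.ne').trans h1) h1
    rw [← Int.natCast_pow, Int.natCast_dvd] at h2
    exact h2

lemma closure2 (Z B : ℤ) (d x k s t r : ℕ) (hZ : Z = (d : ℤ) ^ x) (hB1 : B + 1 = (Z - 1) ^ s)
    (h : Z ^ k - B ^ t = 2) (hto : Odd t) (hkt : Nat.Coprime k t) (hr : r.Prime) (hrk : r - 1 ∣ k) :
    r ∣ d ∨ (r : ℤ) ∣ Z - 1 := by
  by_cases hrd : r ∣ d
  · exact Or.inl hrd
  right
  have : Fact r.Prime := ⟨hr⟩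
  have hd0 : (d : ZMod r) ≠ 0 := by
    rwa [Ne, ZMod.natCast_eq_zero_iff]
  have hZc : ((Z : ℤ) : ZMod r) = (d : ZMod r) ^ x := by rw [hZ]; push_cast; rfl
  have hZ1 : ((Z : ℤ) : ZMod r) ^ k = 1 := by
    obtain ⟨q, hq⟩ := hrk
    rw [hZc, hq, ← pow_mul, mul_comm x, mul_assoc, pow_mul, ZMod.pow_card_sub_one_eq_one hd0, one_pow]
  have hBt : ((B : ℤ) : ZMod r) ^ t = -1 := by
    have h1 := congrArg (Int.cast : ℤ → ZMod r) h
    push_cast at h1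
    rw [hZ1] at h1
    linear_combination -h1
  have hc : Nat.Coprime t (r - 1) := (Nat.Coprime.coprime_dvd_left hrk hkt).symm
  have h2 := eq_neg_one_of_pow r t _ hto hc hBt
  have h3 : ((Z : ZMod r) - 1) ^ s = 0 := by
    have h1 := congrArg (Int.cast : ℤ → ZMod r) hB1
    push_cast at h1
    rw [← h1, h2]; ring
  have h4 : ((Z - 1 : ℤ) : ZMod r) = 0 := by
    push_cast
    rcases Nat.eq_zero_or_pos s with h5 | h5
    · rw [h5, pow_zero] at h3; exact absurd h3 one_ne_zero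
    · exact (pow_eq_zero_iff h5.ne').1 h3
  exact (ZMod.intCast_zmod_eq_zero_iff_dvd _ _).1 h4

lemma half_dvd (W : ℤ) (n : ℕ) (hW : Odd W) (hn : 1 ≤ n) (h : W ∣ 2 ^ n - 2) : W ∣ 2 ^ (n - 1) - 1 := by
  obtain ⟨n, rfl⟩ := Nat.exists_eq_add_of_le' hn
  have h1 : (2 : ℤ) ^ (n + 1) - 2 = 2 * (2 ^ n - 1) := by ring
  rw [h1] at h
  have h2 : IsCoprime W 2 := by
    obtain ⟨c, hc⟩ := hW
    exact ⟨1, -c, by rw [hc]; ring⟩
  exact h2.dvd_of_dvd_mul_left h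

lemma mod_Z (Z B : ℤ) (k s t : ℕ) (hZo : Odd Z) (hB1 : B + 1 = (Z - 1) ^ s) (hso : Odd s) (hto : Odd t)
    (hk : k ≠ 0) (h : Z ^ k - B ^ t = 2) : Z ∣ 2 ^ (t - 1) - 1 := by
  apply half_dvd Z t hZo hto.pos
  have h1 : Z ∣ B + 2 := by
    have := Odd.add_dvd_pow_add_pow (Z - 1) 1 hso
    rw [one_pow, ← hB1] at this
    have e1 : Z - 1 + 1 = Z := by ring
    have e2 : B + 1 + 1 = B + 2 := by ring
    rwa [e1, e2] at this
  have h2 : Z ∣ B ^ t - (-2) ^ t := by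
    have := sub_dvd_pow_sub_pow B (-2) t
    rw [sub_neg_eq_add] at this
    exact h1.trans this
  rw [hto.neg_pow] at h2
  have h3 : Z ∣ Z ^ k := dvd_pow_self _ hk
  have h4 : (2 : ℤ) ^ t - 2 = (B ^ t - -2 ^ t) - Z ^ k := by linarith
  rw [h4]
  exact dvd_sub h2 h3

lemma mod_Z_sub_two (Z B : ℤ) (k s t : ℕ) (hZo : Odd Z) (hB1 : B + 1 = (Z - 1) ^ s)
    (hk : 1 ≤ k) (ht : t ≠ 0) (h : Z ^ k - B ^ t = 2) :
    Z - 2 ∣ 2 ^ k - 2 ∧ Z - 2 ∣ 2 ^ (k - 1) - 1 ∧ Z - 2 ∣ Z ^ k - 2 := by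
  have h1 : Z - 2 ∣ B := by
    have := sub_dvd_pow_sub_pow (Z - 1) 1 s
    rw [one_pow, ← hB1] at this
    have e1 : Z - 1 - 1 = Z - 2 := by ring
    have e2 : B + 1 - 1 = B := by ring
    rwa [e1, e2] at this
  have h2 : Z - 2 ∣ B ^ t := h1.pow ht
  have h3 : Z - 2 ∣ Z ^ k - 2 ^ k := sub_dvd_pow_sub_pow Z 2 k
  have h4 : Z - 2 ∣ 2 ^ k - 2 := by
    have e1 : (2 : ℤ) ^ k - 2 = B ^ t - (Z ^ k - 2 ^ k) := by linarith
    rw [e1]; exact dvd_sub h2 h3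
  refine ⟨h4, half_dvd (Z - 2) k (hZo.sub_even even_two) hk h4, ?_⟩
  have e1 : Z ^ k - 2 = B ^ t := by linarith
  rw [e1]; exact h2

/-- If `2` is a square modulo an odd number `W > 0` then `W` is `1` or `7` modulo `8`. -/
lemma mod_eight (W : ℕ) (U : ℤ) (hW : Odd W) (h : (W : ℤ) ∣ U ^ 2 - 2) : W % 8 = 1 ∨ W % 8 = 7 := by
  have h1 : jacobiSym 2 W = jacobiSym (U ^ 2) W :=
    jacobiSym.mod_left' (Int.modEq_iff_dvd.2 h)
  have hc : U.gcd W = 1 := by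
    by_contra hcon
    obtain ⟨q, hq, hqd⟩ := Nat.exists_prime_and_dvd hcon
    have h2 : (q : ℤ) ∣ U := by
      have := (Int.natCast_dvd_natCast.2 hqd).trans (Int.gcd_dvd_left U (W : ℤ))
      exact this
    have h3 : (q : ℤ) ∣ (W : ℤ) := (Int.natCast_dvd_natCast.2 hqd).trans (Int.gcd_dvd_right U (W : ℤ))
    have h4 : (q : ℤ) ∣ 2 := by
      have h5 : (q : ℤ) ∣ U ^ 2 := dvd_pow h2 (by norm_num)
      have h6 : (q : ℤ) ∣ U ^ 2 - 2 := h3.trans h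
      have h7 := dvd_sub h5 h6
      have e1 : U ^ 2 - (U ^ 2 - 2) = 2 := by ring
      rwa [e1] at h7
    have h5 : q ∣ 2 := by exact_mod_cast h4
    have h6 : q = 2 := (Nat.prime_dvd_prime_iff_eq hq Nat.prime_two).1 h5
    have h7 : q ∣ W := by exact_mod_cast h3
    rw [h6] at h7
    exact (Nat.not_even_iff_odd.2 hW) (even_iff_two_dvd.2 h7)
  rw [jacobiSym.sq_one' hc, jacobiSym.at_two hW, ZMod.χ₈_nat_eq_if_mod_eight] at h1
  by_contra hcon
  have h2 : W % 2 = 1 := Nat.odd_iff.1 hW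
  rw [if_neg (by omega), if_neg hcon] at h1
  norm_num at h1

/-- Every odd prime dividing `U ^ 2 - 2` is `1` or `7` modulo `8`. -/
lemma prime_mod_eight (q : ℕ) (U : ℤ) (hq : q.Prime) (hq2 : q ≠ 2) (h : (q : ℤ) ∣ U ^ 2 - 2) :
    q % 8 = 1 ∨ q % 8 = 7 := mod_eight q U (hq.odd_of_ne_two hq2) h

/-- The lifting consequence, first case. -/
lemma lte_four (X : ℤ) (k s : ℕ) (hX0 : X ≠ 0) (hs : 1 ≤ s) (h4 : (4 : ℤ) ∣ X)
    (h : X ^ s ∣ (X + 1) ^ k - 1) : X ^ (s - 1) ∣ k := by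
  obtain ⟨s, rfl⟩ := Nat.exists_eq_add_of_le' hs
  have h1 : X ^ (s + 1) ∣ X * k := by
    apply dvd_of_prime_pow _ _ 
    intro p e hp hpX hpe
    have h2 : (p : ℤ) ∣ X := (Nat.prime_iff_prime_int.1 hp).dvd_of_dvd_pow hpX
    exact lte p hp X k e h2 (fun _ => h4) (hpe.trans h)
  rw [pow_succ', ] at h1
  exact Int.dvd_of_mul_dvd_mul_left hX0 h1

/-- The lifting consequence, second case. -/
lemma lte_two (X : ℤ) (k s : ℕ) (hX0 : 2 ≤ X) (hs : 1 ≤ s) (h2 : X % 8 = 2)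
    (h : X ^ s ∣ (X + 1) ^ (2 * k) - 1) : X ^ (s - 1) ∣ 4 * k := by
  obtain ⟨s, rfl⟩ := Nat.exists_eq_add_of_le' hs
  have e0 : (X + 1) ^ (2 * k) = (X * (X + 2) + 1) ^ k := by rw [pow_mul]; ring
  rw [e0] at h
  have h1 : X ^ (s + 1) ∣ X * (X + 2) * k := by
    apply dvd_of_prime_pow _ _ 
    intro p e hp hpX hpe
    have h3 : (p : ℤ) ∣ X := (Nat.prime_iff_prime_int.1 hp).dvd_of_dvd_pow hpX
    refine lte p hp (X * (X + 2)) k e (h3.mul_right _) (fun _ => ?_) (hpe.trans h)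
    obtain ⟨c, hc⟩ : ∃ c, X = 2 * c := ⟨X / 2, by omega⟩
    exact ⟨c * (c + 1), by rw [hc]; ring⟩
  rw [pow_succ', mul_assoc] at h1
  have h3 : X ^ s ∣ (X + 2) * k := Int.dvd_of_mul_dvd_mul_left (by omega) h1
  obtain ⟨w, hw⟩ : ∃ w, X + 2 = 4 * (2 * w + 1) := ⟨(X - 2) / 8, by omega⟩
  rw [hw] at h3
  have h4 : IsCoprime (X ^ s) (2 * w + 1) := by
    apply IsCoprime.pow_left
    have e1 : X = 4 * (2 * w + 1) - 2 := by linarith
    rw [e1]
    exact ⟨w, 1 - 4 * w, by ring⟩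
  have e2 : 4 * (2 * w + 1) * (k : ℤ) = (2 * w + 1) * (4 * k) := by ring
  rw [e2] at h3
  exact h4.dvd_of_dvd_mul_left h3

/-! ## (E2) -/

theorem E2 (d x y s t : ℕ) (hd : 2 ≤ d) (hx : 2 ≤ x) (hy : 2 ≤ y) (hs : 2 ≤ s) (ht : 2 ≤ t)
    (h : (d : ℤ) ^ y - (((d : ℤ) ^ x - 1) ^ s - 1) ^ t = 2) :
    Odd d ∧ Odd s ∧ Odd t ∧ (d ^ x % 8 = 1 ∨ d ^ x % 8 = 3) ∧ ∃ k : ℕ, y = x * k ∧ Even k ∧
      (d ^ x - 1) ^ (s - 1) ∣ 2 * k ∧ (d ^ x % 8 = 1 → (d ^ x - 1) ^ (s - 1) ∣ k) ∧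
      d ^ x - 1 ∣ k ∧ Nat.Coprime k t ∧
      (∀ r : ℕ, r.Prime → r - 1 ∣ k → r ∣ d ∨ r ∣ d ^ x - 1) ∧
      d ^ x ∣ 2 ^ (t - 1) - 1 ∧ d ^ x - 2 ∣ 2 ^ (k - 1) - 1 := by
  have hd1 : (2 : ℤ) ≤ d := by exact_mod_cast hd
  have hZ4 : (4 : ℤ) ≤ (d : ℤ) ^ x := by
    calc (4 : ℤ) = 2 ^ 2 := by norm_num
      _ ≤ (d : ℤ) ^ 2 := by gcongr
      _ ≤ (d : ℤ) ^ x := pow_le_pow_right₀ (by linarith) hx
  -- d odd
  have hdo : Odd d := by
    by_contra hcon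
    have he : Even d := Nat.not_odd_iff_even.1 hcon
    have heZ : Even (d : ℤ) := by exact_mod_cast he
    have h1 : (4 : ℤ) ∣ (d : ℤ) ^ y := four_dvd heZ hy
    have h2 : Odd ((d : ℤ) ^ x - 1) := (heZ.pow_of_ne_zero (by omega)).sub_odd odd_one
    have h3 : (4 : ℤ) ∣ (((d : ℤ) ^ x - 1) ^ s - 1) ^ t := four_dvd (h2.pow.sub_odd odd_one) ht
    omega
  have hd3 : (3 : ℤ) ≤ d := by
    have : 3 ≤ d := by
      rcases hdo with ⟨c, hc⟩; omega
    exact_mod_cast this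
  have hdZ : Odd (d : ℤ) := by exact_mod_cast hdo
  -- s odd
  have hso : Odd s := by
    by_contra hcon
    have he : Even s := Nat.not_odd_iff_even.1 hcon
    have h1 : (d : ℤ) ∣ (d : ℤ) ^ y := dvd_pow_self _ (by omega)
    have h2 : (d : ℤ) ∣ ((d : ℤ) ^ x - 1) ^ s - 1 := by
      obtain ⟨c, hc⟩ := sub_one_pow ((d : ℤ) ^ x) s
      have h3 : ((d : ℤ) ^ x - 1) ^ s - 1 = (d : ℤ) ^ x * (s * (-1) ^ (s + 1) + c * (d : ℤ) ^ x) := by
        rw [hc, he.neg_one_pow]; ring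
      rw [h3]
      exact (dvd_pow_self (d : ℤ) (by omega)).mul_right _
    have h4 : (d : ℤ) ∣ (((d : ℤ) ^ x - 1) ^ s - 1) ^ t := h2.pow (by omega)
    have h5 : (d : ℤ) ∣ 2 := by rw [← h]; exact dvd_sub h1 h4
    have := Int.le_of_dvd (by norm_num) h5
    omega
  set Z : ℤ := (d : ℤ) ^ x with hZ
  set B : ℤ := (Z - 1) ^ s - 1 with hB
  have hB63 : 8 ≤ B := by
    have h1 : (3 : ℤ) ^ 2 ≤ (Z - 1) ^ 2 := by gcongr; linarith
    have h2 : (Z - 1) ^ 2 ≤ (Z - 1) ^ s := pow_le_pow_right₀ (by linarith) hs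
    rw [hB]; linarith
  have hB1 : B + 1 = (Z - 1) ^ s := by rw [hB]; ring
  -- t odd
  have hto : Odd t := by
    by_contra hcon
    have he : Even t := Nat.not_odd_iff_even.1 hcon
    obtain ⟨t', ht'⟩ := he
    have h1 : Z - 1 ∣ (d : ℤ) ^ y - 3 := by
      have h2 : B + 1 ∣ B ^ t - 1 := by
        have h3 := sub_dvd_pow_sub_pow (B ^ 2) 1 t'
        have h4 : (B ^ 2) ^ t' - 1 ^ t' = B ^ t - 1 := by
          rw [← pow_mul, one_pow, ht', two_mul]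
        rw [h4] at h3
        exact (Dvd.intro (B - 1) (by ring)).trans h3
      have h3 : (d : ℤ) ^ y - 3 = B ^ t - 1 := by linarith
      rw [h3]
      exact ((dvd_pow_self (Z - 1) (by omega : s ≠ 0)).trans (hB1 ▸ dvd_rfl)).trans h2
    have h2 : (d : ℤ) ^ (y % x) = 3 := by
      have h3 : Z - 1 ∣ (d : ℤ) ^ y - (d : ℤ) ^ (y % x) := by
        have h4 : (d : ℤ) ^ y - (d : ℤ) ^ (y % x) = (d : ℤ) ^ (y % x) * (Z ^ (y / x) - 1) := by
          have h5 : (d : ℤ) ^ y = (d : ℤ) ^ (y % x) * Z ^ (y / x) := by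
            rw [hZ, ← pow_mul, ← pow_add]; congr 1; exact (Nat.mod_add_div y x).symm
          rw [h5]; ring
        rw [h4]
        have h5 := sub_dvd_pow_sub_pow Z 1 (y / x)
        rw [one_pow] at h5
        exact h5.mul_left _
      have h4 : Z - 1 ∣ (d : ℤ) ^ (y % x) - 3 := by
        have h5 := dvd_sub h1 h3
        have h6 : (d : ℤ) ^ y - 3 - ((d : ℤ) ^ y - (d : ℤ) ^ (y % x)) = (d : ℤ) ^ (y % x) - 3 := by ring
        rwa [h6] at h5
      have h5 : (d : ℤ) ^ (y % x) * 3 ≤ Z := by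
        have h6 : y % x + 1 ≤ x := Nat.mod_lt _ (by omega)
        calc (d : ℤ) ^ (y % x) * 3 ≤ (d : ℤ) ^ (y % x) * d := by gcongr
          _ = (d : ℤ) ^ (y % x + 1) := by rw [pow_succ]
          _ ≤ Z := pow_le_pow_right₀ (by linarith) h6
      have h7 : 1 ≤ (d : ℤ) ^ (y % x) := one_le_pow₀ (by linarith)
      rcases lt_trichotomy ((d : ℤ) ^ (y % x) - 3) 0 with h8 | h8 | h8
      · have h9 : Z - 1 ∣ 3 - (d : ℤ) ^ (y % x) := by
          have := (dvd_neg (a := Z - 1)).2 h4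
          rwa [neg_sub] at this
        have := Int.le_of_dvd (by linarith) h9
        linarith
      · linarith
      · have := Int.le_of_dvd h8 h4
        linarith
    have h3 : (d : ℤ) = 3 := by
      have h4 : y % x ≠ 0 := by
        intro h5
        rw [h5] at h2
        norm_num at h2
      have h5 : (d : ℤ) ^ 1 ≤ (d : ℤ) ^ (y % x) := pow_le_pow_right₀ (by linarith) (by omega)
      rw [pow_one] at h5
      linarith
    have h4 : (B ^ t') ^ 2 + 2 = 3 ^ y := by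
      rw [← h3, ← pow_mul, mul_two, ← ht']; linarith
    have h5 : (3 : ℤ) ^ y ≤ 27 := by
      rcases sq_add_two _ y (by omega) h4 with h6 | h6 <;> rw [h6] <;> norm_num
    have h6 : (8 : ℤ) ≤ B ^ t' := by
      calc (8 : ℤ) ≤ B := hB63
        _ = B ^ 1 := (pow_one B).symm
        _ ≤ B ^ t' := pow_le_pow_right₀ (by linarith) (by omega)
    nlinarith
  -- divisibility
  have hdiv : (Z - 1) ^ s ∣ (d : ℤ) ^ y - 1 := by
    have h1 : B + 1 ∣ B ^ t + 1 := by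
      have := Odd.add_dvd_pow_add_pow B 1 hto
      rwa [one_pow] at this
    have h2 : (d : ℤ) ^ y - 1 = B ^ t + 1 := by linarith
    rw [h2, ← hB1]; exact h1
  have hpow1 : ∀ n : ℕ, 1 ≤ d ^ n := fun n => Nat.one_le_pow _ _ (by omega)
  have hcast : ∀ n : ℕ, ((d ^ n - 1 : ℕ) : ℤ) = (d : ℤ) ^ n - 1 := fun n => by
    rw [Nat.cast_sub (hpow1 n)]; push_cast; ring
  have hxy : x ∣ y := by
    apply dvd_of_pow_sub_one_dvd d x y hd
    have h1 : Z - 1 ∣ (d : ℤ) ^ y - 1 := (dvd_pow_self _ (by omega)).trans hdiv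
    rw [← Int.natCast_dvd_natCast, hcast, hcast]
    exact h1
  obtain ⟨k, rfl⟩ := hxy
  have hk0 : k ≠ 0 := by rintro rfl; omega
  have hyZ : (d : ℤ) ^ (x * k) = Z ^ k := by rw [pow_mul]
  rw [hyZ] at h hdiv
  have hcZ : ((d ^ x : ℕ) : ℤ) = Z := by push_cast; rfl
  have hcZ1 : ((d ^ x - 1 : ℕ) : ℤ) = Z - 1 := hcast x
  have hZo : Odd Z := hdZ.pow
  have hX0 : Z - 1 ≠ 0 := by linarith
  -- d ^ x - 1 ∣ k
  have hXk : d ^ x - 1 ∣ k := by
    obtain ⟨c, hc⟩ := one_add_pow (Z - 1) k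
    have h1 : (Z - 1) ^ 2 ∣ k * (Z - 1) := by
      have h2 : (Z - 1) ^ 2 ∣ Z ^ k - 1 := (pow_dvd_pow _ hs).trans hdiv
      have h3 : Z ^ k - 1 = k * (Z - 1) + c * (Z - 1) ^ 2 := by
        have : Z - 1 + 1 = Z := by ring
        rw [this] at hc
        rw [hc]; ring
      rw [h3] at h2
      exact (dvd_add_left (Dvd.intro_left _ rfl)).1 h2
    rw [pow_two] at h1
    have h2 : Z - 1 ∣ k := Int.dvd_of_mul_dvd_mul_right (by linarith) h1
    rw [← Int.natCast_dvd_natCast, hcast]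
    exact h2
  -- coprime
  have hkt : Nat.Coprime k t := by
    have hBnat : ((B.toNat : ℕ) : ℤ) = B := Int.toNat_of_nonneg (by linarith)
    apply coprime_of_diff_two (d ^ x) B.toNat k t (by omega) (by omega)
    have : ((d ^ x : ℕ) : ℤ) ^ k = ((B.toNat : ℕ) : ℤ) ^ t + 2 := by
      rw [hBnat, hcZ]; linarith
    exact_mod_cast this
  -- k even
  have hke : Even k := by
    have h1 : Even (Z - 1) := hZo.sub_odd odd_one
    have h2 : Z - 1 ∣ k := by rw [← hcZ1]; exact_mod_cast hXk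
    have h3 : Even (k : ℤ) := h1.trans_dvd h2
    exact_mod_cast h3
  obtain ⟨hm1, hm2, hm3⟩ := mod_Z_sub_two Z B k s t hZo hB1 (by omega) (by omega) h
  have hZ5 : 5 ≤ Z := by
    have h1 : (3 : ℤ) ^ 2 ≤ Z := by
      calc (3 : ℤ) ^ 2 ≤ (d : ℤ) ^ 2 := by gcongr
        _ ≤ Z := pow_le_pow_right₀ (by linarith) hx
    linarith
  -- modulo 8
  have h8 : d ^ x % 8 = 1 ∨ d ^ x % 8 = 3 := by
    obtain ⟨k', hk'⟩ := hke
    have h1 : ((d ^ x - 2 : ℕ) : ℤ) = Z - 2 := by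
      rw [Nat.cast_sub (by zify; rw [← hZ]; linarith)]; push_cast; rfl
    have h2 : Odd (d ^ x - 2) := by
      have h3 : Odd ((d ^ x - 2 : ℕ) : ℤ) := by rw [h1]; exact hZo.sub_even even_two
      exact_mod_cast h3
    have h3 := mod_eight (d ^ x - 2) (Z ^ k') h2 (by
      rw [h1, ← pow_mul, mul_two, ← hk']; exact hm3)
    have h4 : 5 ≤ d ^ x := by zify; rw [← hZ]; linarith
    omega
  have h8Z : Z % 8 = 1 ∨ Z % 8 = 3 := by
    rw [← hcZ]; omega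
  have hlte4 : d ^ x % 8 = 1 → (d ^ x - 1) ^ (s - 1) ∣ k := by
    intro h1
    have h2 : (4 : ℤ) ∣ Z - 1 := by rw [← hcZ]; omega
    have h3 := lte_four (Z - 1) k s hX0 (by omega) h2 (by
      rw [sub_add_cancel]; exact hdiv)
    rw [← Int.natCast_dvd_natCast, Int.natCast_pow, hcZ1]
    exact h3
  have hlte2 : (d ^ x - 1) ^ (s - 1) ∣ 2 * k := by
    rcases h8 with h1 | h1
    · exact (hlte4 h1).mul_left 2
    · obtain ⟨k', hk'⟩ := hke
      have h2 : (Z - 1) % 8 = 2 := by rw [← hcZ]; omega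
      have h3 := lte_two (Z - 1) k' s (by linarith) (by omega) h2 (by
        rw [sub_add_cancel, two_mul, ← hk']; exact hdiv)
      rw [← Int.natCast_dvd_natCast, Int.natCast_pow, hcZ1]
      have e1 : ((2 * k : ℕ) : ℤ) = 4 * k' := by rw [hk']; push_cast; ring
      rw [e1]; exact h3
  refine ⟨hdo, hso, hto, h8, k, rfl, hke, hlte2, hlte4, hXk, hkt, ?_, ?_, ?_⟩
  · intro r hr hrk
    rcases closure2 Z B d x k s t r hZ hB1 h hto hkt hr hrk with h1 | h1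
    · exact Or.inl h1
    · right
      rw [← hcZ1] at h1
      exact_mod_cast h1
  · have h1 := mod_Z Z B k s t hZo hB1 hso hto hk0 h
    rw [← Int.natCast_dvd_natCast, hcZ, Nat.cast_sub Nat.one_le_two_pow]
    push_cast
    exact h1
  · have h1 : ((d ^ x - 2 : ℕ) : ℤ) = Z - 2 := by
      rw [Nat.cast_sub (by zify; rw [← hZ]; linarith)]; push_cast; rfl
    rw [← Int.natCast_dvd_natCast, h1, Nat.cast_sub Nat.one_le_two_pow]
    push_cast
    exact hm2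


/-! ## (E3) -/

theorem E3 (d x y s m : ℕ) (hd : 2 ≤ d) (hx : 2 ≤ x) (hy : 2 ≤ y) (hs : 2 ≤ s) (hm : 2 ≤ m)
    (hne : x ≠ y) (h : ((d : ℤ) ^ x + 1) ^ s - ((d : ℤ) ^ y - 1) ^ m = 2) :
    Even d ∧ Odd m ∧ x < y ∧ d ^ (y - x) ∣ s ∧ Nat.Coprime s m ∧ Nat.Coprime d m ∧
      (∀ r : ℕ, r.Prime → r - 1 ∣ s → r ∣ d ∨ r ∣ d ^ x + 1) ∧
      (∀ q : ℕ, q.Prime → q ∣ d ^ y - 1 → q % 8 = 1 ∨ q % 8 = 7) ∧
      d ^ (Nat.gcd x y) - 1 ∣ 2 ^ (s - 1) - 1 ∧
      (3 ∣ d ∨ (d % 3 = 2 ∧ Odd x ∧ Odd y ∧ (5 ∣ d ∨ d % 5 = 4))) ∧ (∀ j : ℕ, d ≠ 2 ^ j) := by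
  have hd1 : (2 : ℤ) ≤ d := by exact_mod_cast hd
  have hpow1 : ∀ n : ℕ, 1 ≤ d ^ n := fun n => Nat.one_le_pow _ _ (by omega)
  have hcast : ∀ n : ℕ, ((d ^ n - 1 : ℕ) : ℤ) = (d : ℤ) ^ n - 1 := fun n => by
    rw [Nat.cast_sub (hpow1 n)]; push_cast; ring
  -- d even
  have hde : Even d := by
    by_contra hcon
    have ho : Odd d := Nat.not_even_iff_odd.1 hcon
    have hoZ : Odd (d : ℤ) := by exact_mod_cast ho
    have h1 : (4 : ℤ) ∣ ((d : ℤ) ^ x + 1) ^ s := four_dvd (hoZ.pow.add_one) hs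
    have h2 : (4 : ℤ) ∣ ((d : ℤ) ^ y - 1) ^ m := four_dvd (hoZ.pow.sub_odd odd_one) hm
    omega
  have hdeZ : Even (d : ℤ) := by exact_mod_cast hde
  have hX4 : (4 : ℤ) ∣ (d : ℤ) ^ x := four_dvd hdeZ hx
  have hY4 : (4 : ℤ) ∣ (d : ℤ) ^ y := four_dvd hdeZ hy
  obtain ⟨a, ha⟩ := one_add_pow ((d : ℤ) ^ x) s
  obtain ⟨c, hc⟩ := sub_one_pow ((d : ℤ) ^ y) m
  -- m odd
  have hmo : Odd m := by
    by_contra hcon
    have he : Even m := Nat.not_odd_iff_even.1 hcon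
    rw [ha, hc, he.neg_one_pow] at h
    have h1 : (4 : ℤ) ∣ 2 := by
      rw [← h]
      have e1 : 1 + (s : ℤ) * (d : ℤ) ^ x + a * ((d : ℤ) ^ x) ^ 2 -
          (1 + (m : ℤ) * (-1) ^ (m + 1) * (d : ℤ) ^ y + c * ((d : ℤ) ^ y) ^ 2) =
          (d : ℤ) ^ x * (s + a * (d : ℤ) ^ x) -
          (d : ℤ) ^ y * ((m : ℤ) * (-1) ^ (m + 1) + c * (d : ℤ) ^ y) := by ring
      rw [e1]
      exact dvd_sub (hX4.mul_right _) (hY4.mul_right _)
    norm_num at h1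
  -- x < y
  have hxy : x < y := by
    by_contra hcon
    have hlt : y < x := by omega
    obtain ⟨e, rfl⟩ := Nat.exists_eq_add_of_lt hlt
    rw [ha, hc, hmo.neg_one_pow, hmo.add_one.neg_one_pow] at h
    have hY0 : (d : ℤ) ^ y ≠ 0 := by positivity
    have h1 : (d : ℤ) ^ y * (m : ℤ) = (d : ℤ) ^ y * (d * ((d : ℤ) ^ e * s +
        a * (d : ℤ) ^ y * (d : ℤ) ^ e * (d : ℤ) ^ e * d - c * (d : ℤ) ^ (y - 1))) := by
      have e1 : (d : ℤ) ^ y = d * (d : ℤ) ^ (y - 1) := by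
        rw [← pow_succ']; congr 1; omega
      have e2 : (d : ℤ) ^ (y + e + 1) = (d : ℤ) ^ y * (d : ℤ) ^ e * d := by ring
      rw [e2] at h
      have e3 : (d : ℤ) ^ y * ((d : ℤ) * ((d : ℤ) ^ e * s +
        a * (d : ℤ) ^ y * (d : ℤ) ^ e * (d : ℤ) ^ e * d - c * (d : ℤ) ^ (y - 1))) =
        (s : ℤ) * ((d : ℤ) ^ y * (d : ℤ) ^ e * d) + a * ((d : ℤ) ^ y * (d : ℤ) ^ e * d) ^ 2 -
          c * (d : ℤ) ^ y * (d * (d : ℤ) ^ (y - 1)) := by ring
      rw [e3, ← e1]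
      linarith
    have h2 := mul_left_cancel₀ hY0 h1
    have h3 : (2 : ℤ) ∣ m := by
      rw [h2]; exact (even_iff_two_dvd.1 hdeZ).mul_right _
    have h4 : 2 ∣ m := by exact_mod_cast h3
    exact (Nat.not_even_iff_odd.2 hmo) (even_iff_two_dvd.2 h4)
  obtain ⟨e, he0, rfl⟩ : ∃ e, 0 < e ∧ y = x + e := ⟨y - x, by omega, by omega⟩
  have hX0 : (d : ℤ) ^ x ≠ 0 := by positivity
  -- d ^ e ∣ s
  have hsub : x + e - x = e := by omega
  rw [hsub]
  have hYdvd : (d : ℤ) ^ (x + e) ∣ ((d : ℤ) ^ x + 1) ^ s - 1 := by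
    have h1 := Odd.add_dvd_pow_add_pow ((d : ℤ) ^ (x + e) - 1) 1 hmo
    have e1 : (d : ℤ) ^ (x + e) - 1 + 1 = (d : ℤ) ^ (x + e) := by ring
    have e2 : ((d : ℤ) ^ x + 1) ^ s - 1 = ((d : ℤ) ^ (x + e) - 1) ^ m + 1 ^ m := by
      rw [one_pow]; linarith
    rw [e1, ← e2] at h1
    exact h1
  have hDs : d ^ e ∣ s := by
    have h1 : (d : ℤ) ^ (x + e) ∣ (d : ℤ) ^ x * s := by
      apply dvd_of_prime_pow
      intro p j hp hpd hpj
      have h2 : (p : ℤ) ∣ d := (Nat.prime_iff_prime_int.1 hp).dvd_of_dvd_pow hpd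
      exact lte p hp _ s j (dvd_pow h2 (by omega)) (fun _ => hX4) (hpj.trans hYdvd)
    rw [pow_add] at h1
    have h2 := Int.dvd_of_mul_dvd_mul_left hX0 h1
    exact_mod_cast h2
  have hds : d ∣ s := (dvd_pow_self d (by omega)).trans hDs
  -- coprime
  have hsm : Nat.Coprime s m := by
    apply coprime_of_diff_two (d ^ x + 1) (d ^ (x + e) - 1) s m _ (by omega)
    · have h1 : ((d ^ x + 1 : ℕ) : ℤ) ^ s = ((d ^ (x + e) - 1 : ℕ) : ℤ) ^ m + 2 := by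
        rw [hcast]; push_cast; linarith
      exact_mod_cast h1
    · have h1 : 2 ^ 2 ≤ d ^ (x + e) :=
        (Nat.pow_le_pow_left hd 2).trans (Nat.pow_le_pow_right (by omega) (by omega))
      omega
  have hdm : Nat.Coprime d m := Nat.Coprime.coprime_dvd_left hds hsm
  have hse : 2 ∣ s := (even_iff_two_dvd.1 hde).trans hds
  -- closure
  have hclo : ∀ r : ℕ, r.Prime → r - 1 ∣ s → r ∣ d ∨ r ∣ d ^ x + 1 := by
    intro r hr hrs
    by_contra hcon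
    push Not at hcon
    obtain ⟨hrd, hrx⟩ := hcon
    have : Fact r.Prime := ⟨hr⟩
    have hX1 : ((d : ZMod r) ^ x + 1) ≠ 0 := by
      intro h1
      apply hrx
      rw [← ZMod.natCast_eq_zero_iff]
      push_cast; exact h1
    have h1 : ((d : ZMod r) ^ x + 1) ^ s = 1 := by
      obtain ⟨q, hq⟩ := hrs
      rw [hq, pow_mul, ZMod.pow_card_sub_one_eq_one hX1, one_pow]
    have h2 : ((d : ZMod r) ^ (x + e) - 1) ^ m = -1 := by
      have h3 := congrArg (Int.cast : ℤ → ZMod r) h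
      push_cast at h3
      rw [h1] at h3
      linear_combination -h3
    have h3 := eq_neg_one_of_pow r m _ hmo (Nat.Coprime.coprime_dvd_left hrs hsm).symm h2
    have h4 : (d : ZMod r) ^ (x + e) = 0 := by linear_combination h3
    have h5 : (d : ZMod r) = 0 := (pow_eq_zero_iff (by omega)).1 h4
    exact hrd ((ZMod.natCast_eq_zero_iff _ _).1 h5)
  -- squares
  obtain ⟨s', hs'⟩ := hse
  have hsq : ((d : ℤ) ^ (x + e) - 1) ∣ (((d : ℤ) ^ x + 1) ^ s') ^ 2 - 2 := by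
    have e1 : (((d : ℤ) ^ x + 1) ^ s') ^ 2 - 2 = ((d : ℤ) ^ (x + e) - 1) ^ m := by
      rw [← pow_mul, mul_comm s' 2, ← hs']; linarith
    rw [e1]; exact dvd_pow_self _ (by omega)
  have hq8 : ∀ q : ℕ, q.Prime → q ∣ d ^ (x + e) - 1 → q % 8 = 1 ∨ q % 8 = 7 := by
    intro q hq hqd
    have h1 : (q : ℤ) ∣ (d : ℤ) ^ (x + e) - 1 := by rw [← hcast]; exact_mod_cast hqd
    refine prime_mod_eight q _ hq ?_ (h1.trans hsq)
    rintro rfl
    have h2 : Even (d ^ (x + e)) := hde.pow_of_ne_zero (by omega)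
    have h3 := even_iff_two_dvd.1 h2
    have h4 := hpow1 (x + e)
    omega
  -- gcd
  have hg : d ^ (Nat.gcd x (x + e)) - 1 ∣ 2 ^ (s - 1) - 1 := by
    set g := Nat.gcd x (x + e) with hgdef
    have hg0 : g ≠ 0 := by
      intro h1; have := Nat.gcd_eq_zero_iff.1 h1; omega
    obtain ⟨i, hi⟩ := Nat.gcd_dvd_left x (x + e)
    obtain ⟨j, hj⟩ := Nat.gcd_dvd_right x (x + e)
    rw [← hgdef] at hi hj
    have h1 : (d : ℤ) ^ g - 1 ∣ (d : ℤ) ^ x - 1 := by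
      rw [hi, pow_mul]
      have := sub_dvd_pow_sub_pow ((d : ℤ) ^ g) 1 i
      rwa [one_pow] at this
    have h2 : (d : ℤ) ^ g - 1 ∣ (d : ℤ) ^ (x + e) - 1 := by
      rw [hj, pow_mul]
      have := sub_dvd_pow_sub_pow ((d : ℤ) ^ g) 1 j
      rwa [one_pow] at this
    have h3 : (d : ℤ) ^ g - 1 ∣ ((d : ℤ) ^ x + 1) ^ s - 2 ^ s := by
      have h4 := sub_dvd_pow_sub_pow ((d : ℤ) ^ x + 1) 2 s
      have e1 : (d : ℤ) ^ x + 1 - 2 = (d : ℤ) ^ x - 1 := by ring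
      rw [e1] at h4
      exact h1.trans h4
    have h4 : (d : ℤ) ^ g - 1 ∣ 2 ^ s - 2 := by
      have h5 : (d : ℤ) ^ g - 1 ∣ ((d : ℤ) ^ (x + e) - 1) ^ m := h2.pow (by omega)
      have e1 : (2 : ℤ) ^ s - 2 = ((d : ℤ) ^ (x + e) - 1) ^ m - (((d : ℤ) ^ x + 1) ^ s - 2 ^ s) := by
        linarith
      rw [e1]; exact dvd_sub h5 h3
    have h5 := half_dvd _ s ((hdeZ.pow_of_ne_zero hg0).sub_odd odd_one) (by omega) h4
    rw [← Int.natCast_dvd_natCast, hcast, Nat.cast_sub Nat.one_le_two_pow]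
    push_cast
    exact h5
  -- the case 3 ∤ d
  have h3d : 3 ∣ d ∨ (d % 3 = 2 ∧ Odd x ∧ Odd (x + e) ∧ (5 ∣ d ∨ d % 5 = 4)) := by
    by_cases h3 : 3 ∣ d
    · exact Or.inl h3
    right
    have dec1 : ¬ ((1 : ZMod 3) = -1) := by decide
    have dec2 : (-1 : ZMod 3) = ((2 : ℕ) : ZMod 3) := by decide
    have dec3 : (-1 : ZMod 5) = ((4 : ℕ) : ZMod 5) := by decide
    have : Fact (Nat.Prime 3) := ⟨Nat.prime_three⟩
    have : Fact (Nat.Prime 5) := ⟨Nat.prime_five⟩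
    have hd3 : (d : ZMod 3) ≠ 0 := by rwa [Ne, ZMod.natCast_eq_zero_iff]
    have hsq3 : (d : ZMod 3) ^ 2 = 1 := ZMod.pow_card_sub_one_eq_one hd3
    have h4 : 3 ∣ d ^ x + 1 := (hclo 3 Nat.prime_three ⟨s', hs'⟩).resolve_left h3
    have h5 : (d : ZMod 3) ^ x = -1 := by
      rw [← ZMod.natCast_eq_zero_iff] at h4
      push_cast at h4
      linear_combination h4
    have hxo : Odd x := by
      by_contra hcon
      obtain ⟨i, hi⟩ := Nat.not_odd_iff_even.1 hcon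
      rw [hi, ← two_mul, pow_mul, hsq3, one_pow] at h5
      exact dec1 h5
    have hd2 : (d : ZMod 3) = -1 := eq_neg_one_of_pow 3 x _ hxo (by
      rw [Nat.coprime_comm]; exact (Nat.coprime_two_left).2 hxo) h5
    have hyo : Odd (x + e) := by
      by_contra hcon
      obtain ⟨i, hi⟩ := Nat.not_odd_iff_even.1 hcon
      have h6 : 3 ∣ d ^ (x + e) - 1 := by
        rw [← ZMod.natCast_eq_zero_iff, Nat.cast_sub (hpow1 _)]
        push_cast
        rw [hi, ← two_mul, pow_mul, hsq3, one_pow, sub_self]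
      rcases hq8 3 Nat.prime_three h6 with h7 | h7 <;> norm_num at h7
    refine ⟨?_, hxo, hyo, ?_⟩
    · have h6 : ((d : ℕ) : ZMod 3) = ((2 : ℕ) : ZMod 3) := by rw [hd2]; exact dec2
      have h7 := (ZMod.natCast_eq_natCast_iff' _ _ _).1 h6
      omega
    · by_cases h50 : 5 ∣ d
      · exact Or.inl h50
      right
      have he2 : Even e := by
        rcases Nat.even_or_odd e with h6 | h6
        · exact h6
        · exact absurd (hxo.add_odd h6) (Nat.not_even_iff_odd.2 hyo)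
      have h4s : 4 ∣ s := by
        have h6 : 2 ^ 2 ∣ d ^ e := by
          have h7 : 2 ^ e ∣ d ^ e := pow_dvd_pow_of_dvd (even_iff_two_dvd.1 hde) e
          exact (pow_dvd_pow 2 (by obtain ⟨i, hi⟩ := he2; omega)).trans h7
        exact h6.trans hDs
      have h6 : 5 ∣ d ^ x + 1 := (hclo 5 Nat.prime_five h4s).resolve_left h50
      have h7 : (d : ZMod 5) ^ x = -1 := by
        rw [← ZMod.natCast_eq_zero_iff] at h6
        push_cast at h6
        linear_combination h6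
      have h8 : (d : ZMod 5) = -1 := eq_neg_one_of_pow 5 x _ hxo (by
        have : Nat.Coprime x (2 ^ 2) := Nat.Coprime.pow_right 2 ((Nat.coprime_two_right).2 hxo)
        exact this) h7
      have h9 : ((d : ℕ) : ZMod 5) = ((4 : ℕ) : ZMod 5) := by rw [h8]; exact dec3
      have h10 := (ZMod.natCast_eq_natCast_iff' _ _ _).1 h9
      omega
  refine ⟨hde, hmo, hxy, hDs, hsm, hdm, hclo, hq8, hg, h3d, ?_⟩
  -- not a power of two
  rintro j rfl
  rcases h3d with h3 | ⟨h3, _, _, h5⟩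
  · have := Nat.prime_three.dvd_of_dvd_pow h3
    norm_num at this
  · have h5' : (2 ^ j) % 5 = 4 := by
      rcases h5 with h5 | h5
      · have := Nat.prime_five.dvd_of_dvd_pow h5
        norm_num at this
      · exact h5
    obtain ⟨i, l, hl, rfl⟩ : ∃ i l, l < 4 ∧ j = 4 * i + l := ⟨j / 4, j % 4, Nat.mod_lt _ (by norm_num), by omega⟩
    have h16 : ∀ i, (16 ^ i) % 15 = 1 := by
      intro i
      rw [Nat.pow_mod]; norm_num
    have h16' := h16 i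
    rw [pow_add, pow_mul] at h3 h5'
    norm_num at h3 h5'
    interval_cases l <;> norm_num at h3 h5' <;> omega

end Pool.Agent.R605.Pillai
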